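import Pool.Agent.H29.TS.Cmb

/-!
# Polynomials vanishing on the hyperplane of a label
-/

set_option autoImplicit false

namespace Pool.Agent.H29.TS

open Finset Pool.Agent.H80.TS MvPolynomial

variable {n : ℕ}

/-- Polynomials in the elements `a d i` (variable `some (d, i)`) and `x` (variable `none`). -/
abbrev Pol (n : ℕ) : Type := MvPolynomial (Option (Fin 3 × Fin n)) ℝ

/-- Substitution of `a 0 (t 0) + a 1 (t 1) + a 2 (t 2)` for `x`. -/
noncomputable def sb (t : Lab n) : Pol n →ₐ[ℝ] Pol n :=
  aeval (fun o => match o with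
    | none => ∑ d : Fin 3, X (some (d, t d))
    | some v => X (some v))

/-- The linear form `x - a 0 (t 0) - a 1 (t 1) - a 2 (t 2)`. -/
noncomputable def lf (t : Lab n) : Pol n := X none - ∑ d : Fin 3, X (some (d, t d))

theorem sb_none (t : Lab n) : sb t (X none) = ∑ d : Fin 3, X (some (d, t d)) := by
  simp [sb]

theorem sb_some (t : Lab n) (v : Fin 3 × Fin n) : sb t (X (some v)) = X (some v) := by
  simp [sb]

theorem sb_lf (t : Lab n) : sb t (lf t) = 0 := by
  rw [lf, map_sub, sb_none, map_sum]
  simp only [sb_some, sub_self]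

/-- The point with `x = a 0 (t 0) + a 1 (t 1) + a 2 (t 2)`. -/
def ptl (t : Lab n) (z : Option (Fin 3 × Fin n) → ℝ) : Option (Fin 3 × Fin n) → ℝ :=
  fun o => match o with
    | none => ∑ d : Fin 3, z (some (d, t d))
    | some v => z (some v)

theorem eval_sb (t : Lab n) (z : Option (Fin 3 × Fin n) → ℝ) (P : Pol n) :
    eval z (sb t P) = eval (ptl t z) P := by
  have h : ((aeval z : Pol n →ₐ[ℝ] ℝ).comp (sb t)) = aeval (ptl t z) := by
    refine MvPolynomial.algHom_ext fun o => ?_
    rw [AlgHom.comp_apply]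
    cases o with
    | none => rw [sb_none, map_sum]; simp [ptl]
    | some v => rw [sb_some]; simp [ptl]
  have h2 := congrArg (fun f : Pol n →ₐ[ℝ] ℝ => f P) h
  simp only [AlgHom.comp_apply] at h2
  rw [MvPolynomial.aeval_eq_eval, MvPolynomial.aeval_eq_eval] at h2
  exact h2

theorem lf_dvd_sub_sb (t : Lab n) (P : Pol n) : lf t ∣ P - sb t P := by
  rw [← Ideal.mem_span_singleton, ← Ideal.Quotient.eq]
  have h : (Ideal.Quotient.mkₐ ℝ (Ideal.span {lf t})) =
      (Ideal.Quotient.mkₐ ℝ (Ideal.span {lf t})).comp (sb t) := by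
    refine MvPolynomial.algHom_ext fun o => ?_
    rw [AlgHom.comp_apply]
    cases o with
    | none =>
      rw [sb_none, Ideal.Quotient.mkₐ_eq_mk, Ideal.Quotient.eq]
      exact Ideal.subset_span rfl
    | some v => rw [sb_some]
  exact congrArg (fun f : Pol n →ₐ[ℝ] (Pol n ⧸ Ideal.span {lf t}) => f P) h

theorem lf_dvd_of_sb (t : Lab n) {P : Pol n} (h : sb t P = 0) : lf t ∣ P := by
  have := lf_dvd_sub_sb t P
  rwa [h, sub_zero] at this

theorem lf_not_unit (t : Lab n) : ¬ IsUnit (lf t) := by
  intro h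
  have := h.map (sb t)
  rw [sb_lf] at this
  exact not_isUnit_zero this

/-- Splitting off the full power of the linear form. -/
theorem exists_power (t : Lab n) {P : Pol n} (hP : P ≠ 0) (h : sb t P = 0) :
    ∃ (m : ℕ) (g : Pol n), P = lf t ^ (m + 1) * g ∧ sb t g ≠ 0 := by
  obtain ⟨m, g, hg, rfl⟩ := WfDvdMonoid.max_power_factor' hP (lf_not_unit t)
  have hg' : sb t g ≠ 0 := fun h0 => hg (lf_dvd_of_sb t h0)
  rcases m with _ | m
  · rw [pow_zero, one_mul] at h
    exact absurd h hg'
  · exact ⟨m, g, rfl, hg'⟩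

theorem lf_ne_zero (t : Lab n) : lf t ≠ 0 := by
  intro h
  have h2 := congrArg (eval (fun o : Option (Fin 3 × Fin n) => match o with
    | none => (1 : ℝ)
    | some _ => 0)) h
  simp [lf] at h2

theorem totalDegree_lf_le (t : Lab n) : (lf t).totalDegree ≤ 1 := by
  unfold lf
  refine (totalDegree_sub _ _).trans (max_le ?_ ?_)
  · rw [totalDegree_X]
  · refine totalDegree_finsetSum_le fun d _ => ?_
    rw [totalDegree_X]

theorem one_le_totalDegree_lf (t : Lab n) : 1 ≤ (lf t).totalDegree := by
  by_contra h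
  have h0 : (lf t).totalDegree = 0 := by omega
  rw [totalDegree_eq_zero_iff_eq_C] at h0
  have h1 := sb_lf t
  rw [h0, algHom_C] at h1
  have h2 : coeff 0 (lf t) = 0 := by
    have := (algebraMap ℝ (Pol n)).injective.eq_iff' (map_zero _) |>.1 h1
    exact this
  rw [h2, map_zero] at h0
  exact lf_ne_zero t h0

theorem degree_power (t : Lab n) {P g : Pol n} {m D : ℕ} (hP : P = lf t ^ (m + 1) * g)
    (hg : g ≠ 0) (hD : P.totalDegree ≤ D) : m + 1 ≤ D ∧ g.totalDegree ≤ D := by
  have h1 : P.totalDegree = (lf t ^ (m + 1)).totalDegree + g.totalDegree := by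
    rw [hP]
    exact totalDegree_mul_of_isDomain (pow_ne_zero _ (lf_ne_zero t)) hg
  have h2 : ∀ k : ℕ, k ≤ (lf t ^ k).totalDegree := by
    intro k
    induction k with
    | zero => exact Nat.zero_le _
    | succ k ih =>
      rw [pow_succ, totalDegree_mul_of_isDomain (pow_ne_zero _ (lf_ne_zero t)) (lf_ne_zero t)]
      have := one_le_totalDegree_lf t
      omega
  have h3 := h2 (m + 1)
  omega

/-- A nonzero polynomial of degree at most `D` is nonzero at a point with at most `D` nonzero
coordinates. -/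
theorem exists_small_support {σ : Type} [DecidableEq σ] (q : MvPolynomial σ ℝ) (hq : q ≠ 0) {D : ℕ}
    (hD : q.totalDegree ≤ D) :
    ∃ (β : σ → ℝ) (S : Finset σ), S.card ≤ D ∧ (∀ v, v ∉ S → β v = 0) ∧ eval β q ≠ 0 := by
  obtain ⟨m, hm⟩ : ∃ m, m ∈ q.support := by
    by_contra h
    push Not at h
    exact hq (support_eq_empty.1 (Finset.eq_empty_of_forall_notMem h))
  let S := m.support
  let q' : MvPolynomial σ ℝ := ∑ k ∈ q.support.filter (fun k => k.support ⊆ S),
    monomial k (coeff k q)
  have hcoef : coeff m q' = coeff m q := by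
    simp only [q', coeff_sum, coeff_monomial]
    rw [Finset.sum_ite_eq' _ m]
    rw [if_pos]
    exact Finset.mem_filter.2 ⟨hm, Finset.Subset.refl _⟩
  have hq' : q' ≠ 0 := by
    intro h0
    rw [h0, coeff_zero] at hcoef
    exact (mem_support_iff.1 hm) hcoef.symm
  obtain ⟨β, hβ⟩ : ∃ β, eval β q' ≠ 0 := by
    by_contra h
    push Not at h
    exact hq' (MvPolynomial.funext fun x => by rw [h x, map_zero])
  refine ⟨fun v => if v ∈ S then β v else 0, S, ?_, fun v hv => if_neg hv, ?_⟩
  · have h1 : S.card ≤ m.sum fun _ e => e := by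
      rw [Finsupp.sum, Finset.card_eq_sum_ones]
      exact Finset.sum_le_sum fun v hv => Nat.one_le_iff_ne_zero.2 (Finsupp.mem_support_iff.1 hv)
    exact h1.trans ((le_totalDegree hm).trans hD)
  · have h2 : eval (fun v => if v ∈ S then β v else 0) q = eval β q' := by
      rw [eval_eq, map_sum]
      rw [← Finset.sum_filter_add_sum_filter_not q.support (fun k => k.support ⊆ S)]
      have h3 : ∑ k ∈ q.support.filter (fun k => ¬ k.support ⊆ S),
          coeff k q * ∏ i ∈ k.support, (if i ∈ S then β i else 0) ^ k i = 0 := by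
        refine Finset.sum_eq_zero fun k hk => ?_
        obtain ⟨_, hk2⟩ := Finset.mem_filter.1 hk
        obtain ⟨i, hi, hi'⟩ := Finset.not_subset.1 hk2
        rw [Finset.prod_eq_zero hi, mul_zero]
        rw [if_neg hi', zero_pow (Finsupp.mem_support_iff.1 hi)]
      rw [h3, add_zero]
      refine Finset.sum_congr rfl fun k hk => ?_
      obtain ⟨_, hk2⟩ := Finset.mem_filter.1 hk
      rw [eval_monomial, Finsupp.prod]
      congr 1
      refine Finset.prod_congr rfl fun i hi => ?_
      rw [if_pos (hk2 hi)]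
    rw [h2]
    exact hβ

theorem totalDegree_aeval_le {σ τ : Type} (f : σ → MvPolynomial τ ℝ)
    (hf : ∀ v, (f v).totalDegree ≤ 1) (g : MvPolynomial σ ℝ) :
    (aeval f g : MvPolynomial τ ℝ).totalDegree ≤ g.totalDegree := by
  rw [aeval_def, eval₂_eq]
  refine totalDegree_finsetSum_le fun k hk => ?_
  refine (totalDegree_mul _ _).trans ?_
  have h1 : (algebraMap ℝ (MvPolynomial τ ℝ) (coeff k g)).totalDegree = 0 := by
    rw [algebraMap_eq, totalDegree_C]
  rw [h1, zero_add]
  refine (totalDegree_finsetProd _ _).trans ?_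
  refine le_trans (Finset.sum_le_sum (g := fun i => k i) fun i _ => ?_) ?_
  · refine (totalDegree_pow _ _).trans ?_
    calc k i * (f i).totalDegree ≤ k i * 1 := Nat.mul_le_mul le_rfl (hf i)
      _ = k i := mul_one _
  · exact le_totalDegree hk

/-- The point with coordinates `α d + β (d, i)` and `x = α 0 + α 1 + α 2`. -/
def bpt (α : Fin 3 → ℝ) (β : Fin 3 × Fin n → ℝ) : Option (Fin 3 × Fin n) → ℝ :=
  fun o => match o with
    | none => ∑ d : Fin 3, α d
    | some v => α v.1 + β v

/-- A polynomial not vanishing on the hyperplane of `t` does not vanish at a point of it at which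
almost all coordinates in each of the three groups are equal to the one selected by `t`. -/
theorem exists_base (t : Lab n) (g : Pol n) (hg : sb t g ≠ 0) {D : ℕ} (hD : g.totalDegree ≤ D) :
    ∃ (α : Fin 3 → ℝ) (β : Fin 3 × Fin n → ℝ) (M : Finset (Fin 3 × Fin n)), M.card ≤ D ∧
      (∀ v ∈ M, t v.1 ≠ v.2) ∧ (∀ v, v ∉ M → β v = 0) ∧ eval (bpt α β) g ≠ 0 := by
  obtain ⟨z, hz⟩ : ∃ z, eval z (sb t g) ≠ 0 := by
    by_contra h
    push Not at h
    exact hg (MvPolynomial.funext fun x => by rw [h x, map_zero])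
  rw [eval_sb] at hz
  let α : Fin 3 → ℝ := fun d => z (some (d, t d))
  let f : Option (Fin 3 × Fin n) → MvPolynomial (Fin 3 × Fin n) ℝ := fun o => match o with
    | none => C (∑ d : Fin 3, α d)
    | some v => if t v.1 = v.2 then C (α v.1) else C (α v.1) + X v
  have hf : ∀ o, (f o).totalDegree ≤ 1 := by
    intro o
    cases o with
    | none => simp only [f]; rw [totalDegree_C]; exact Nat.zero_le _
    | some v =>
      simp only [f]
      split_ifs
      · rw [totalDegree_C]; exact Nat.zero_le _
      · refine (totalDegree_add _ _).trans (max_le ?_ ?_)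
        · rw [totalDegree_C]; exact Nat.zero_le _
        · rw [totalDegree_X]
  let q : MvPolynomial (Fin 3 × Fin n) ℝ := aeval f g
  have hev : ∀ β : Fin 3 × Fin n → ℝ, eval β q =
      eval (bpt α (fun v => if t v.1 = v.2 then 0 else β v)) g := by
    intro β
    have h : ((aeval β : MvPolynomial (Fin 3 × Fin n) ℝ →ₐ[ℝ] ℝ).comp (aeval f)) =
        (aeval (bpt α (fun v => if t v.1 = v.2 then 0 else β v)) : Pol n →ₐ[ℝ] ℝ) := by
      refine MvPolynomial.algHom_ext fun o => ?_
      rw [AlgHom.comp_apply, aeval_X, aeval_X]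
      cases o with
      | none => simp [f, bpt]
      | some v =>
        simp only [f, bpt]
        split_ifs with hv <;> simp
    have h2 := congrArg (fun f : Pol n →ₐ[ℝ] ℝ => f g) h
    simp only [AlgHom.comp_apply] at h2
    rw [MvPolynomial.aeval_eq_eval, MvPolynomial.aeval_eq_eval] at h2
    exact h2
  have hq : q ≠ 0 := by
    intro h0
    apply hz
    have h1 := hev (fun v => z (some v) - α v.1)
    rw [h0, map_zero] at h1
    have h2 : bpt α (fun v => if t v.1 = v.2 then 0 else z (some v) - α v.1) = ptl t z := by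
      funext o
      cases o with
      | none => rfl
      | some v =>
        simp only [bpt, ptl]
        split_ifs with hv
        · rw [add_zero]
          simp only [α]
          rw [hv]
        · ring
    rw [h2] at h1
    exact h1.symm
  obtain ⟨β, S, hS, hβ, hne⟩ := exists_small_support q hq
    ((totalDegree_aeval_le f hf g).trans hD)
  refine ⟨α, fun v => if t v.1 = v.2 then 0 else β v, S.filter (fun v => t v.1 ≠ v.2),
    (Finset.card_le_card (Finset.filter_subset _ _)).trans hS, fun v hv =>
      (Finset.mem_filter.1 hv).2, ?_, ?_⟩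
  · intro v hv
    dsimp only
    split_ifs with h1
    · rfl
    · exact hβ v fun h2 => hv (Finset.mem_filter.2 ⟨h2, h1⟩)
  · rw [← hev β]
    exact hne

end Pool.Agent.H29.TS
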