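import Pool.Agent.H80.TS.Comb

/-!
# Counting lemma for all densities

A family `P` of labels realised as differences of vectors `c v` (`v : ι`) in the sense of `Cover`
has at most `432 * n * |ι|` members.
-/

set_option autoImplicit false

namespace Pool.Agent.H29.TS

open Finset Pool.Agent.H80.TS

theorem cover_arith (n T L P : ℕ) (h5 : P ≤ 2 * L) (h4 : L ^ 2 ≤ T * (8 * T ^ 2 + 3 * (36 * n) * L))
    (hPn : P ≤ n ^ 3) : P ≤ 432 * n * T := by
  by_contra hlt
  push Not at hlt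
  have hn : 0 < n := by
    rcases Nat.eq_zero_or_pos n with rfl | h0
    · simp only [ne_eq, OfNat.ofNat_ne_zero, not_false_eq_true, zero_pow, Nat.le_zero] at hPn
      omega
    · exact h0
  have hr1 : (432 : ℝ) * n * T < 2 * L := by
    have : 432 * n * T < 2 * L := lt_of_lt_of_le hlt h5
    exact_mod_cast this
  have hr2 : (432 : ℝ) * n * T < n ^ 3 := by
    have : 432 * n * T < n ^ 3 := lt_of_lt_of_le hlt hPn
    exact_mod_cast this
  have hr3 : (L : ℝ) ^ 2 ≤ T * (8 * T ^ 2 + 3 * (36 * n) * L) := by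
    exact_mod_cast h4
  have hnr : (0 : ℝ) < n := by exact_mod_cast hn
  have hT0 : (0 : ℝ) ≤ T := Nat.cast_nonneg _
  have hL0 : (0 : ℝ) ≤ L := Nat.cast_nonneg _
  have hr4 : (432 : ℝ) * T < n ^ 2 := by
    have e1 : (n : ℝ) * (432 * T) < n * n ^ 2 := by
      calc (n : ℝ) * (432 * T) = 432 * n * T := by ring
        _ < n ^ 3 := hr2
        _ = n * n ^ 2 := by ring
    exact lt_of_mul_lt_mul_left e1 hnr.le
  have e1 : (216 : ℝ) * n * T ≤ L := by linarith
  have e2 : ((216 : ℝ) * n * T) * L ≤ L * L := mul_le_mul_of_nonneg_right e1 hL0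
  have e3 : (T : ℝ) * (8 * T ^ 2 + 3 * (36 * n) * L) =
      8 * (T : ℝ) ^ 3 + ((216 : ℝ) * n * T) * L / 2 := by
    ring
  have e4 : (L : ℝ) * L = (L : ℝ) ^ 2 := by ring
  have hr5 : (L : ℝ) ^ 2 ≤ 16 * (T : ℝ) ^ 3 := by
    rw [e3] at hr3
    linarith
  have hr6 : ((216 : ℝ) * n * T) ^ 2 ≤ (L : ℝ) ^ 2 :=
    pow_le_pow_left₀ (by positivity) e1 2
  have e5 : ((216 : ℝ) * n * T) ^ 2 = 46656 * ((n : ℝ) ^ 2 * (T : ℝ) ^ 2) := by ring
  have hr7 : 46656 * ((n : ℝ) ^ 2 * (T : ℝ) ^ 2) ≤ 16 * (T : ℝ) ^ 3 := by linarith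
  have hT2 : (T : ℝ) ^ 3 ≤ (n : ℝ) ^ 2 * (T : ℝ) ^ 2 := by
    have h6 : (T : ℝ) ≤ (n : ℝ) ^ 2 := by linarith
    have h7 : (T : ℝ) * (T : ℝ) ^ 2 ≤ (n : ℝ) ^ 2 * (T : ℝ) ^ 2 :=
      mul_le_mul_of_nonneg_right h6 (by positivity)
    have h8 : (T : ℝ) * (T : ℝ) ^ 2 = (T : ℝ) ^ 3 := by ring
    linarith
  have hT3 : (n : ℝ) ^ 2 * (T : ℝ) ^ 2 ≤ 0 := by linarith
  have hT4 : T = 0 := by
    by_contra hne
    have hTpos : (0 : ℝ) < T := by
      exact_mod_cast Nat.pos_of_ne_zero hne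
    have : (0 : ℝ) < (n : ℝ) ^ 2 * (T : ℝ) ^ 2 := by positivity
    linarith
  subst hT4
  have h9 : L ^ 2 ≤ 0 := by simpa using h4
  have h10 : L = 0 := by
    have := Nat.le_zero.1 h9
    exact pow_eq_zero_iff (n := 2) (by norm_num) |>.1 this
  omega

variable {n : ℕ} {ι : Type}
variable {c : ι → Fin 3 → Fin n → ℝ} {P : Finset (Lab n)} {src tgt : Lab n → ι} {μ : Lab n → ℝ}
variable [DecidableEq ι] [Fintype ι]

theorem cover_gen (h : Cover c P src tgt μ) : P.card ≤ 432 * n * Fintype.card ι := by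
  classical
  by_contra hlt
  push Not at hlt
  have hPn : P.card ≤ n ^ 3 := by
    have h1 : Fintype.card (Lab n) = n ^ 3 := by simp
    rw [← h1]
    exact Finset.card_le_univ P
  have hn : 0 < n := by
    rcases Nat.eq_zero_or_pos n with rfl | h0
    · simp only [ne_eq, OfNat.ofNat_ne_zero, not_false_eq_true, zero_pow, Nat.le_zero] at hPn
      omega
    · exact h0
  set T := Fintype.card ι with hT
  set θ := 36 * n with hθ
  set L := ∑ v : ι, (lgt P src tgt θ v).card with hL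
  set H := (P.filter (fun t => (∃ d, src t ∈ hvy P src tgt θ d (t d)) ∧
      ∃ d, tgt t ∈ hvy P src tgt θ d (t d))) with hH
  have h1 : θ * H.card ≤ 18 * n * P.card := h.card_heavy θ
  have h2 : 2 * H.card ≤ P.card := by
    have h3 : (18 * n) * (2 * H.card) ≤ (18 * n) * P.card := by
      rw [hθ] at h1
      calc (18 * n) * (2 * H.card) = 36 * n * H.card := by ring
        _ ≤ _ := h1
    exact Nat.le_of_mul_le_mul_left h3 (by omega)
  have h3 : P.card ≤ H.card + L := by
    have hsub : P ⊆ H ∪ univ.biUnion (fun v => lgt P src tgt θ v) := by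
      intro t ht
      rw [Finset.mem_union]
      by_cases hs : ∃ d, src t ∈ hvy P src tgt θ d (t d)
      · by_cases hg : ∃ d, tgt t ∈ hvy P src tgt θ d (t d)
        · left
          exact Finset.mem_filter.2 ⟨ht, hs, hg⟩
        · right
          simp only [mem_biUnion, mem_univ, true_and]
          push Not at hg
          exact ⟨tgt t, Finset.mem_filter.2 ⟨ht, Or.inr rfl, hg⟩⟩
      · right
        simp only [mem_biUnion, mem_univ, true_and]
        push Not at hs
        exact ⟨src t, Finset.mem_filter.2 ⟨ht, Or.inl rfl, hs⟩⟩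
    refine (Finset.card_le_card hsub).trans ((Finset.card_union_le _ _).trans
      (Nat.add_le_add_left Finset.card_biUnion_le _))
  have h4 : L ^ 2 ≤ T * (8 * T ^ 2 + 3 * θ * L) := by
    have h5 := sq_sum_le_card_mul_sum_sq (s := (univ : Finset ι))
      (f := fun v => (lgt P src tgt θ v).card)
    rw [Finset.card_univ] at h5
    exact h5.trans (Nat.mul_le_mul le_rfl (h.sum_lgt_sq θ))
  have h5 : P.card ≤ 2 * L := by omega
  exact absurd (cover_arith n T L P.card h5 h4 hPn) (not_le.2 hlt)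

end Pool.Agent.H29.TS
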