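import Mathlib

/-!
# Consequences of the trade-off
-/

set_option autoImplicit false

namespace Pool.Agent.H29.TS

theorem root_form (n D T R : ℕ)
    (h : (n ^ 2) ^ n ≤ (10 ^ 17) ^ (n + R) * (D ^ 4 * (T + R)) ^ n) :
    (n : ℝ) ^ 2 ≤ (10 ^ 17 : ℝ) ^ (1 + (R : ℝ) / n) * D ^ 4 * (T + R) := by
  rcases Nat.eq_zero_or_pos n with rfl | hn
  · have : (0 : ℝ) ≤ (10 ^ 17 : ℝ) ^ (1 + (R : ℝ) / (0 : ℕ)) * D ^ 4 * (T + R) := by positivity
    simpa using this
  have hn' : (0 : ℝ) < n := by exact_mod_cast hn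
  have h1 : ((n : ℝ) ^ 2) ^ n ≤ (10 ^ 17 : ℝ) ^ (n + R) * ((D : ℝ) ^ 4 * (T + R)) ^ n := by
    exact_mod_cast h
  have h2 : ((10 ^ 17 : ℝ) ^ (1 + (R : ℝ) / n)) ^ n = (10 ^ 17 : ℝ) ^ (n + R) := by
    obtain ⟨B, hB⟩ : ∃ B : ℝ, B = 10 ^ 17 := ⟨_, rfl⟩
    rw [← hB]
    have hB0 : 0 < B := by rw [hB]; norm_num
    have e : (1 + (R : ℝ) / n) * (n : ℝ) = ((n + R : ℕ) : ℝ) := by
      rw [add_mul, div_mul_cancel₀ _ hn'.ne', one_mul]
      push_cast
      ring
    rw [← Real.rpow_natCast, ← Real.rpow_mul hB0.le, e, Real.rpow_natCast]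
  have h3 : ((n : ℝ) ^ 2) ^ n ≤
      ((10 ^ 17 : ℝ) ^ (1 + (R : ℝ) / n) * D ^ 4 * (T + R)) ^ n := by
    have h4 : ((10 ^ 17 : ℝ) ^ (1 + (R : ℝ) / n) * D ^ 4 * (T + R)) ^ n =
        (10 ^ 17 : ℝ) ^ (n + R) * ((D : ℝ) ^ 4 * (T + R)) ^ n := by
      rw [mul_assoc, mul_pow, h2]
    rw [h4]
    exact h1
  exact (pow_le_pow_iff_left₀ (by positivity) (by positivity) hn.ne').1 h3

/-- The constant in the `n log n` bound. -/
noncomputable def cst : ℝ := 1 / (4 * Real.log (10 ^ 17) * (10 ^ 17) ^ 4)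

theorem log_pos_B : 0 < Real.log (10 ^ 17) := Real.log_pos (by norm_num)

theorem cst_pos : 0 < cst := by
  unfold cst
  have := log_pos_B
  positivity

theorem log_form (n D T R : ℕ) (hD : 0 < D)
    (h : (n ^ 2) ^ n ≤ (10 ^ 17) ^ (n + R) * (D ^ 4 * (T + R)) ^ n) :
    cst * n * Real.log n ≤ D ^ 4 * (T + R) := by
  rcases Nat.eq_zero_or_pos n with rfl | hn
  · have : (0 : ℝ) ≤ (D : ℝ) ^ 4 * (T + R) := by positivity
    simpa using this
  have hB := log_pos_B
  obtain ⟨M, hM⟩ : ∃ M : ℕ, M = D ^ 4 * (T + R) := ⟨_, rfl⟩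
  have hMr : (M : ℝ) = (D : ℝ) ^ 4 * (T + R) := by rw [hM]; push_cast; ring
  rw [← hMr]
  rw [← hM] at h
  have hn' : (0 : ℝ) < n := by exact_mod_cast hn
  have hn1 : (1 : ℝ) ≤ n := by exact_mod_cast hn
  have hln : 0 ≤ Real.log n := Real.log_nonneg hn1
  have hMpos : 0 < M := by
    rcases Nat.eq_zero_or_pos M with h0 | h0
    · rw [h0, zero_pow hn.ne', mul_zero] at h
      have : 0 < (n ^ 2) ^ n := by positivity
      omega
    · exact h0
  have hM1 : (1 : ℝ) ≤ M := by exact_mod_cast hMpos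
  have hM0 : (0 : ℝ) < M := by linarith
  have hRM : (R : ℝ) ≤ M := by
    have : R ≤ M := by
      rw [hM]
      calc R ≤ T + R := Nat.le_add_left _ _
        _ ≤ D ^ 4 * (T + R) := Nat.le_mul_of_pos_left _ (by positivity)
    exact_mod_cast this
  set b := Real.log (10 ^ 17) with hb
  have hc1 : cst ≤ 1 / (4 * b) := by
    unfold cst
    rw [← hb]
    refine one_div_le_one_div_of_le (by positivity) ?_
    exact le_mul_of_one_le_right (by positivity) (by norm_num)
  have hb1 : (1 : ℝ) ≤ b := by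
    have h1 : Real.exp 1 ≤ 10 ^ 17 := by
      have := Real.exp_one_lt_d9
      linarith [(by norm_num : (2.7182818286 : ℝ) ≤ 10 ^ 17)]
    rw [hb]
    calc (1 : ℝ) = Real.log (Real.exp 1) := (Real.log_exp 1).symm
      _ ≤ _ := Real.log_le_log (Real.exp_pos 1) h1
  have hc2 : cst ≤ 1 := by
    refine hc1.trans ?_
    rw [div_le_one (by positivity)]
    linarith
  -- logarithm of the main inequality
  have h1 : 2 * n * Real.log n ≤ (n + R) * b + n * Real.log M := by
    have h2 : ((n : ℝ) ^ 2) ^ n ≤ (10 ^ 17 : ℝ) ^ (n + R) * (M : ℝ) ^ n := by exact_mod_cast h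
    have h3 := Real.log_le_log (by positivity) h2
    have e1 : Real.log (((n : ℝ) ^ 2) ^ n) = n * (2 * Real.log n) := by
      rw [Real.log_pow, Real.log_pow]
      push_cast
      ring
    have e2 : Real.log ((10 ^ 17 : ℝ) ^ (n + R)) = (n + R) * b := by
      rw [hb]
      generalize (10 ^ 17 : ℝ) = B
      rw [Real.log_pow]
      push_cast
      ring
    rw [Real.log_mul (by positivity) (by positivity), e1, e2, Real.log_pow] at h3
    linarith
  rcases le_or_gt (3 / 2 * Real.log n) (Real.log M) with hcase | hcase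
  · -- many steps
    have h2 : (n : ℝ) * Real.log n ≤ M := by
      have h3 : (n : ℝ) ^ (3 / 2 : ℝ) ≤ M := by
        rw [Real.rpow_def_of_pos hn']
        calc Real.exp (Real.log n * (3 / 2)) ≤ Real.exp (Real.log M) := by
              refine Real.exp_le_exp.2 ?_
              linarith
          _ = M := Real.exp_log hM0
      have h4 : Real.log n ≤ (n : ℝ) ^ (1 / 2 : ℝ) := by
        have h5 := Real.log_le_rpow_div hn'.le (ε := 1 / 2) (by norm_num)
        have h6 : Real.log n = 2 * Real.log ((n : ℝ) ^ (1 / 2 : ℝ)) := by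
          rw [Real.log_rpow hn']
          ring
        have h7 : Real.log ((n : ℝ) ^ (1 / 2 : ℝ)) ≤ (n : ℝ) ^ (1 / 2 : ℝ) / Real.exp 1 := by
          have h8 := Real.add_one_le_exp (Real.log ((n : ℝ) ^ (1 / 2 : ℝ)) - 1)
          rw [Real.exp_sub, Real.exp_log (by positivity)] at h8
          linarith
        have h9 : (2 : ℝ) ≤ Real.exp 1 := by
          have := Real.exp_one_gt_d9
          linarith
        rw [h6]
        calc 2 * Real.log ((n : ℝ) ^ (1 / 2 : ℝ)) ≤ 2 * ((n : ℝ) ^ (1 / 2 : ℝ) / Real.exp 1) :=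
              mul_le_mul_of_nonneg_left h7 (by norm_num)
          _ ≤ (n : ℝ) ^ (1 / 2 : ℝ) := by
              rw [mul_div_assoc', div_le_iff₀ (Real.exp_pos 1), mul_comm]
              exact mul_le_mul_of_nonneg_left h9 (by positivity)
      calc (n : ℝ) * Real.log n ≤ n * (n : ℝ) ^ (1 / 2 : ℝ) :=
            mul_le_mul_of_nonneg_left h4 hn'.le
        _ = (n : ℝ) ^ (3 / 2 : ℝ) := by
            nth_rewrite 1 [← Real.rpow_one (n : ℝ)]
            rw [← Real.rpow_add hn']
            norm_num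
        _ ≤ M := h3
    calc cst * n * Real.log n = cst * (n * Real.log n) := by ring
      _ ≤ 1 * (n * Real.log n) := mul_le_mul_of_nonneg_right hc2 (by positivity)
      _ ≤ M := by rw [one_mul]; exact h2
  · rcases le_or_gt (4 * b) (Real.log n) with hbig | hsmall
    · -- many comparisons
      have h2 : n * Real.log n ≤ 4 * b * R := by
        have h3 : n * Real.log M ≤ n * (3 / 2 * Real.log n) :=
          mul_le_mul_of_nonneg_left hcase.le hn'.le
        have h4 : n * (4 * b) ≤ n * Real.log n := mul_le_mul_of_nonneg_left hbig hn'.le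
        have h5 : 2 * (n : ℝ) * Real.log n = 2 * (n * Real.log n) := by ring
        have h6 : (n : ℝ) * (3 / 2 * Real.log n) = 3 / 2 * (n * Real.log n) := by ring
        have h7 : ((n : ℝ) + R) * b = n * (4 * b) / 4 + b * R := by ring
        rw [h5, h7] at h1
        rw [h6] at h3
        nlinarith
      calc cst * n * Real.log n = cst * (n * Real.log n) := by ring
        _ ≤ 1 / (4 * b) * (n * Real.log n) := mul_le_mul_of_nonneg_right hc1 (by positivity)
        _ ≤ 1 / (4 * b) * (4 * b * R) := mul_le_mul_of_nonneg_left h2 (by positivity)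
        _ = R := by field_simp
        _ ≤ M := hRM
    · -- small n
      have h2 : (n : ℝ) ≤ (10 ^ 17) ^ 4 := by
        have h3 : Real.log n ≤ Real.log ((10 ^ 17 : ℝ) ^ 4) := by
          have e3 : Real.log ((10 ^ 17 : ℝ) ^ 4) = 4 * b := by
            rw [hb]
            generalize (10 ^ 17 : ℝ) = B
            rw [Real.log_pow]
            push_cast
            ring
          rw [e3]
          exact hsmall.le
        exact (Real.log_le_log_iff hn' (by positivity)).1 h3
      have h3 : n * Real.log n ≤ (10 ^ 17) ^ 4 * (4 * b) :=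
        mul_le_mul h2 hsmall.le hln (by positivity)
      calc cst * n * Real.log n = cst * (n * Real.log n) := by ring
        _ ≤ cst * ((10 ^ 17) ^ 4 * (4 * b)) := mul_le_mul_of_nonneg_left h3 cst_pos.le
        _ = 1 := by
            unfold cst
            rw [← hb]
            field_simp
        _ ≤ M := hM1

end Pool.Agent.H29.TS
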