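import Pool.Agent.H29.TS.Alg

/-!
# At most `6912 * D ^ 4 * n * T` hyperplanes are covered by `T` polynomials of degree `D`
-/

set_option autoImplicit false

namespace Pool.Agent.H29.TS

open Finset Pool.Agent.H80.TS MvPolynomial

variable {n : ℕ}

/-! ### Counting colourings -/

section colour

variable {σ : Type} [Fintype σ] [DecidableEq σ]

theorem bern (D k : ℕ) (hk : k ≤ D) (hD : 0 < D) : (2 * D) ^ k ≤ 2 * (2 * D - 1) ^ k := by
  have h2 : (1 : ℝ) ≤ 2 * D := by
    have : (1 : ℝ) ≤ D := by exact_mod_cast hD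
    linarith
  have hDr : (0 : ℝ) < 2 * D := by linarith
  have h3 : (1 : ℝ) + k * (-(1 / (2 * D))) ≤ (1 + -(1 / (2 * D))) ^ k := by
    refine one_add_mul_le_pow ?_ k
    have : (1 : ℝ) / (2 * D) ≤ 1 := by
      rw [div_le_one hDr]
      exact h2
    linarith
  have h4 : (1 : ℝ) / 2 ≤ 1 + k * (-(1 / (2 * D))) := by
    have hkr : (k : ℝ) ≤ D := by exact_mod_cast hk
    have : (k : ℝ) * (1 / (2 * D)) ≤ 1 / 2 := by
      rw [mul_one_div, div_le_div_iff₀ hDr (by norm_num)]
      linarith
    linarith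
  have h5 : (1 : ℝ) / 2 ≤ (1 + -(1 / (2 * D))) ^ k := h4.trans h3
  have h6 : (1 : ℝ) + -(1 / (2 * D)) = (2 * D - 1) / (2 * D) := by
    field_simp
    ring
  rw [h6, div_pow, div_le_div_iff₀ (by norm_num) (by positivity), one_mul] at h5
  have h7 : (((2 * D) ^ k : ℕ) : ℝ) ≤ ((2 * (2 * D - 1) ^ k : ℕ) : ℝ) := by
    push_cast
    rw [Nat.cast_sub (by omega)]
    push_cast
    linarith
  exact_mod_cast h7

/-- The colourings with colour `z` on `A` and another colour on `M`. -/
theorem card_colour {D : ℕ} (hD : 0 < D) (z : Fin (2 * D)) (A M : Finset σ) (hA : A.card = 3)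
    (hM : M.card ≤ D) (hAM : Disjoint A M) :
    Fintype.card (σ → Fin (2 * D)) ≤ 16 * D ^ 3 *
      (univ.filter (fun χ : σ → Fin (2 * D) => (∀ v ∈ A, χ v = z) ∧ ∀ v ∈ M, χ v ≠ z)).card := by
  have h1 : (univ.filter (fun χ : σ → Fin (2 * D) => (∀ v ∈ A, χ v = z) ∧ ∀ v ∈ M, χ v ≠ z)) =
      Fintype.piFinset (fun v => if v ∈ A then {z} else if v ∈ M then univ.erase z else univ) := by
    ext χ
    simp only [mem_filter, mem_univ, true_and, Fintype.mem_piFinset]
    constructor
    · rintro ⟨h1, h2⟩ v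
      split_ifs with ha hm
      · exact Finset.mem_singleton.2 (h1 v ha)
      · exact Finset.mem_erase.2 ⟨h2 v hm, Finset.mem_univ _⟩
      · exact Finset.mem_univ _
    · intro h
      refine ⟨fun v hv => ?_, fun v hv => ?_⟩
      · have := h v
        rw [if_pos hv] at this
        exact Finset.mem_singleton.1 this
      · have := h v
        rw [if_neg (fun ha => (Finset.disjoint_left.1 hAM) ha hv), if_pos hv] at this
        exact (Finset.mem_erase.1 this).1
  rw [h1, Fintype.card_piFinset]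
  have h2 : ∀ v : σ, (if v ∈ A then ({z} : Finset (Fin (2 * D))) else
      if v ∈ M then univ.erase z else univ).card =
      if v ∈ A then 1 else if v ∈ M then 2 * D - 1 else 2 * D := by
    intro v
    split_ifs
    · exact Finset.card_singleton _
    · rw [Finset.card_erase_of_mem (Finset.mem_univ _), Finset.card_univ, Fintype.card_fin]
    · rw [Finset.card_univ, Fintype.card_fin]
  simp only [h2]
  set W := ∏ v : σ, (if v ∈ A then 1 else if v ∈ M then 2 * D - 1 else 2 * D) with hW
  have h3 : ∀ v : σ, (if v ∈ A then 1 else if v ∈ M then 2 * D - 1 else 2 * D) *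
      (if v ∈ A then 2 * D else 1) * (if v ∈ M then 2 * D else 1) =
      (2 * D) * (if v ∈ M then 2 * D - 1 else 1) := by
    intro v
    by_cases ha : v ∈ A
    · have hm : v ∉ M := Finset.disjoint_left.1 hAM ha
      rw [if_pos ha, if_pos ha, if_neg hm, if_neg hm]
      ring
    · rw [if_neg ha, if_neg ha]
      by_cases hm : v ∈ M
      · rw [if_pos hm, if_pos hm, if_pos hm]
        ring
      · rw [if_neg hm, if_neg hm, if_neg hm]
        ring
  have h4 : W * (2 * D) ^ 3 * (2 * D) ^ M.card =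
      (2 * D) ^ Fintype.card σ * (2 * D - 1) ^ M.card := by
    have e1 : ∀ (S : Finset σ) (a : ℕ), ∏ v : σ, (if v ∈ S then a else 1) = a ^ S.card := by
      intro S a
      rw [Finset.prod_ite_mem, Finset.univ_inter, Finset.prod_const]
    rw [← hA, ← e1 A, ← e1 M, hW, ← Finset.prod_mul_distrib, ← Finset.prod_mul_distrib]
    simp only [h3]
    rw [Finset.prod_mul_distrib, e1 M, Finset.prod_const, Finset.card_univ]
  have h5 := bern D M.card hM hD
  rw [Fintype.card_fun, Fintype.card_fin]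
  have hpos : 0 < (2 * D) ^ M.card := by positivity
  refine Nat.le_of_mul_le_mul_right ?_ hpos
  calc (2 * D) ^ Fintype.card σ * (2 * D) ^ M.card
      ≤ (2 * D) ^ Fintype.card σ * (2 * (2 * D - 1) ^ M.card) := Nat.mul_le_mul le_rfl h5
    _ = 2 * ((2 * D) ^ Fintype.card σ * (2 * D - 1) ^ M.card) := by ring
    _ = 2 * (W * (2 * D) ^ 3 * (2 * D) ^ M.card) := by rw [h4]
    _ = 16 * D ^ 3 * W * (2 * D) ^ M.card := by ring

end colour

/-! ### Splitting -/

/-- The base point. -/
def zpt {D : ℕ} (z : Fin (2 * D)) (χ : Fin 3 × Fin n → Fin (2 * D)) (α : Fin 3 → ℝ)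
    (γ : Fin 3 × Fin n → ℝ) : Option (Fin 3 × Fin n) → ℝ :=
  fun o => match o with
    | none => ∑ d : Fin 3, α d
    | some v => if χ v = z then α v.1 else γ v

theorem exists_common {D : ℕ} (z : Fin (2 * D)) (χ : Fin 3 × Fin n → Fin (2 * D))
    (E : Finset (Lab n)) (g : Lab n → Pol n)
    (h : ∀ t ∈ E, ∃ α γ, eval (zpt z χ α γ) (g t) ≠ 0) :
    ∃ α γ, ∀ t ∈ E, eval (zpt z χ α γ) (g t) ≠ 0 := by
  classical
  let f : Option (Fin 3 × Fin n) → MvPolynomial (Fin 3 ⊕ (Fin 3 × Fin n)) ℝ := fun o => match o with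
    | none => ∑ d : Fin 3, X (Sum.inl d)
    | some v => if χ v = z then X (Sum.inl v.1) else X (Sum.inr v)
  have hev : ∀ (α : Fin 3 → ℝ) (γ : Fin 3 × Fin n → ℝ) (P : Pol n),
      eval (Sum.elim α γ) (aeval f P : MvPolynomial (Fin 3 ⊕ (Fin 3 × Fin n)) ℝ) =
      eval (zpt z χ α γ) P := by
    intro α γ P
    have h : ((aeval (Sum.elim α γ) : MvPolynomial (Fin 3 ⊕ (Fin 3 × Fin n)) ℝ →ₐ[ℝ] ℝ).comp
        (aeval f)) = (aeval (zpt z χ α γ) : Pol n →ₐ[ℝ] ℝ) := by
      refine MvPolynomial.algHom_ext fun o => ?_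
      rw [AlgHom.comp_apply, aeval_X, aeval_X]
      cases o with
      | none => simp [f, zpt]
      | some v =>
        simp only [f, zpt]
        split_ifs with hv <;> simp
    have h2 := congrArg (fun f : Pol n →ₐ[ℝ] ℝ => f P) h
    simp only [AlgHom.comp_apply] at h2
    rw [MvPolynomial.aeval_eq_eval, MvPolynomial.aeval_eq_eval] at h2
    exact h2
  let Q : MvPolynomial (Fin 3 ⊕ (Fin 3 × Fin n)) ℝ := ∏ t ∈ E, aeval f (g t)
  have hQ : Q ≠ 0 := by
    refine Finset.prod_ne_zero_iff.2 fun t ht h0 => ?_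
    obtain ⟨α, γ, hne⟩ := h t ht
    apply hne
    rw [← hev, h0, map_zero]
  obtain ⟨w, hw⟩ : ∃ w, eval w Q ≠ 0 := by
    by_contra hc
    push Not at hc
    exact hQ (MvPolynomial.funext fun x => by rw [hc x, map_zero])
  refine ⟨fun d => w (Sum.inl d), fun v => w (Sum.inr v), fun t ht h0 => hw ?_⟩
  rw [← hev] at h0
  have h1 : Sum.elim (fun d => w (Sum.inl d)) (fun v => w (Sum.inr v)) = w := by
    funext s
    cases s <;> rfl
  rw [h1] at h0
  rw [map_prod]
  exact Finset.prod_eq_zero ht h0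

/-- The substitution of the base point, shifted by a variable in the direction of `x`. -/
noncomputable def zet (w : Option (Fin 3 × Fin n) → ℝ) : Pol n →ₐ[ℝ] Polynomial ℝ :=
  aeval (fun o => match o with
    | none => Polynomial.C (w none) + Polynomial.X
    | some v => Polynomial.C (w (some v)))

theorem zet_coeff_zero (w : Option (Fin 3 × Fin n) → ℝ) (g : Pol n) :
    (zet w g).coeff 0 = eval w g := by
  rw [Polynomial.coeff_zero_eq_eval_zero]
  have h : ((Polynomial.aeval (0 : ℝ)).comp (zet w)) = (aeval w : Pol n →ₐ[ℝ] ℝ) := by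
    refine MvPolynomial.algHom_ext fun o => ?_
    rw [AlgHom.comp_apply, zet, aeval_X, aeval_X]
    cases o with
    | none => simp
    | some v => simp
  have h2 := congrArg (fun f : Pol n →ₐ[ℝ] ℝ => f g) h
  simp only [AlgHom.comp_apply] at h2
  rw [MvPolynomial.aeval_eq_eval, Polynomial.coe_aeval_eq_eval] at h2
  exact h2

theorem pderiv_lf (t : Lab n) (d : Fin 3) (i : Fin n) :
    pderiv (some (d, i)) (lf t) = if i = t d then -1 else 0 := by
  rw [lf, map_sub, pderiv_X_of_ne (by simp), zero_sub, map_sum]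
  have h : ∀ e : Fin 3, pderiv (some (d, i)) (X (some (e, t e)) : Pol n) =
      if e = d then (if i = t d then 1 else 0) else 0 := by
    intro e
    by_cases he : e = d
    · subst he
      rw [if_pos rfl]
      by_cases hi : i = t e
      · rw [if_pos hi, ← hi, pderiv_X_self]
      · rw [if_neg hi, pderiv_X_of_ne]
        intro h
        simp only [Option.some.injEq, Prod.mk.injEq] at h
        exact hi h.2.symm
    · rw [if_neg he, pderiv_X_of_ne]
      intro h
      simp only [Option.some.injEq, Prod.mk.injEq] at h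
      exact he h.1
  simp only [h]
  rw [Finset.sum_ite_eq' univ d, if_pos (Finset.mem_univ _)]
  split_ifs <;> simp

theorem zet_lf (t : Lab n) (w : Option (Fin 3 × Fin n) → ℝ)
    (hw : w none = ∑ d : Fin 3, w (some (d, t d))) : zet w (lf t) = Polynomial.X := by
  rw [lf, map_sub, map_sum, zet]
  simp only [aeval_X]
  rw [hw, map_sum]
  ring

theorem coeff_zet (t : Lab n) (w : Option (Fin 3 × Fin n) → ℝ)
    (hw : w none = ∑ d : Fin 3, w (some (d, t d))) (m : ℕ) (g : Pol n) (d : Fin 3) (i : Fin n) :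
    (zet w (pderiv (some (d, i)) (lf t ^ (m + 1) * g))).coeff m =
      if i = t d then -((m + 1 : ℝ) * eval w g) else 0 := by
  rw [pderiv_mul, pderiv_pow, map_add, map_mul, map_mul, map_mul, map_mul, map_pow, map_pow,
    zet_lf t w hw, pderiv_lf, Polynomial.coeff_add, Nat.add_sub_cancel, map_natCast]
  have h1 : (Polynomial.X ^ (m + 1) * zet w (pderiv (some (d, i)) g)).coeff m = 0 := by
    rw [Polynomial.coeff_X_pow_mul', if_neg (by omega)]
  rw [h1, add_zero]
  split_ifs with hi
  · have h2 : ((((m + 1 : ℕ) : Polynomial ℝ)) * Polynomial.X ^ m * zet w (-1)) * zet w g =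
        Polynomial.C (-(m + 1 : ℝ)) * (Polynomial.X ^ m * zet w g) := by
      rw [map_neg, map_one, map_neg]
      have h3 : ((m + 1 : ℕ) : Polynomial ℝ) = Polynomial.C (m + 1 : ℝ) := by
        rw [Nat.cast_add, Nat.cast_one]
        simp
      rw [h3]
      ring
    rw [h2, Polynomial.coeff_C_mul, Polynomial.coeff_X_pow_mul', if_pos le_rfl, Nat.sub_self,
      zet_coeff_zero]
    ring
  · rw [map_zero, mul_zero, zero_mul, Polynomial.coeff_zero]

/-! ### The bound -/

section bound

variable {ι : Type} [Fintype ι] [DecidableEq ι]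

open Classical in
/-- The labels whose hyperplanes are covered. -/
noncomputable def cov (F : ι → Pol n) : Finset (Lab n) :=
  univ.filter (fun t => ∃ i j, F i ≠ F j ∧ sb t (F i) = sb t (F j))

theorem cov_card (F : ι → Pol n) (D : ℕ) (hD : ∀ i, (F i).totalDegree ≤ D) :
    (cov F).card ≤ 6912 * D ^ 4 * n * Fintype.card ι := by
  classical
  rcases (cov F).eq_empty_or_nonempty with hemp | hne
  · rw [hemp]; simp
  have hex : ∀ t ∈ cov F, ∃ (i j : ι) (m : ℕ) (g : Pol n) (α : Fin 3 → ℝ)
      (β : Fin 3 × Fin n → ℝ) (M : Finset (Fin 3 × Fin n)),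
      F i - F j = lf t ^ (m + 1) * g ∧ m + 1 ≤ D ∧ M.card ≤ D ∧ (∀ v ∈ M, t v.1 ≠ v.2) ∧
      (∀ v, v ∉ M → β v = 0) ∧ eval (bpt α β) g ≠ 0 := by
    intro t ht
    simp only [cov, mem_filter, mem_univ, true_and] at ht
    obtain ⟨i, j, hij, hs⟩ := ht
    obtain ⟨m, g, hP, hg⟩ := exists_power t (sub_ne_zero.2 hij) (by rw [map_sub, hs, sub_self])
    have hg0 : g ≠ 0 := fun h => hg (by rw [h, map_zero])
    obtain ⟨h1, h2⟩ := degree_power (D := D) t hP hg0
      ((totalDegree_sub _ _).trans (max_le (hD i) (hD j)))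
    obtain ⟨α, β, M, h3, h4, h5, h6⟩ := exists_base t g hg h2
    exact ⟨i, j, m, g, α, β, M, hP, h1, h3, h4, h5, h6⟩
  have hDpos : 0 < D := by
    obtain ⟨t, ht⟩ := hne
    obtain ⟨_, _, m, _, _, _, _, _, h, _⟩ := hex t ht
    omega
  have hι : Nonempty ι := by
    obtain ⟨t, ht⟩ := hne
    obtain ⟨i, _⟩ := hex t ht
    exact ⟨i⟩
  choose! src tgt mm g α β M hP hm hM ht hβ hg using hex
  let z : Fin (2 * D) := ⟨0, by omega⟩
  let A : Lab n → Finset (Fin 3 × Fin n) := fun t => univ.image (fun d => (d, t d))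
  have hAcard : ∀ t, (A t).card = 3 := by
    intro t
    rw [Finset.card_image_of_injective _ (fun d d' h => (Prod.mk.inj h).1), Finset.card_univ,
      Fintype.card_fin]
  let good : Lab n → (Fin 3 × Fin n → Fin (2 * D)) → Prop := fun t χ =>
    (∀ v ∈ A t, χ v = z) ∧ ∀ v ∈ M t, χ v ≠ z
  have hcount : ∀ t ∈ cov F, Fintype.card (Fin 3 × Fin n → Fin (2 * D)) ≤ 16 * D ^ 3 *
      (univ.filter (fun χ => good t χ)).card := by
    intro t htc
    refine card_colour hDpos z (A t) (M t) (hAcard t) (hM t htc) ?_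
    rw [Finset.disjoint_left]
    intro v hv hv'
    obtain ⟨d, _, rfl⟩ := Finset.mem_image.1 hv
    exact ht t htc _ hv' rfl
  -- a good colouring
  obtain ⟨χ, hχ⟩ : ∃ χ : Fin 3 × Fin n → Fin (2 * D), (cov F).card ≤ 16 * D ^ 3 *
      ((cov F).filter (fun t => good t χ)).card := by
    by_contra hc
    push Not at hc
    have h1 : ∑ χ : Fin 3 × Fin n → Fin (2 * D), 16 * D ^ 3 *
        ((cov F).filter (fun t => good t χ)).card <
        ∑ _χ : Fin 3 × Fin n → Fin (2 * D), (cov F).card :=
      Finset.sum_lt_sum_of_nonempty ⟨fun _ => z, Finset.mem_univ _⟩ fun χ _ => hc χ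
    have h2 : ∑ χ : Fin 3 × Fin n → Fin (2 * D), ((cov F).filter (fun t => good t χ)).card =
        ∑ t ∈ cov F, (univ.filter (fun χ => good t χ)).card := by
      simp only [Finset.card_filter]
      rw [Finset.sum_comm]
    rw [← Finset.mul_sum, h2, Finset.mul_sum, Finset.sum_const, Finset.card_univ, smul_eq_mul] at h1
    have h3 : ∑ t ∈ cov F, Fintype.card (Fin 3 × Fin n → Fin (2 * D)) ≤
        ∑ t ∈ cov F, 16 * D ^ 3 * (univ.filter (fun χ => good t χ)).card :=
      Finset.sum_le_sum fun t htc => hcount t htc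
    rw [Finset.sum_const, smul_eq_mul, mul_comm] at h3
    exact absurd h1 (not_lt.2 h3)
  set E := (cov F).filter (fun t => good t χ) with hE
  obtain ⟨a, γ, hag⟩ := exists_common z χ E g (by
    intro t htE
    obtain ⟨htc, hgd⟩ := Finset.mem_filter.1 htE
    refine ⟨α t, fun v => α t v.1 + β t v, ?_⟩
    have h1 : zpt z χ (α t) (fun v => α t v.1 + β t v) = bpt (α t) (β t) := by
      funext o
      cases o with
      | none => rfl
      | some v =>
        simp only [zpt, bpt]
        split_ifs with hv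
        · rw [hβ t htc v (fun hvM => hgd.2 v hvM hv), add_zero]
        · rfl
    rw [h1]
    exact hg t htc)
  set w := zpt z χ a γ with hw
  have hwt : ∀ t ∈ E, w none = ∑ d : Fin 3, w (some (d, t d)) := by
    intro t htE
    obtain ⟨htc, hgd⟩ := Finset.mem_filter.1 htE
    simp only [hw, zpt]
    refine Finset.sum_congr rfl fun d _ => ?_
    rw [if_pos (hgd.1 (d, t d) (Finset.mem_image.2 ⟨d, Finset.mem_univ _, rfl⟩))]
  have hEm : ∀ m : ℕ, (E.filter (fun t => mm t = m)).card ≤ 432 * n * Fintype.card ι := by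
    intro m
    have hc : Cover (fun (v : ι) (d : Fin 3) (i : Fin n) =>
        (zet w (pderiv (some (d, i)) (F v))).coeff m) (E.filter (fun t => mm t = m)) src tgt
        (fun t => -((m + 1 : ℝ) * eval w (g t))) := by
      refine ⟨?_, ?_⟩
      · intro t htm
        obtain ⟨htE, _⟩ := Finset.mem_filter.1 htm
        refine neg_ne_zero.2 (mul_ne_zero ?_ (hag t htE))
        positivity
      · intro t htm d i
        obtain ⟨htE, hmt⟩ := Finset.mem_filter.1 htm
        obtain ⟨htc, _⟩ := Finset.mem_filter.1 htE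
        rw [← Polynomial.coeff_sub, ← map_sub, ← map_sub, hP t htc, hmt]
        exact coeff_zet t w (hwt t htE) m (g t) d i
    exact cover_gen hc
  have hEcard : E.card ≤ D * (432 * n * Fintype.card ι) := by
    have h1 : E ⊆ (Finset.range D).biUnion (fun m => E.filter (fun t => mm t = m)) := by
      intro t htE
      obtain ⟨htc, _⟩ := Finset.mem_filter.1 htE
      have := hm t htc
      exact Finset.mem_biUnion.2 ⟨mm t, Finset.mem_range.2 (by omega),
        Finset.mem_filter.2 ⟨htE, rfl⟩⟩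
    refine (Finset.card_le_card h1).trans (Finset.card_biUnion_le.trans ?_)
    refine (Finset.sum_le_sum fun m _ => hEm m).trans ?_
    rw [Finset.sum_const, Finset.card_range, smul_eq_mul]
  calc (cov F).card ≤ 16 * D ^ 3 * E.card := hχ
    _ ≤ 16 * D ^ 3 * (D * (432 * n * Fintype.card ι)) := Nat.mul_le_mul le_rfl hEcard
    _ = 6912 * D ^ 4 * n * Fintype.card ι := by ring

end bound

end Pool.Agent.H29.TS
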