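import Pool.Agent.H29.TS.Touch

/-!
# Few positions are touched in many coordinates
-/

set_option autoImplicit false

namespace Pool.Agent.H29.TS

open MvPolynomial Finset

variable {R : Type} [CommRing R] [IsDomain R]

/-- At most `D` of the values `lam p` are roots. -/
theorem card_roots_le {n D : ℕ} {P : Type} [Fintype P] [DecidableEq P] (lam : P → R)
    (hlam : Function.Injective lam) (G : MvPolynomial (Fin (n + 1)) R) (hG : G ≠ 0)
    (hD : degreeOf 0 G ≤ D) (B : Finset P)
    (hB : ∀ p ∈ B, (finSuccEquiv R n G).eval (C (lam p)) = 0) : B.card ≤ D := by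
  classical
  have h0 : finSuccEquiv R n G ≠ 0 := fun h =>
    hG ((finSuccEquiv R n).injective (h.trans (map_zero _).symm))
  have h1 : B.card ≤ (finSuccEquiv R n G).roots.toFinset.card := by
    refine Finset.card_le_card_of_injOn (fun p => C (lam p)) ?_ ?_
    · intro p hp
      exact Finset.mem_coe.2 (Multiset.mem_toFinset.2 ((Polynomial.mem_roots h0).2 (hB p hp)))
    · intro p _ p' _ h
      exact hlam (C_injective _ _ h)
  refine h1.trans ((Multiset.toFinset_card_le _).trans ((Polynomial.card_roots' _).trans ?_))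
  rw [natDegree_finSuccEquiv]
  exact hD

open Classical in
/-- The positions handled in all coordinates of `I`. -/
noncomputable def hdl {P : Type} [Fintype P] (n : ℕ) (lam : P → R) (cv : Fin n → Finset P)
    (S : Finset (MvPolynomial (Fin n) R)) (I : Finset (Fin n)) : Finset (Fin n → P) :=
  univ.filter (fun p => ∀ i ∈ I, p i ∈ cv i ∨ ∃ G ∈ S, touched n (fun k => lam (p k)) G i)

theorem mem_hdl {P : Type} [Fintype P] (n : ℕ) (lam : P → R) (cv : Fin n → Finset P)
    (S : Finset (MvPolynomial (Fin n) R)) (I : Finset (Fin n)) (p : Fin n → P) :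
    p ∈ hdl n lam cv S I ↔
      ∀ i ∈ I, p i ∈ cv i ∨ ∃ G ∈ S, touched n (fun k => lam (p k)) G i := by
  unfold hdl
  simp only [Finset.mem_filter, Finset.mem_univ, true_and]

theorem card_hdl {P : Type} [Fintype P] (lam : P → R) (hlam : Function.Injective lam) (D m K : ℕ) :
    ∀ (n : ℕ) (cv : Fin n → Finset P) (S : Finset (MvPolynomial (Fin n) R)) (I : Finset (Fin n)),
      S.card ≤ m → (∀ G ∈ S, G ≠ 0 ∧ ∀ i, degreeOf i G ≤ D) →
      (∀ i ∈ I, (cv i).card + D * m ≤ K) →
      (hdl n lam cv S I).card ≤ ∏ i : Fin n, (if i ∈ I then K else Fintype.card P) := by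
  classical
  intro n
  induction n with
  | zero =>
    intro cv S I _ _ _
    rw [Fin.prod_univ_zero]
    refine (Finset.card_le_univ _).trans ?_
    simp
  | succ n ih =>
    intro cv S I hm hS hK
    let I' : Finset (Fin n) := univ.filter (fun j => j.succ ∈ I)
    let cv' : Fin n → Finset P := fun j => cv j.succ
    let S' : P → Finset (MvPolynomial (Fin n) R) := fun p0 => S.image (trail (lam p0))
    have hih : ∀ p0 : P, (hdl n lam cv' (S' p0) I').card ≤
        ∏ j : Fin n, (if j ∈ I' then K else Fintype.card P) := by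
      intro p0
      refine ih cv' (S' p0) I' (Finset.card_image_le.trans hm) ?_ ?_
      · intro G' hG'
        obtain ⟨G, hG, rfl⟩ := Finset.mem_image.1 hG'
        exact ⟨trail_ne_zero _ (hS G hG).1, degreeOf_trail _ _ (hS G hG).2⟩
      · intro j hj
        exact hK j.succ (Finset.mem_filter.1 hj).2
    let Z : Finset P := S.biUnion (fun G => univ.filter (fun p0 =>
      (finSuccEquiv R n G).eval (C (lam p0)) = 0))
    let B : Finset P := if (0 : Fin (n + 1)) ∈ I then cv 0 ∪ Z else univ
    have hB : B.card ≤ if (0 : Fin (n + 1)) ∈ I then K else Fintype.card P := by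
      by_cases h0 : (0 : Fin (n + 1)) ∈ I
      · simp only [B, if_pos h0]
        refine (Finset.card_union_le _ _).trans ((Nat.add_le_add_left ?_ _).trans (hK 0 h0))
        refine Finset.card_biUnion_le.trans ?_
        refine (Finset.sum_le_sum (g := fun _ => D) fun G hG => ?_).trans ?_
        · exact card_roots_le lam hlam G (hS G hG).1 ((hS G hG).2 0) _ fun p hp =>
            (Finset.mem_filter.1 hp).2
        · rw [Finset.sum_const, smul_eq_mul, mul_comm]
          exact Nat.mul_le_mul le_rfl hm
      · simp only [B, if_neg h0]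
        rw [Finset.card_univ]
    have hmaps : ∀ p ∈ hdl (n + 1) lam cv S I, p 0 ∈ B := by
      intro p hp
      have hp' := (Finset.mem_filter.1 hp).2
      by_cases h0 : (0 : Fin (n + 1)) ∈ I
      · simp only [B, if_pos h0]
        rcases hp' 0 h0 with h | ⟨G, hG, ht⟩
        · exact Finset.mem_union_left _ h
        · refine Finset.mem_union_right _ (Finset.mem_biUnion.2 ⟨G, hG, ?_⟩)
          exact Finset.mem_filter.2 ⟨Finset.mem_univ _, (touched_zero _ _).1 ht⟩
      · simp only [B, if_neg h0]
        exact Finset.mem_univ _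
    rw [Finset.card_eq_sum_card_fiberwise hmaps, Fin.prod_univ_succ]
    have hfib : ∀ p0 ∈ B, ((hdl (n + 1) lam cv S I).filter (fun p => p 0 = p0)).card ≤
        ∏ j : Fin n, (if j ∈ I' then K else Fintype.card P) := by
      intro p0 _
      refine le_trans ?_ (hih p0)
      refine Finset.card_le_card_of_injOn (fun p j => p j.succ) ?_ ?_
      · intro p hp
        obtain ⟨hp1, hp2⟩ := Finset.mem_filter.1 hp
        have hp1' := (Finset.mem_filter.1 hp1).2
        refine Finset.mem_coe.2 (Finset.mem_filter.2 ⟨Finset.mem_univ _, fun j hj => ?_⟩)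
        rcases hp1' j.succ (Finset.mem_filter.1 hj).2 with h | ⟨G, hG, ht⟩
        · exact Or.inl h
        · right
          rw [touched_succ, hp2] at ht
          exact ⟨_, Finset.mem_image.2 ⟨G, hG, rfl⟩, ht⟩
      · intro p hp p' hp' h
        obtain ⟨_, hp2⟩ := Finset.mem_filter.1 hp
        obtain ⟨_, hp2'⟩ := Finset.mem_filter.1 hp'
        funext i
        refine Fin.cases ?_ (fun j => ?_) i
        · rw [hp2, hp2']
        · exact congrFun h j
    refine (Finset.sum_le_sum hfib).trans ?_
    rw [Finset.sum_const, smul_eq_mul]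
    refine Nat.mul_le_mul hB (le_of_eq ?_)
    refine Finset.prod_congr rfl fun j _ => ?_
    simp only [I', Finset.mem_filter, Finset.mem_univ, true_and]

/-- Positions handled in at least `h` coordinates. -/
theorem card_many {P : Type} [Fintype P] (lam : P → R) (hlam : Function.Injective lam)
    (D m K n h : ℕ) (cv : Fin n → Finset P) (S : Finset (MvPolynomial (Fin n) R))
    (N : Finset (Fin n))
    (hm : S.card ≤ m) (hS : ∀ G ∈ S, G ≠ 0 ∧ ∀ i, degreeOf i G ≤ D)
    (hK : ∀ i ∈ N, (cv i).card + D * m ≤ K)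
    (W : Finset (Fin n → P))
    (hW : ∀ p ∈ W, ∃ I : Finset (Fin n), I ⊆ N ∧ I.card = h ∧ p ∈ hdl n lam cv S I) :
    W.card ≤ 2 ^ n * (K ^ h * Fintype.card P ^ (n - h)) := by
  classical
  have h1 : W ⊆ (univ.filter (fun I : Finset (Fin n) => I ⊆ N ∧ I.card = h)).biUnion
      (fun I => hdl n lam cv S I) := by
    intro p hp
    obtain ⟨I, hI1, hI2, hI3⟩ := hW p hp
    exact Finset.mem_biUnion.2 ⟨I, Finset.mem_filter.2 ⟨Finset.mem_univ _, hI1, hI2⟩, hI3⟩
  refine (Finset.card_le_card h1).trans (Finset.card_biUnion_le.trans ?_)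
  have h2 : ∀ I ∈ univ.filter (fun I : Finset (Fin n) => I ⊆ N ∧ I.card = h),
      (hdl n lam cv S I).card ≤ K ^ h * Fintype.card P ^ (n - h) := by
    intro I hI
    obtain ⟨_, hI1, hI2⟩ := Finset.mem_filter.1 hI
    refine (card_hdl lam hlam D m K n cv S I hm hS fun i hi => hK i (hI1 hi)).trans (le_of_eq ?_)
    rw [← Finset.prod_mul_prod_compl I]
    have e1 : ∏ i ∈ I, (if i ∈ I then K else Fintype.card P) = K ^ h := by
      rw [Finset.prod_congr rfl (fun i hi => if_pos hi), Finset.prod_const, hI2]
    have e2 : ∏ i ∈ Iᶜ, (if i ∈ I then K else Fintype.card P) = Fintype.card P ^ (n - h) := by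
      rw [Finset.prod_congr rfl (fun i hi => if_neg (Finset.mem_compl.1 hi)), Finset.prod_const,
        Finset.card_compl, hI2, Fintype.card_fin]
    rw [e1, e2]
  refine (Finset.sum_le_sum h2).trans ?_
  rw [Finset.sum_const, smul_eq_mul]
  refine Nat.mul_le_mul ?_ le_rfl
  refine (Finset.card_le_univ _).trans ?_
  rw [Fintype.card_finset, Fintype.card_fin]

end Pool.Agent.H29.TS
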