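import Pool.Agent.H29.TS.Ray

/-!
# Signs far out on a ray
-/

set_option autoImplicit false

namespace Pool.Agent.H29.TS

open Finset Pool.Agent.H80.TS MvPolynomial Filter Topology

section far

variable {σ : Type}

/-- The homogeneous part of highest degree. -/
noncomputable def top (G : MvPolynomial σ ℝ) : MvPolynomial σ ℝ :=
  homogeneousComponent G.totalDegree G

theorem totalDegree_top_le (G : MvPolynomial σ ℝ) : (top G).totalDegree ≤ G.totalDegree :=
  (homogeneousComponent_isHomogeneous _ _).totalDegree_le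

theorem top_ne_zero {G : MvPolynomial σ ℝ} (hG : G ≠ 0) : top G ≠ 0 := by
  classical
  intro h
  obtain ⟨m, hm⟩ : ∃ m, m ∈ G.support := by
    by_contra hc
    push Not at hc
    exact hG (support_eq_empty.1 (Finset.eq_empty_of_forall_notMem hc))
  obtain ⟨m, hm, hmax⟩ := Finset.exists_max_image G.support (fun m => m.sum fun _ e => e) ⟨m, hm⟩
  have h1 : (m.sum fun _ e => e) = G.totalDegree := by
    refine le_antisymm (le_totalDegree hm) ?_
    exact Finset.sup_le hmax
  have h2 : coeff m (top G) = coeff m G := by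
    unfold top
    rw [coeff_homogeneousComponent, if_pos]
    exact h1
  rw [h, coeff_zero] at h2
  exact (mem_support_iff.1 hm) h2.symm

theorem eval_smul_homog {k : ℕ} {G : MvPolynomial σ ℝ} (hG : G.IsHomogeneous k) (c : ℝ)
    (z : σ → ℝ) : eval (fun o => c * z o) G = c ^ k * eval z G := by
  rw [eval_eq, eval_eq, Finset.mul_sum]
  refine Finset.sum_congr rfl fun m hm => ?_
  have h1 : ∑ i ∈ m.support, m i = k := by
    have := hG (mem_support_iff.1 hm)
    rw [← this]
    simp [Finsupp.weight_apply, Finsupp.sum]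
  have h2 : ∏ i ∈ m.support, (c * z i) ^ m i = c ^ k * ∏ i ∈ m.support, z i ^ m i := by
    rw [← h1, ← Finset.prod_pow_eq_pow_sum, ← Finset.prod_mul_distrib]
    exact Finset.prod_congr rfl fun i _ => mul_pow _ _ _
  rw [h2]
  ring

theorem eval_smul_top (G : MvPolynomial σ ℝ) (c : ℝ) (z : σ → ℝ) :
    eval (fun o => c * z o) (top G) = c ^ G.totalDegree * eval z (top G) :=
  eval_smul_homog (homogeneousComponent_isHomogeneous G.totalDegree G) c z

/-- The values of a polynomial along a ray, seen from infinity. -/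
noncomputable def hom1 (U V : σ → ℝ) (G : MvPolynomial σ ℝ) (s : ℝ) : ℝ :=
  ∑ k ∈ Finset.range (G.totalDegree + 1),
    s ^ (G.totalDegree - k) * eval (fun o => V o + s * U o) (homogeneousComponent k G)

theorem hom1_zero (U V : σ → ℝ) (G : MvPolynomial σ ℝ) : hom1 U V G 0 = eval V (top G) := by
  unfold hom1
  rw [Finset.sum_range_succ]
  have h1 : ∑ k ∈ Finset.range G.totalDegree, (0 : ℝ) ^ (G.totalDegree - k) *
      eval (fun o => V o + 0 * U o) (homogeneousComponent k G) = 0 := by
    refine Finset.sum_eq_zero fun k hk => ?_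
    have := Finset.mem_range.1 hk
    rw [zero_pow (by omega), zero_mul]
  rw [h1, zero_add, Nat.sub_self, pow_zero, one_mul]
  simp [top]

theorem continuous_hom1 (U V : σ → ℝ) (G : MvPolynomial σ ℝ) : Continuous (hom1 U V G) := by
  unfold hom1
  refine continuous_finsetSum _ fun k _ => ?_
  refine (continuous_pow _).mul ?_
  exact (MvPolynomial.continuous_eval _).comp (continuous_pi fun o => by fun_prop)

theorem hom1_inv (U V : σ → ℝ) (G : MvPolynomial σ ℝ) {M : ℝ} (hM : 0 < M) :
    M ^ G.totalDegree * hom1 U V G (1 / M) = eval (fun o => U o + V o * M) G := by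
  unfold hom1
  rw [Finset.mul_sum]
  conv_rhs => rw [← sum_homogeneousComponent G]
  rw [map_sum]
  refine Finset.sum_congr rfl fun k hk => ?_
  have hk' : k ≤ G.totalDegree := Nat.lt_succ_iff.1 (Finset.mem_range.1 hk)
  have h1 : (fun o => U o + V o * M) = fun o => M * (V o + 1 / M * U o) := by
    funext o
    field_simp
    ring
  rw [h1, eval_smul_homog (homogeneousComponent_isHomogeneous k G)]
  have h2 : M ^ G.totalDegree * (1 / M) ^ (G.totalDegree - k) = M ^ k := by
    have h3 : M ^ G.totalDegree = M ^ k * M ^ (G.totalDegree - k) := by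
      rw [← pow_add]
      congr 1
      omega
    rw [h3, mul_assoc, ← mul_pow, mul_one_div_cancel hM.ne', one_pow, mul_one]
  rw [← mul_assoc, h2]

/-- Far out on a ray the sign is that of the highest homogeneous part in the direction of the
ray. -/
theorem sign_far (U V : σ → ℝ) (G : MvPolynomial σ ℝ) (h : eval V (top G) ≠ 0) :
    ∃ k : ℕ, ∀ M : ℕ, k ≤ M → SignType.sign (eval (fun o => U o + V o * (M : ℝ)) G) =
      SignType.sign (eval V (top G)) := by
  have h1 : Tendsto (fun M : ℕ => hom1 U V G (1 / (M : ℝ))) atTop (𝓝 (eval V (top G))) := by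
    have h2 : Tendsto (fun M : ℕ => 1 / (M : ℝ)) atTop (𝓝 0) :=
      tendsto_one_div_atTop_nhds_zero_nat
    have h3 := ((continuous_hom1 U V G).tendsto 0).comp h2
    rw [hom1_zero] at h3
    exact h3
  rcases lt_or_gt_of_ne h with hneg | hp
  · obtain ⟨k, hk⟩ := eventually_atTop.1 (h1.eventually (gt_mem_nhds hneg))
    refine ⟨k + 1, fun M hM => ?_⟩
    have hM0 : (0 : ℝ) < M := by
      exact_mod_cast (by omega : 0 < M)
    rw [← hom1_inv U V G hM0, sign_neg hneg]
    exact sign_neg (mul_neg_of_pos_of_neg (pow_pos hM0 _) (hk M (by omega)))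
  · obtain ⟨k, hk⟩ := eventually_atTop.1 (h1.eventually (lt_mem_nhds hp))
    refine ⟨k + 1, fun M hM => ?_⟩
    have hM0 : (0 : ℝ) < M := by
      exact_mod_cast (by omega : 0 < M)
    rw [← hom1_inv U V G hM0, sign_pos hp]
    exact sign_pos (mul_pos (pow_pos hM0 _) (hk M (by omega)))

end far

end Pool.Agent.H29.TS
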