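import Pool.Agent.H80.TS.Model

/-!
# Decision trees with hashing, comparisons and free information
-/

set_option autoImplicit false

namespace Pool.Agent.H29.TS

open MvPolynomial

/-- The input numbers as real numbers: `none` stands for `x`, `some (d, i)` for the element `a d i`
of the set number `d`. -/
def inp {n : ℕ} (a : Fin 3 → Fin n → ℤ) (x : ℤ) : Option (Fin 3 × Fin n) → ℝ
  | none => (x : ℝ)
  | some v => (a v.1 v.2 : ℝ)

/-- A decision tree with hashing, comparisons and free information, for three sets of `n` integers
(elements `a d i`, `d < 3`, `i < n`) and an integer `x`. The input numbers are the variables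
`some (d, i)` (the element `a d i`) and `none` (the number `x`) of polynomials with real
coefficients.

* `leaf ans`: the answer `ans`.
* `ask k f next`: the algorithm learns `f a x`, one of `k` possible values, and continues with
  `next (f a x)`. (Which `f` are allowed is specified in `Bounded`.)
* `value P next`: the value of the polynomial `P` at the input is computed and stored; the
  algorithm learns which of the values stored earlier are equal to the new one (hash table), and
  continues with `next e`, where `e i` says that value number `i` (`i = 0, 1, …`) was stored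
  earlier and is equal to the new one.
* `test G next`: the algorithm learns the sign `-1`, `0` or `1` of `G` at the input (comparison),
  and continues with `next s`, where `s` is this sign. -/
inductive Tree (n : ℕ) : Type
  | leaf (ans : Prop) : Tree n
  | ask (k : ℕ) (f : (Fin 3 → Fin n → ℤ) → ℤ → Fin k) (next : Fin k → Tree n) : Tree n
  | value (P : MvPolynomial (Option (Fin 3 × Fin n)) ℝ) (next : (ℕ → Prop) → Tree n) : Tree n
  | test (G : MvPolynomial (Option (Fin 3 × Fin n)) ℝ) (next : SignType → Tree n) : Tree n

namespace Tree

variable {n : ℕ}

/-- The answer of the tree at the input `a, x`, when the values `vs` have been stored before. -/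
noncomputable def answer (a : Fin 3 → Fin n → ℤ) (x : ℤ) : Tree n → List ℝ → Prop
  | leaf ans, _ => ans
  | ask _ f next, vs => answer a x (next (f a x)) vs
  | value P next, vs =>
      answer a x (next (fun i => vs[i]? = some (eval (inp a x) P))) (vs ++ [eval (inp a x) P])
  | test G next, vs => answer a x (next (SignType.sign (eval (inp a x) G))) vs

/-- The tree accepts the input `a, x`. -/
def Accepts (τ : Tree n) (a : Fin 3 → Fin n → ℤ) (x : ℤ) : Prop := answer a x τ []

/-- All polynomials in the tree have degree at most `D`, there are at most `T` values and at most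
`R` comparisons on every branch, and all functions `f` in the nodes `ask k f next` satisfy
`Free k f`. -/
def Bounded (Free : ∀ k : ℕ, ((Fin 3 → Fin n → ℤ) → ℤ → Fin k) → Prop) (D : ℕ) :
    Tree n → ℕ → ℕ → Prop
  | leaf _, _, _ => True
  | ask k f next, T, R => Free k f ∧ ∀ j, Bounded Free D (next j) T R
  | value P next, T, R => P.totalDegree ≤ D ∧ 0 < T ∧ ∀ e, Bounded Free D (next e) (T - 1) R
  | test G next, T, R => G.totalDegree ≤ D ∧ 0 < R ∧ ∀ s, Bounded Free D (next s) T (R - 1)

end Tree

/-- `f a x` depends only on the three sets, and on `x` only through the comparisons (`<`, `=`,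
`>`) of `x` with the elements of the three sets. -/
def OfSets (n : ℕ) : ∀ k : ℕ, ((Fin 3 → Fin n → ℤ) → ℤ → Fin k) → Prop := fun _ f =>
  ∀ (a : Fin 3 → Fin n → ℤ) (x x' : ℤ),
    (∀ d i, (a d i < x ↔ a d i < x') ∧ (a d i = x ↔ a d i = x')) → f a x = f a x'

/-- `f a x` depends only on the second and the third set and on `x`. -/
def OfTwoSets (n : ℕ) : ∀ k : ℕ, ((Fin 3 → Fin n → ℤ) → ℤ → Fin k) → Prop := fun _ f =>
  ∀ (a a' : Fin 3 → Fin n → ℤ) (x : ℤ), a 1 = a' 1 → a 2 = a' 2 → f a x = f a' x

end Pool.Agent.H29.TS
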