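import Pool.Agent.H29.TS.Core
import Pool.Agent.H29.TS.TreeModel

/-!
# Choosing integer points off finitely many hypersurfaces
-/

set_option autoImplicit false

namespace Pool.Agent.H29.TS

open Finset MvPolynomial

section ray

variable {σ : Type}

/-- A polynomial restricted to the ray `u + y * w`. -/
noncomputable def ray (u w : σ → ℝ) (Q : MvPolynomial σ ℝ) : Polynomial ℝ :=
  aeval (fun o => Polynomial.C (u o) + Polynomial.C (w o) * Polynomial.X) Q

theorem eval_ray (u w : σ → ℝ) (Q : MvPolynomial σ ℝ) (y : ℝ) :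
    (ray u w Q).eval y = eval (fun o => u o + w o * y) Q := by
  have h : ((Polynomial.aeval y).comp
      (aeval (fun o => Polynomial.C (u o) + Polynomial.C (w o) * Polynomial.X))) =
      (aeval (fun o => u o + w o * y) : MvPolynomial σ ℝ →ₐ[ℝ] ℝ) := by
    refine MvPolynomial.algHom_ext fun o => ?_
    rw [AlgHom.comp_apply, aeval_X, aeval_X]
    simp
  have h2 := congrArg (fun f : MvPolynomial σ ℝ →ₐ[ℝ] ℝ => f Q) h
  simp only [AlgHom.comp_apply] at h2
  rw [MvPolynomial.aeval_eq_eval, Polynomial.coe_aeval_eq_eval] at h2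
  exact h2

/-- Polynomials which do not vanish identically on a ray do not vanish at its far integer
points. -/
theorem ray_avoid (u w : σ → ℝ) (Φ : Finset (MvPolynomial σ ℝ))
    (h : ∀ Q ∈ Φ, ∃ y : ℝ, eval (fun o => u o + w o * y) Q ≠ 0) :
    ∃ k : ℕ, ∀ y : ℕ, k ≤ y → ∀ Q ∈ Φ, eval (fun o => u o + w o * (y : ℝ)) Q ≠ 0 := by
  classical
  have h0 : ∀ Q ∈ Φ, ray u w Q ≠ 0 := by
    intro Q hQ h1
    obtain ⟨y, hy⟩ := h Q hQ
    apply hy
    rw [← eval_ray, h1, Polynomial.eval_zero]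
  have hfin : (⋃ Q ∈ Φ, {s : ℕ | (ray u w Q).eval (s : ℝ) = 0}).Finite := by
    refine Set.Finite.biUnion (Finset.finite_toSet Φ) fun Q hQ => ?_
    have h1 : ((ray u w Q).roots.toFinset : Set ℝ).Finite := Finset.finite_toSet _
    have h2 := h1.preimage (f := fun s : ℕ => (s : ℝ)) (Nat.cast_injective.injOn)
    refine h2.subset fun s hs => ?_
    simp only [Set.mem_preimage, Finset.mem_coe, Multiset.mem_toFinset]
    exact (Polynomial.mem_roots (h0 Q hQ)).2 hs
  obtain ⟨k, hk⟩ := hfin.bddAbove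
  refine ⟨k + 1, fun y hy Q hQ he => ?_⟩
  have h1 : y ∈ (⋃ Q ∈ Φ, {s : ℕ | (ray u w Q).eval (s : ℝ) = 0}) := by
    simp only [Set.mem_iUnion]
    refine ⟨Q, hQ, ?_⟩
    show (ray u w Q).eval (y : ℝ) = 0
    rw [eval_ray, he]
  have := hk h1
  omega

/-- A common integer point at which finitely many nonzero polynomials do not vanish. -/
theorem exists_int_point (Φ : Finset (MvPolynomial σ ℝ)) (h : ∀ Q ∈ Φ, Q ≠ 0) :
    ∃ u : σ → ℤ, ∀ Q ∈ Φ, eval (fun o => (u o : ℝ)) Q ≠ 0 := by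
  classical
  have hP : (∏ Q ∈ Φ, Q) ≠ 0 := Finset.prod_ne_zero_iff.2 h
  by_contra hc
  push Not at hc
  apply hP
  refine MvPolynomial.funext_set (fun _ => Set.range (fun k : ℤ => (k : ℝ))) (fun _ => ?_) ?_
  · exact Set.infinite_range_of_injective Int.cast_injective
  · intro x hx
    have hx' : ∀ i, ∃ k : ℤ, (k : ℝ) = x i := fun i => hx i (Set.mem_univ i)
    choose u hu using hx'
    obtain ⟨Q, hQ, hQ0⟩ := hc u
    have h1 : (fun o => (u o : ℝ)) = x := funext hu
    rw [h1] at hQ0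
    rw [map_prod, map_zero]
    exact Finset.prod_eq_zero hQ hQ0

end ray

end Pool.Agent.H29.TS
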