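import Pool.Agent.H29.TS.TreeRun
import Pool.Agent.H29.TS.Far

/-!
# The bound when all information on the three sets is free
-/

set_option autoImplicit false

namespace Pool.Agent.H29.TS

open Finset Pool.Agent.H80.TS MvPolynomial Filter Topology

variable {n : ℕ}

/-! ### A polynomial vanishes on few of the hyperplanes -/

theorem rename_eval_option (t : Lab n) (P : Pol n) :
    rename some ((optionEquivLeft ℝ (Fin 3 × Fin n) P).eval (∑ d : Fin 3, X (d, t d))) =
      sb t P := by
  have h : ((rename some : MvPolynomial (Fin 3 × Fin n) ℝ →ₐ[ℝ] Pol n).comp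
      (((Polynomial.aeval (∑ d : Fin 3, X (d, t d) : MvPolynomial (Fin 3 × Fin n) ℝ)).restrictScalars
        ℝ).comp (optionEquivLeft ℝ (Fin 3 × Fin n)).toAlgHom)) = sb t := by
    refine MvPolynomial.algHom_ext fun o => ?_
    rw [AlgHom.comp_apply, AlgHom.comp_apply]
    cases o with
    | none =>
      rw [sb_none]
      simp [optionEquivLeft_apply]
    | some v =>
      rw [sb_some]
      simp [optionEquivLeft_apply]
  have h2 := congrArg (fun f : Pol n →ₐ[ℝ] Pol n => f P) h
  simpa [Polynomial.coe_aeval_eq_eval] using h2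

theorem sum_lab_inj {t t' : Lab n} (h : (∑ d : Fin 3, X (d, t d) :
    MvPolynomial (Fin 3 × Fin n) ℝ) = ∑ d : Fin 3, X (d, t' d)) : t = t' := by
  funext d
  have h1 := congrArg (eval (fun v : Fin 3 × Fin n => if v = (d, t d) then (1 : ℝ) else 0)) h
  rw [map_sum, map_sum] at h1
  simp only [eval_X] at h1
  rw [Finset.sum_eq_single d, Finset.sum_eq_single d] at h1
  · rw [if_pos rfl] at h1
    by_contra hne
    rw [if_neg] at h1
    · exact one_ne_zero h1
    · intro h2
      exact hne (Prod.mk.inj h2).2.symm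
  · intro e _ he
    rw [if_neg]
    intro h2
    exact he (Prod.mk.inj h2).1
  · intro h2; exact absurd (Finset.mem_univ _) h2
  · intro e _ he
    rw [if_neg]
    intro h2
    exact he (Prod.mk.inj h2).1
  · intro h2; exact absurd (Finset.mem_univ _) h2

open Classical in
theorem card_zero_le (P : Pol n) (hP : P ≠ 0) :
    (univ.filter (fun t : Lab n => sb t P = 0)).card ≤ P.totalDegree := by
  have h0 : optionEquivLeft ℝ (Fin 3 × Fin n) P ≠ 0 := fun h =>
    hP ((optionEquivLeft ℝ (Fin 3 × Fin n)).injective (h.trans (map_zero _).symm))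
  have h1 : (univ.filter (fun t : Lab n => sb t P = 0)).card ≤
      (optionEquivLeft ℝ (Fin 3 × Fin n) P).roots.toFinset.card := by
    refine Finset.card_le_card_of_injOn (fun t => ∑ d : Fin 3, X (d, t d)) ?_ ?_
    · intro t ht
      have ht' : sb t P = 0 := (Finset.mem_filter.1 ht).2
      rw [← rename_eval_option] at ht'
      have h2 := rename_injective _ (Option.some_injective _) (ht'.trans (map_zero _).symm)
      exact Finset.mem_coe.2 (Multiset.mem_toFinset.2 ((Polynomial.mem_roots h0).2 h2))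
    · intro t _ t' _ h
      exact sum_lab_inj h
  refine h1.trans ((Multiset.toFinset_card_le _).trans ((Polynomial.card_roots' _).trans ?_))
  rw [natDegree_optionEquivLeft]
  exact degreeOf_le_totalDegree _ _

/-! ### Inputs -/

/-- Substitution of `x + a 0 (t 0) + a 1 (t 1) + a 2 (t 2)` for `x`. -/
noncomputable def nb (t : Lab n) : Pol n →ₐ[ℝ] Pol n :=
  aeval (fun o => match o with
    | none => X none + ∑ d : Fin 3, X (some (d, t d))
    | some v => X (some v))

/-- The point with `x` increased by `a 0 (t 0) + a 1 (t 1) + a 2 (t 2)`. -/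
def ptn (t : Lab n) (z : Option (Fin 3 × Fin n) → ℝ) : Option (Fin 3 × Fin n) → ℝ :=
  fun o => match o with
    | none => z none + ∑ d : Fin 3, z (some (d, t d))
    | some v => z (some v)

theorem eval_nb (t : Lab n) (z : Option (Fin 3 × Fin n) → ℝ) (P : Pol n) :
    eval z (nb t P) = eval (ptn t z) P := by
  have h : ((aeval z : Pol n →ₐ[ℝ] ℝ).comp (nb t)) = aeval (ptn t z) := by
    refine MvPolynomial.algHom_ext fun o => ?_
    rw [AlgHom.comp_apply, nb, aeval_X, aeval_X]
    cases o with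
    | none => simp [ptn]
    | some v => simp [ptn]
  have h2 := congrArg (fun f : Pol n →ₐ[ℝ] ℝ => f P) h
  simp only [AlgHom.comp_apply] at h2
  rw [MvPolynomial.aeval_eq_eval, MvPolynomial.aeval_eq_eval] at h2
  exact h2

theorem nb_ne_zero (t : Lab n) {P : Pol n} (hP : P ≠ 0) : nb t P ≠ 0 := by
  intro h
  apply hP
  refine MvPolynomial.funext fun z => ?_
  have h1 : ptn t (fun o => match o with
      | none => z none - ∑ d : Fin 3, z (some (d, t d))
      | some v => z (some v)) = z := by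
    funext o
    cases o with
    | none => simp [ptn]
    | some v => rfl
  rw [← h1, ← eval_nb, h, map_zero, map_zero]

/-- The sign of the highest homogeneous part on the hyperplane of `t`, in the direction `v`. -/
noncomputable def sgt (v : Option (Fin 3 × Fin n) → ℤ) (t : Lab n) (G : Pol n) : SignType :=
  SignType.sign (eval (fun o => (v o : ℝ)) (sb t (top G)))

theorem exists_sets (S : Set (Pol n)) (hS : S.Finite) (Q : Set (Pol n)) (hQ : Q.Finite) :
    ∃ (v : Option (Fin 3 × Fin n) → ℤ) (a : Fin 3 → Fin n → ℤ) (δ : ℤ),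
      (∀ d, Function.Injective (a d)) ∧
      (∀ (t : Lab n) d i, a d i < ∑ e, a e (t e)) ∧
      (∀ (t : Lab n) d i, a d i < ∑ e, a e (t e) + δ) ∧
      (∀ (t t' : Lab n), ∑ e, a e (t e) + δ ≠ ∑ e, a e (t' e)) ∧
      (∀ G ∈ S, ∀ t : Lab n, sb t (top G) ≠ 0 →
        SignType.sign (eval (inp a (∑ e, a e (t e))) G) = sgt v t G ∧
        SignType.sign (eval (inp a (∑ e, a e (t e) + δ)) G) = sgt v t G) ∧
      (∀ P ∈ Q, ∀ t : Lab n, (sb t P ≠ 0 → eval (inp a (∑ e, a e (t e))) P ≠ 0) ∧
        (P ≠ 0 → eval (inp a (∑ e, a e (t e) + δ)) P ≠ 0)) := by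
  classical
  -- the direction
  let Φ : Finset (Pol n) := (hS.toFinset.biUnion fun G => univ.image fun t : Lab n =>
    sb t (top G)).filter (fun P => P ≠ 0)
  obtain ⟨v0, hv0⟩ := exists_int_point Φ (fun P hP => (Finset.mem_filter.1 hP).2)
  obtain ⟨k, hk⟩ := ray_avoid (fun o => (v0 o : ℝ)) (fun _ => 1) Φ (fun P hP =>
    ⟨0, by simpa using hv0 P hP⟩)
  let B : ℤ := ∑ w : Fin 3 × Fin n, |v0 (some w)|
  have hB : ∀ w, |v0 (some w)| ≤ B := fun w =>
    Finset.single_le_sum (f := fun w : Fin 3 × Fin n => |v0 (some w)|)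
      (fun w _ => abs_nonneg _) (Finset.mem_univ w)
  have hB0 : 0 ≤ B := Finset.sum_nonneg fun w _ => abs_nonneg _
  let y : ℕ := k + 4 * B.toNat + 1
  have hy : (y : ℤ) = k + 4 * B + 1 := by
    simp only [y]
    push_cast
    rw [Int.toNat_of_nonneg hB0]
  let v : Option (Fin 3 × Fin n) → ℤ := fun o => v0 o + y
  have hv : (fun o => (v0 o : ℝ) + 1 * (y : ℝ)) = fun o => (v o : ℝ) := by
    funext o
    simp only [v]
    push_cast
    ring
  have hvΦ : ∀ P ∈ Φ, eval (fun o => (v o : ℝ)) P ≠ 0 := by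
    intro P hP
    rw [← hv]
    exact hk y (by simp only [y]; omega) P hP
  have hvt : ∀ G ∈ S, ∀ t : Lab n, sb t (top G) ≠ 0 →
      eval (ptl t (fun o => (v o : ℝ))) (top G) ≠ 0 := by
    intro G hG t h0
    rw [← eval_sb]
    refine hvΦ _ (Finset.mem_filter.2 ⟨Finset.mem_biUnion.2 ⟨G, hS.mem_toFinset.2 hG,
      Finset.mem_image.2 ⟨t, Finset.mem_univ _, rfl⟩⟩, h0⟩)
  have hslope : ∀ (t : Lab n) (d : Fin 3) (i : Fin n), v (some (d, i)) + 1 ≤
      ∑ e, v (some (e, t e)) := by
    intro t d i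
    have hk0 : (0 : ℤ) ≤ k := Int.natCast_nonneg _
    have hlo : ∀ w, (y : ℤ) - B ≤ v (some w) := by
      intro w
      have h1 := hB w
      have h2 := neg_abs_le (v0 (some w))
      simp only [v]
      linarith
    have hhi : ∀ w, v (some w) ≤ (y : ℤ) + B := by
      intro w
      have h1 := hB w
      have h2 := le_abs_self (v0 (some w))
      simp only [v]
      linarith
    rw [Fin.sum_univ_three]
    have h0 := hhi (d, i)
    have h1 := hlo (0, t 0)
    have h2 := hlo (1, t 1)
    have h3 := hlo (2, t 2)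
    linarith
  -- the generic shift
  let Ψ : Finset (Pol n) := (((hQ.toFinset ∪ ((univ : Finset (Lab n)).image fun t => lf t)) ∪
    (univ : Finset ((Fin 3 × Fin n) × (Fin 3 × Fin n))).image
      (fun w => X (some w.1) - X (some w.2))).biUnion fun P => univ.image (fun t : Lab n =>
        sb t P) ∪ univ.image (fun t : Lab n => nb t P)).filter (fun P => P ≠ 0)
  obtain ⟨u, hu⟩ := exists_int_point Ψ (fun P hP => (Finset.mem_filter.1 hP).2)
  let Q' : Finset (Pol n) := (hQ.toFinset ∪ ((univ : Finset (Lab n)).image fun t => lf t)) ∪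
    (univ : Finset ((Fin 3 × Fin n) × (Fin 3 × Fin n))).image
      (fun w => X (some w.1) - X (some w.2))
  have hu1 : ∀ P ∈ Q', ∀ t : Lab n, sb t P ≠ 0 → eval (ptl t (fun o => (u o : ℝ))) P ≠ 0 := by
    intro P hP t h0
    rw [← eval_sb]
    refine hu _ (Finset.mem_filter.2 ⟨Finset.mem_biUnion.2 ⟨P, hP, Finset.mem_union_left _
      (Finset.mem_image.2 ⟨t, Finset.mem_univ _, rfl⟩)⟩, h0⟩)
  have hu2 : ∀ P ∈ Q', ∀ t : Lab n, P ≠ 0 → eval (ptn t (fun o => (u o : ℝ))) P ≠ 0 := by
    intro P hP t h0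
    rw [← eval_nb]
    refine hu _ (Finset.mem_filter.2 ⟨Finset.mem_biUnion.2 ⟨P, hP, Finset.mem_union_right _
      (Finset.mem_image.2 ⟨t, Finset.mem_univ _, rfl⟩)⟩, nb_ne_zero t h0⟩)
  -- the length
  have hM1 : ∀ G ∈ S, ∀ t ∈ (Set.univ : Set (Lab n)), ∀ᶠ M : ℕ in atTop,
      sb t (top G) ≠ 0 →
        SignType.sign (eval (fun o => ptl t (fun o => (u o : ℝ)) o +
          ptl t (fun o => (v o : ℝ)) o * (M : ℝ)) G) = sgt v t G ∧
        SignType.sign (eval (fun o => ptn t (fun o => (u o : ℝ)) o +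
          ptl t (fun o => (v o : ℝ)) o * (M : ℝ)) G) = sgt v t G := by
    intro G hG t _
    by_cases h0 : sb t (top G) ≠ 0
    · obtain ⟨k1, hk1⟩ := sign_far (ptl t (fun o => (u o : ℝ))) (ptl t (fun o => (v o : ℝ))) G
        (hvt G hG t h0)
      obtain ⟨k2, hk2⟩ := sign_far (ptn t (fun o => (u o : ℝ))) (ptl t (fun o => (v o : ℝ))) G
        (hvt G hG t h0)
      filter_upwards [eventually_ge_atTop k1, eventually_ge_atTop k2] with M h1 h2 _
      rw [hk1 M h1, hk2 M h2, ← eval_sb]
      exact ⟨rfl, rfl⟩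
    · exact Filter.Eventually.of_forall fun m h => absurd h h0
  have hM2 : ∀ t ∈ (Set.univ : Set (Lab n)), ∀ᶠ M : ℕ in atTop, ∀ P ∈ Q',
      (sb t P ≠ 0 → eval (fun o => ptl t (fun o => (u o : ℝ)) o +
          ptl t (fun o => (v o : ℝ)) o * (M : ℝ)) P ≠ 0) ∧
      (P ≠ 0 → eval (fun o => ptn t (fun o => (u o : ℝ)) o +
          ptl t (fun o => (v o : ℝ)) o * (M : ℝ)) P ≠ 0) := by
    intro t _
    obtain ⟨k1, hk1⟩ := ray_avoid (ptl t (fun o => (u o : ℝ))) (ptl t (fun o => (v o : ℝ)))
      (Q'.filter (fun P => sb t P ≠ 0)) (fun P hP => ⟨0, by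
        obtain ⟨h1, h2⟩ := Finset.mem_filter.1 hP
        simpa using hu1 P h1 t h2⟩)
    obtain ⟨k2, hk2⟩ := ray_avoid (ptn t (fun o => (u o : ℝ))) (ptl t (fun o => (v o : ℝ)))
      (Q'.filter (fun P => P ≠ 0)) (fun P hP => ⟨0, by
        obtain ⟨h1, h2⟩ := Finset.mem_filter.1 hP
        simpa using hu2 P h1 t h2⟩)
    filter_upwards [eventually_ge_atTop k1, eventually_ge_atTop k2] with M h1 h2 P hP
    exact ⟨fun h0 => hk1 M h1 P (Finset.mem_filter.2 ⟨hP, h0⟩),
      fun h0 => hk2 M h2 P (Finset.mem_filter.2 ⟨hP, h0⟩)⟩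
  have hM3 : ∀ w ∈ (Set.univ : Set (Lab n × Fin 3 × Fin n)), ∀ᶠ M : ℕ in atTop,
      u (some w.2) + v (some w.2) * M < ∑ e, (u (some (e, w.1 e)) + v (some (e, w.1 e)) * M) ∧
      u (some w.2) + v (some w.2) * M <
        ∑ e, (u (some (e, w.1 e)) + v (some (e, w.1 e)) * M) + u none := by
    rintro ⟨t, d, i⟩ _
    have h1 := hslope t d i
    have h2 : ∀ M : ℕ, ∑ e, (u (some (e, t e)) + v (some (e, t e)) * (M : ℤ)) =
        ∑ e, u (some (e, t e)) + (∑ e, v (some (e, t e))) * M := by
      intro M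
      rw [Finset.sum_add_distrib, Finset.sum_mul]
    filter_upwards [eventually_gt_atTop (u (some (d, i)) - ∑ e, u (some (e, t e))).toNat,
      eventually_gt_atTop (u (some (d, i)) - ∑ e, u (some (e, t e)) - u none).toNat] with M h3 h4
    have h5 : (u (some (d, i)) - ∑ e, u (some (e, t e))) < (M : ℤ) :=
      lt_of_le_of_lt (Int.self_le_toNat _) (by exact_mod_cast h3)
    have h6 : (u (some (d, i)) - ∑ e, u (some (e, t e)) - u none) < (M : ℤ) :=
      lt_of_le_of_lt (Int.self_le_toNat _) (by exact_mod_cast h4)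
    have hM0 : (0 : ℤ) ≤ M := Int.natCast_nonneg _
    have h7 : (v (some (d, i)) + 1) * (M : ℤ) ≤ (∑ e, v (some (e, t e))) * M :=
      mul_le_mul_of_nonneg_right h1 hM0
    rw [h2 M]
    constructor
    · linarith
    · linarith
  obtain ⟨M, ⟨hM1, hM2⟩, hM3⟩ := ((((eventually_all_finite hS).2 fun G hG =>
    (eventually_all_finite Set.finite_univ).2 (hM1 G hG)).and
    ((eventually_all_finite Set.finite_univ).2 hM2)).and
    ((eventually_all_finite Set.finite_univ).2 hM3)).exists
  let a : Fin 3 → Fin n → ℤ := fun d i => u (some (d, i)) + v (some (d, i)) * M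
  have hin1 : ∀ t : Lab n, inp a (∑ e, a e (t e)) = fun o => ptl t (fun o => (u o : ℝ)) o +
      ptl t (fun o => (v o : ℝ)) o * (M : ℝ) := by
    intro t
    funext o
    cases o with
    | none =>
      simp only [inp, ptl, a]
      push_cast
      rw [Finset.sum_add_distrib, Finset.sum_mul]
    | some w => simp only [inp, ptl, a]; push_cast; ring
  have hin2 : ∀ t : Lab n, inp a (∑ e, a e (t e) + u none) = fun o =>
      ptn t (fun o => (u o : ℝ)) o + ptl t (fun o => (v o : ℝ)) o * (M : ℝ) := by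
    intro t
    funext o
    cases o with
    | none =>
      simp only [inp, ptl, ptn, a]
      push_cast
      rw [Finset.sum_add_distrib, Finset.sum_mul]
      ring
    | some w => simp only [inp, ptn, ptl, a]; push_cast; ring
  refine ⟨v, a, u none, ?_, ?_, ?_, ?_, ?_, ?_⟩
  · intro d i j hij
    by_contra hne
    have h5 : (X (some (d, i)) - X (some (d, j)) : Pol n) ≠ 0 := by
      intro h0
      have h6 := X_injective (R := ℝ) (sub_eq_zero.1 h0)
      exact hne (Prod.mk.inj (Option.some_injective _ h6)).2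
    have h6 := (hM2 (fun _ => i) (Set.mem_univ _) _ (Finset.mem_union_right _ (Finset.mem_image.2
      ⟨((d, i), (d, j)), Finset.mem_univ _, rfl⟩))).2 h5
    rw [← hin2] at h6
    apply h6
    rw [map_sub, eval_X, eval_X]
    change ((a d i : ℤ) : ℝ) - ((a d j : ℤ) : ℝ) = 0
    rw [hij, sub_self]
  · intro t d i
    exact (hM3 (t, d, i) (Set.mem_univ _)).1
  · intro t d i
    exact (hM3 (t, d, i) (Set.mem_univ _)).2
  · intro t t' he
    have h6 := (hM2 t (Set.mem_univ _) _ (Finset.mem_union_left _ (Finset.mem_union_right _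
      (Finset.mem_image.2 ⟨t', Finset.mem_univ _, rfl⟩)))).2 (lf_ne_zero t')
    rw [← hin2, he] at h6
    apply h6
    rw [lf, map_sub, map_sum, eval_X]
    simp only [eval_X, inp]
    push_cast
    exact sub_self _
  · intro G hG t h0
    rw [hin1, hin2]
    exact hM1 G hG t (Set.mem_univ _) h0
  · intro P hP t
    rw [hin1, hin2]
    exact hM2 t (Set.mem_univ _) P (Finset.mem_union_left _ (Finset.mem_union_left _
      (hQ.mem_toFinset.2 hP)))

end Pool.Agent.H29.TS
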