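import Pool.Agent.H29.TS.Sets

/-!
# The bound when all information on the three sets is free, conclusion
-/

set_option autoImplicit false

namespace Pool.Agent.H29.TS

open Finset Pool.Agent.H80.TS MvPolynomial

variable {n : ℕ}

theorem sgt_zero (v : Option (Fin 3 × Fin n) → ℤ) (t : Lab n) : sgt v t 0 = 0 := by
  unfold sgt top
  rw [map_zero, map_zero, map_zero, sign_zero]

/-- The run with stored values `F` and comparisons `Gs` is sensitive to the hyperplane of `t`. -/
def hndt (F Gs : List (Pol n)) (t : Lab n) : Prop :=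
  t ∈ cov F.get ∨ ∃ G ∈ Gs, G ≠ 0 ∧ sb t (top G) = 0

open Classical in
theorem card_hndt (F Gs : List (Pol n)) (D T R : ℕ) (hF : F.length ≤ T)
    (hFD : ∀ P ∈ F, P.totalDegree ≤ D) (hG : Gs.length ≤ R)
    (hGD : ∀ P ∈ Gs, P.totalDegree ≤ D) :
    (univ.filter (fun t => hndt F Gs t)).card ≤ 6912 * D ^ 4 * n * T + D * R := by
  have hcov : (cov F.get).card ≤ 6912 * D ^ 4 * n * T := by
    refine (cov_card F.get D fun k => hFD _ (List.get_mem F k)).trans ?_
    rw [Fintype.card_fin]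
    exact Nat.mul_le_mul le_rfl hF
  have hsub : univ.filter (fun t => hndt F Gs t) ⊆ cov F.get ∪
      (Gs.toFinset.filter (fun G => G ≠ 0)).biUnion (fun G =>
        univ.filter (fun t : Lab n => sb t (top G) = 0)) := by
    intro t ht
    rcases (Finset.mem_filter.1 ht).2 with h | ⟨G, h1, h2, h3⟩
    · exact Finset.mem_union_left _ h
    · refine Finset.mem_union_right _ (Finset.mem_biUnion.2 ⟨G, Finset.mem_filter.2
        ⟨List.mem_toFinset.2 h1, h2⟩, Finset.mem_filter.2 ⟨Finset.mem_univ _, h3⟩⟩)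
  refine (Finset.card_le_card hsub).trans ((Finset.card_union_le _ _).trans
    (Nat.add_le_add hcov ?_))
  refine Finset.card_biUnion_le.trans ?_
  refine (Finset.sum_le_sum (g := fun _ => D) fun G hG' => ?_).trans ?_
  · obtain ⟨h1, h2⟩ := Finset.mem_filter.1 hG'
    exact (card_zero_le (top G) (top_ne_zero h2)).trans ((totalDegree_top_le G).trans
      (hGD G (List.mem_toFinset.1 h1)))
  · rw [Finset.sum_const, smul_eq_mul, mul_comm]
    refine Nat.mul_le_mul le_rfl ?_
    exact (Finset.card_le_card (Finset.filter_subset _ _)).trans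
      ((List.toFinset_card_le Gs).trans hG)

open Classical in
theorem sets_bound (n D T R : ℕ) (Ω : Type) [Fintype Ω] (p : Ω → ℝ) (A : Ω → Tree n)
    (hB : ∀ ω, (A ω).Bounded (OfSets n) D T R) (hp : ∀ ω, 0 ≤ p ω) (hsum : ∑ ω, p ω = 1)
    (hA : ∀ (a : Fin 3 → Fin n → ℤ) (x : ℤ), (∀ d, Function.Injective (a d)) →
      2 / 3 ≤ ∑ ω ∈ Finset.univ.filter (fun ω => ((A ω).Accepts a x ↔ InSumset a x)), p ω) :
    n ^ 2 ≤ 3 ^ R * (12 * D) ^ 4 * (T + R) := by
  rcases Nat.eq_zero_or_pos n with hn0 | hn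
  · rw [hn0]; simp
  let O : Set (Pol n) := ⋃ ω, (A ω).occ []
  have hO : O.Finite := Set.finite_iUnion fun ω => Tree.finite_occ _ _
  let S : Set (Pol n) := {G | G ∈ O ∧ G ≠ 0}
  have hS : S.Finite := hO.subset fun G hG => hG.1
  let Q : Set (Pol n) := Set.image2 (fun P P' => P - P') O O
  have hQ : Q.Finite := hO.image2 _ hO
  obtain ⟨v, a, δ, hinj, hlt1, hlt2, hno, hsg, hav⟩ := exists_sets S hS Q hQ
  let t0 : Lab n := fun _ => ⟨0, hn⟩
  let x0 : ℤ := ∑ e, a e (t0 e) + δ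
  let rn : Ω → Lab n → Prop × List (Pol n) × List (Pol n) := fun ω t =>
    Tree.ideal a x0 (sgt v t) (A ω) []
  let H : Ω → Finset (Lab n) := fun ω =>
    univ.filter (fun t => hndt (rn ω t).2.1 (rn ω t).2.2 t)
  have hmemH : ∀ ω t, t ∈ H ω ↔ hndt (rn ω t).2.1 (rn ω t).2.2 t := by
    intro ω t
    simp only [H, Finset.mem_filter, Finset.mem_univ, true_and]
  have hfree : ∀ x : ℤ, (∀ d i, a d i < x) → ∀ k f, OfSets n k f → f a x = f a x0 := by
    intro x hx k f hf
    refine hf a x x0 fun d i => ⟨?_, ?_⟩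
    · exact iff_of_true (hx d i) (hlt2 t0 d i)
    · exact iff_of_false (hx d i).ne (hlt2 t0 d i).ne
  -- the generic inputs
  have hN : ∀ ω t, (∀ G ∈ (rn ω t).2.2, G ≠ 0 → sb t (top G) ≠ 0) →
      ((A ω).Accepts a (∑ e, a e (t e) + δ) ↔ (rn ω t).1) := by
    intro ω t ht
    refine Tree.answer_iff a x0 (OfSets n) (sgt v t) a _ (hfree _ (hlt2 t)) (A ω) [] T R (hB ω)
      ?_ ?_
    · intro P hP P' hP' he
      by_contra hne
      have h3 := (hav (P - P') ⟨P, Set.mem_iUnion.2 ⟨ω, Tree.values_occ _ _ _ _ _ P hP⟩, P',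
        Set.mem_iUnion.2 ⟨ω, Tree.values_occ _ _ _ _ _ P' hP'⟩, rfl⟩ t).2 (sub_ne_zero.2 hne)
      exact h3 (by rw [map_sub, he, sub_self])
    · intro G hG
      by_cases hG0 : G = 0
      · rw [hG0, map_zero, sign_zero, sgt_zero]
      · exact (hsg G ⟨Set.mem_iUnion.2 ⟨ω, Tree.tests_occ _ _ _ _ _ G hG⟩, hG0⟩ t
          (ht G hG hG0)).2
  have hY : ∀ ω t, t ∉ H ω → ((A ω).Accepts a (∑ e, a e (t e)) ↔ (rn ω t).1) := by
    intro ω t ht
    have ht' : ¬ hndt (rn ω t).2.1 (rn ω t).2.2 t := fun h => ht ((hmemH ω t).2 h)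
    refine Tree.answer_iff a x0 (OfSets n) (sgt v t) a _ (hfree _ (hlt1 t)) (A ω) [] T R (hB ω)
      ?_ ?_
    · intro P hP P' hP' he
      by_contra hne
      by_cases h0 : sb t (P - P') = 0
      · apply ht'
        left
        rw [map_sub, sub_eq_zero] at h0
        obtain ⟨k, hk, hkP⟩ := List.getElem_of_mem hP
        obtain ⟨k', hk', hkP'⟩ := List.getElem_of_mem hP'
        simp only [cov, mem_filter, mem_univ, true_and]
        refine ⟨⟨k, hk⟩, ⟨k', hk'⟩, ?_, ?_⟩
        · change (Tree.ideal a x0 (sgt v t) (A ω) []).2.1[k] ≠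
            (Tree.ideal a x0 (sgt v t) (A ω) []).2.1[k']
          rw [hkP, hkP']
          exact hne
        · change sb _ (Tree.ideal a x0 (sgt v t) (A ω) []).2.1[k] =
            sb _ (Tree.ideal a x0 (sgt v t) (A ω) []).2.1[k']
          rw [hkP, hkP']
          exact h0
      · have h3 := (hav (P - P') ⟨P, Set.mem_iUnion.2 ⟨ω, Tree.values_occ _ _ _ _ _ P hP⟩, P',
          Set.mem_iUnion.2 ⟨ω, Tree.values_occ _ _ _ _ _ P' hP'⟩, rfl⟩ t).1 h0
        exact h3 (by rw [map_sub, he, sub_self])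
    · intro G hG
      by_cases hG0 : G = 0
      · rw [hG0, map_zero, sign_zero, sgt_zero]
      · refine (hsg G ⟨Set.mem_iUnion.2 ⟨ω, Tree.tests_occ _ _ _ _ _ G hG⟩, hG0⟩ t ?_).1
        intro h0
        exact ht' (Or.inr ⟨G, hG, hG0, h0⟩)
  -- each hyperplane is handled with probability at least 1/3
  have h1 : ∀ t : Lab n, 1 / 3 ≤ ∑ ω, if t ∈ H ω then p ω else 0 := by
    intro t
    have h2 := hA a (∑ e, a e (t e) + δ) hinj
    have h3 := hA a (∑ e, a e (t e)) hinj
    have h2' : 2 / 3 ≤ ∑ ω, if (¬ (rn ω t).1 ∨ t ∈ H ω) then p ω else 0 := by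
      rw [← Finset.sum_filter]
      refine h2.trans (Finset.sum_le_sum_of_subset_of_nonneg ?_ fun ω _ _ => hp ω)
      intro ω hω
      simp only [Finset.mem_filter, Finset.mem_univ, true_and] at hω ⊢
      by_cases ht : t ∈ H ω
      · exact Or.inr ht
      · left
        intro hout
        have h5 : ∀ G ∈ (rn ω t).2.2, G ≠ 0 → sb t (top G) ≠ 0 := fun G hG hG0 h0 =>
          ht ((hmemH ω t).2 (Or.inr ⟨G, hG, hG0, h0⟩))
        obtain ⟨i, j, k, h6⟩ := hω.1 ((hN ω t h5).2 hout)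
        refine hno t ![i, j, k] ?_
        rw [← h6, Fin.sum_univ_three]
        rfl
    have h3' : 2 / 3 ≤ ∑ ω, if ((rn ω t).1 ∨ t ∈ H ω) then p ω else 0 := by
      rw [← Finset.sum_filter]
      refine h3.trans (Finset.sum_le_sum_of_subset_of_nonneg ?_ fun ω _ _ => hp ω)
      intro ω hω
      simp only [Finset.mem_filter, Finset.mem_univ, true_and] at hω ⊢
      by_cases ht : t ∈ H ω
      · exact Or.inr ht
      · refine Or.inl ((hY ω t ht).1 (hω.2 ⟨t 0, t 1, t 2, ?_⟩))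
        rw [Fin.sum_univ_three]
    have h4 : (∑ ω, if (¬ (rn ω t).1 ∨ t ∈ H ω) then p ω else 0) +
        (∑ ω, if ((rn ω t).1 ∨ t ∈ H ω) then p ω else 0) ≤
        ∑ ω, p ω + ∑ ω, if t ∈ H ω then p ω else 0 := by
      rw [← Finset.sum_add_distrib, ← Finset.sum_add_distrib]
      refine Finset.sum_le_sum fun ω _ => ?_
      have := hp ω
      by_cases ho : (rn ω t).1 <;> by_cases ht : t ∈ H ω <;> simp [ho, ht]
    rw [hsum] at h4
    linarith
  -- one tree handles many hyperplanes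
  obtain ⟨ω, hω⟩ : ∃ ω, n ^ 3 ≤ 3 * (H ω).card := by
    by_contra hc
    push Not at hc
    have h5 : (n : ℝ) ^ 3 / 3 ≤ ∑ ω, p ω * ((H ω).card : ℝ) := by
      have h6 : ∑ t : Lab n, (1 / 3 : ℝ) ≤ ∑ t : Lab n, ∑ ω, if t ∈ H ω then p ω else 0 :=
        Finset.sum_le_sum fun t _ => h1 t
      have h7 : ∑ t : Lab n, ∑ ω, (if t ∈ H ω then p ω else 0) =
          ∑ ω, p ω * ((H ω).card : ℝ) := by
        rw [Finset.sum_comm]
        refine Finset.sum_congr rfl fun ω _ => ?_
        rw [Finset.sum_ite_mem, Finset.univ_inter, Finset.sum_const, nsmul_eq_mul, mul_comm]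
      rw [h7, Finset.sum_const, Finset.card_univ, nsmul_eq_mul] at h6
      have h8 : (Fintype.card (Lab n) : ℝ) = (n : ℝ) ^ 3 := by
        have : Fintype.card (Lab n) = n ^ 3 := by simp
        rw [this]
        push_cast
        rfl
      rw [h8] at h6
      linarith
    have hpos : ∃ ω, 0 < p ω := by
      by_contra hc'
      push Not at hc'
      have : ∑ ω, p ω ≤ 0 := Finset.sum_nonpos fun ω _ => hc' ω
      rw [hsum] at this
      linarith
    obtain ⟨ω0, hω0⟩ := hpos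
    have h10 : ∑ ω, p ω * ((H ω).card : ℝ) < ∑ ω, p ω * ((n : ℝ) ^ 3 / 3) := by
      have h11 : ∀ ω, ((H ω).card : ℝ) < (n : ℝ) ^ 3 / 3 := by
        intro ω
        have h12 : (3 * ((H ω).card : ℝ)) < n ^ 3 := by
          exact_mod_cast hc ω
        linarith
      refine Finset.sum_lt_sum (fun ω _ => mul_le_mul_of_nonneg_left (h11 ω).le (hp ω))
        ⟨ω0, Finset.mem_univ _, mul_lt_mul_of_pos_left (h11 ω0) hω0⟩
    rw [← Finset.sum_mul, hsum, one_mul] at h10
    exact absurd h5 (not_le.2 h10)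
  -- counting runs
  obtain ⟨L, hL1, hL2⟩ := Tree.exists_runs a x0 (A ω) [] T R (hB ω)
  have hcount : (H ω).card ≤ 3 ^ R * (6912 * D ^ 4 * n * T + D * R) := by
    let L' := L.toFinset.filter (fun r => ∃ t, rn ω t = r)
    have hsub : H ω ⊆ L'.biUnion (fun r => univ.filter (fun t => hndt r.2.1 r.2.2 t)) := by
      intro t ht
      refine Finset.mem_biUnion.2 ⟨rn ω t, Finset.mem_filter.2 ⟨List.mem_toFinset.2 (hL2 _),
        t, rfl⟩, Finset.mem_filter.2 ⟨Finset.mem_univ _, (hmemH ω t).1 ht⟩⟩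
    refine (Finset.card_le_card hsub).trans (Finset.card_biUnion_le.trans ?_)
    refine (Finset.sum_le_sum (g := fun _ => 6912 * D ^ 4 * n * T + D * R)
      fun r hr => ?_).trans ?_
    · obtain ⟨_, t, rfl⟩ := Finset.mem_filter.1 hr
      have hv := Tree.bounded_values a x0 (sgt v t) (A ω) [] T R (hB ω) (by intro P hP; cases hP)
      have ht := Tree.bounded_tests a x0 (sgt v t) (A ω) [] T R (hB ω)
      refine card_hndt _ _ D T R ?_ hv.2 ht.1 ht.2
      have := hv.1
      simpa using this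
    · rw [Finset.sum_const, smul_eq_mul]
      refine Nat.mul_le_mul ?_ le_rfl
      exact (Finset.card_le_card (Finset.filter_subset _ _)).trans
        ((List.toFinset_card_le L).trans hL1)
  -- arithmetic
  have hDR : D * R ≤ 6912 * D ^ 4 * n * R := by
    rcases Nat.eq_zero_or_pos D with hD | hD
    · rw [hD]; simp
    · have h13 : D ≤ D ^ 4 := by
        calc D = D ^ 1 := (pow_one D).symm
          _ ≤ D ^ 4 := Nat.pow_le_pow_right hD (by norm_num)
      calc D * R ≤ D ^ 4 * R := Nat.mul_le_mul h13 le_rfl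
        _ ≤ (6912 * n) * (D ^ 4 * R) := Nat.le_mul_of_pos_left _ (by positivity)
        _ = 6912 * D ^ 4 * n * R := by ring
  have h14 : n * n ^ 2 ≤ n * (3 ^ R * (12 * D) ^ 4 * (T + R)) := by
    calc n * n ^ 2 = n ^ 3 := by ring
      _ ≤ 3 * (H ω).card := hω
      _ ≤ 3 * (3 ^ R * (6912 * D ^ 4 * n * T + D * R)) := Nat.mul_le_mul le_rfl hcount
      _ ≤ 3 * (3 ^ R * (6912 * D ^ 4 * n * T + 6912 * D ^ 4 * n * R)) :=
          Nat.mul_le_mul le_rfl (Nat.mul_le_mul le_rfl (Nat.add_le_add_left hDR _))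
      _ = n * (3 ^ R * (12 * D) ^ 4 * (T + R)) := by ring
  exact Nat.le_of_mul_le_mul_left h14 hn

end Pool.Agent.H29.TS
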