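import Mathlib

/-!
# Signs of polynomials near a flat, one coordinate at a time

`r : Fin n → R` is a point with coordinates in the integral domain `R`. A polynomial `G` in `n`
variables over `R` is expanded at `r 0` in the variable number `0`, the trailing coefficient is
expanded at `r 1` in the next variable, and so on. `lead n r G` is the last coefficient, and
`touched n r G i` says that the expansion in the variable number `i` starts in positive degree.
-/

set_option autoImplicit false

namespace Pool.Agent.H29.TS

open MvPolynomial Filter Topology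

variable {R : Type} [CommRing R]

/-- The expansion at `s` in the variable number `0`. -/
noncomputable def expan {n : ℕ} (s : R) (G : MvPolynomial (Fin (n + 1)) R) :
    Polynomial (MvPolynomial (Fin n) R) :=
  Polynomial.taylor (C s) (finSuccEquiv R n G)

/-- The trailing coefficient of the expansion. -/
noncomputable def trail {n : ℕ} (s : R) (G : MvPolynomial (Fin (n + 1)) R) :
    MvPolynomial (Fin n) R := (expan s G).trailingCoeff

/-- The last coefficient. -/
noncomputable def lead : (n : ℕ) → (Fin n → R) → MvPolynomial (Fin n) R → R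
  | 0, _, G => coeff 0 G
  | n + 1, r, G => lead n (fun k => r k.succ) (trail (r 0) G)

/-- The expansion in the variable number `i` starts in positive degree. -/
def touched : (n : ℕ) → (Fin n → R) → MvPolynomial (Fin n) R → Fin n → Prop
  | 0, _, _, _ => False
  | n + 1, r, G, i => Fin.cases (motive := fun _ => Prop)
      ((finSuccEquiv R n G).eval (C (r 0)) = 0)
      (fun j => touched n (fun k => r k.succ) (trail (r 0) G) j) i

theorem touched_zero {n : ℕ} (r : Fin (n + 1) → R) (G : MvPolynomial (Fin (n + 1)) R) :
    touched (n + 1) r G 0 ↔ (finSuccEquiv R n G).eval (C (r 0)) = 0 := Iff.rfl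

theorem touched_succ {n : ℕ} (r : Fin (n + 1) → R) (G : MvPolynomial (Fin (n + 1)) R)
    (j : Fin n) :
    touched (n + 1) r G j.succ ↔ touched n (fun k => r k.succ) (trail (r 0) G) j := Iff.rfl

theorem expan_ne_zero {n : ℕ} (s : R) {G : MvPolynomial (Fin (n + 1)) R} (hG : G ≠ 0) :
    expan s G ≠ 0 := by
  unfold expan
  rw [Ne, Polynomial.taylor_eq_zero]
  intro h
  exact hG ((finSuccEquiv R n).injective (h.trans (map_zero _).symm))

theorem trail_ne_zero {n : ℕ} (s : R) {G : MvPolynomial (Fin (n + 1)) R} (hG : G ≠ 0) :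
    trail s G ≠ 0 := by
  unfold trail
  rw [Ne, Polynomial.trailingCoeff_eq_zero]
  exact expan_ne_zero s hG

theorem lead_ne_zero : ∀ (n : ℕ) (r : Fin n → R) (G : MvPolynomial (Fin n) R), G ≠ 0 →
    lead n r G ≠ 0
  | 0, _, G, hG => by
    intro h
    apply hG
    rw [MvPolynomial.eq_C_of_isEmpty G]
    change coeff 0 G = 0 at h
    rw [h, C_0]
  | n + 1, r, G, hG => lead_ne_zero n _ _ (trail_ne_zero _ hG)

theorem degreeOf_trail {n D : ℕ} (s : R) (G : MvPolynomial (Fin (n + 1)) R)
    (hG : ∀ i, degreeOf i G ≤ D) (j : Fin n) : degreeOf j (trail s G) ≤ D := by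
  have h1 : ∀ k : ℕ, degreeOf j ((expan s G).coeff k) ≤ D := by
    intro k
    unfold expan
    rw [Polynomial.taylor_coeff, Polynomial.hasseDeriv_apply, Polynomial.sum_def,
      Polynomial.eval_finsetSum]
    refine (degreeOf_sum_le _ _ _).trans (Finset.sup_le fun m _ => ?_)
    rw [Polynomial.eval_monomial]
    refine (degreeOf_mul_le _ _ _).trans ?_
    have h2 : degreeOf j ((C s : MvPolynomial (Fin n) R) ^ (m - k)) = 0 := by
      rw [← C_pow]
      exact degreeOf_C _ _
    rw [h2, add_zero]
    refine (degreeOf_mul_le _ _ _).trans ?_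
    have h3 : degreeOf j (((m.choose k : ℕ) : MvPolynomial (Fin n) R)) = 0 := by
      have : ((m.choose k : ℕ) : MvPolynomial (Fin n) R) = C ((m.choose k : ℕ) : R) := by
        rw [map_natCast]
      rw [this]
      exact degreeOf_C _ _
    rw [h3, zero_add]
    exact (degreeOf_coeff_finSuccEquiv G j m).trans (hG _)
  exact h1 _

/-! ### Signs -/

/-- The expansion after a specialisation. -/
theorem eval_expan {n : ℕ} (φ : R →+* ℝ) (s : R) (G : MvPolynomial (Fin (n + 1)) R)
    (w : Fin n → ℝ) (e : ℝ) :
    ((expan s G).map (eval₂Hom φ w)).eval e = eval₂ φ (Fin.cons (φ s + e) w) G := by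
  unfold expan
  rw [Polynomial.map_taylor, Polynomial.taylor_eval]
  have h1 : ((eval₂Hom φ w) (C s)) = φ s := by simp
  rw [h1]
  have h2 : ((Polynomial.evalRingHom (e + φ s)).comp
      ((Polynomial.mapRingHom (eval₂Hom φ w)).comp
        ((finSuccEquiv R n : MvPolynomial (Fin (n + 1)) R →+* Polynomial (MvPolynomial (Fin n) R))))) =
      eval₂Hom φ (Fin.cons (φ s + e) w) := by
    refine MvPolynomial.ringHom_ext (fun c => ?_) (fun i => ?_)
    · rw [RingHom.comp_apply, RingHom.comp_apply, RingHom.coe_coe, finSuccEquiv_apply]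
      simp
    · rw [RingHom.comp_apply, RingHom.comp_apply, RingHom.coe_coe]
      refine Fin.cases ?_ (fun j => ?_) i
      · rw [finSuccEquiv_X_zero]
        simp [add_comm]
      · rw [finSuccEquiv_X_succ]
        simp
  have h3 := congrArg (fun f : MvPolynomial (Fin (n + 1)) R →+* ℝ => f G) h2
  simp only [RingHom.comp_apply, RingHom.coe_coe, Polynomial.coe_evalRingHom,
    Polynomial.coe_mapRingHom, coe_eval₂Hom] at h3
  exact h3

/-- The sign of a real polynomial just to the right of `0`. -/
theorem eventually_sign (g : Polynomial ℝ) (m : ℕ) (hm : ∀ k < m, g.coeff k = 0)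
    (h0 : g.coeff m ≠ 0) :
    ∀ᶠ e in 𝓝[>] (0 : ℝ), SignType.sign (g.eval e) = SignType.sign (g.coeff m) := by
  obtain ⟨h, hh⟩ := Polynomial.X_pow_dvd_iff.2 hm
  have h1 : g.coeff m = h.eval 0 := by
    rw [hh, Polynomial.coeff_X_pow_mul', if_pos le_rfl, Nat.sub_self,
      Polynomial.coeff_zero_eq_eval_zero]
  have hcont : Tendsto (fun e : ℝ => h.eval e) (𝓝[>] 0) (𝓝 (h.eval 0)) :=
    (h.continuous.tendsto 0).mono_left nhdsWithin_le_nhds
  have hpos : ∀ᶠ e in 𝓝[>] (0 : ℝ), 0 < e := self_mem_nhdsWithin
  rw [h1] at h0 ⊢
  rcases lt_or_gt_of_ne h0 with hneg | hp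
  · filter_upwards [hpos, hcont.eventually (gt_mem_nhds hneg)] with e he hlt
    rw [hh, Polynomial.eval_mul, Polynomial.eval_pow, Polynomial.eval_X, sign_neg hneg]
    exact sign_neg (mul_neg_of_pos_of_neg (pow_pos he m) hlt)
  · filter_upwards [hpos, hcont.eventually (lt_mem_nhds hp)] with e he hlt
    rw [hh, Polynomial.eval_mul, Polynomial.eval_pow, Polynomial.eval_X, sign_pos hp]
    exact sign_pos (mul_pos (pow_pos he m) hlt)

/-- The designated coordinate, without the coordinate number `0`. -/
def tl {n : ℕ} : Option (Fin (n + 1)) → Option (Fin n)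
  | none => none
  | some i => Fin.cases (motive := fun _ => Option (Fin n)) none (fun j => some j) i

theorem tl_iff {n : ℕ} (i0 : Option (Fin (n + 1))) (j : Fin n) :
    some j = tl i0 ↔ some j.succ = i0 := by
  rcases i0 with _ | i
  · simp [tl]
  · refine Fin.cases ?_ (fun k => ?_) i
    · simp [tl, Fin.succ_ne_zero]
    · simp [tl]

/-- Near the flat, with the coordinates number `0, 1, …` much smaller than the later ones, the
signs are those of the last coefficients; a coordinate `i0` may be put exactly on the flat if it is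
not touched. -/
theorem exists_sign (φ : R →+* ℝ) : ∀ (n : ℕ) (r : Fin n → R) (i0 : Option (Fin n))
    (S : Set (MvPolynomial (Fin n) R)), S.Finite → (∀ G ∈ S, φ (lead n r G) ≠ 0) →
    ∃ e : Fin n → ℝ, (∀ i, some i ≠ i0 → 0 < e i) ∧ (∀ i, some i = i0 → e i = 0) ∧
      ∀ G ∈ S, (∀ i, i0 = some i → ¬ touched n r G i) →
        SignType.sign (eval₂ φ (fun i => φ (r i) + e i) G) = SignType.sign (φ (lead n r G))
  | 0, r, i0, S, _, _ => by
    refine ⟨fun _ => 0, fun i => i.elim0, fun i => i.elim0, fun G _ _ => ?_⟩
    have h1 : eval₂ φ (fun i : Fin 0 => φ (r i) + 0) G = φ (lead 0 r G) := by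
      change _ = φ (coeff 0 G)
      have h2 : G = C (coeff 0 G) := MvPolynomial.eq_C_of_isEmpty G
      rw [h2, eval₂_C, coeff_C, if_pos rfl]
    rw [h1]
  | n + 1, r, i0, S, hS, hne => by
    let r' : Fin n → R := fun k => r k.succ
    let j0 : Option (Fin n) := tl i0
    have hj0 : ∀ j : Fin n, some j = j0 ↔ some j.succ = i0 := tl_iff i0
    obtain ⟨e', he1, he2, he3⟩ := exists_sign φ n r' j0 ((trail (r 0)) '' S) (hS.image _) (by
      rintro _ ⟨G, hG, rfl⟩
      exact hne G hG)
    let w : Fin n → ℝ := fun i => φ (r' i) + e' i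
    -- the one variable polynomials
    let g : MvPolynomial (Fin (n + 1)) R → Polynomial ℝ := fun G =>
      (expan (r 0) G).map (eval₂Hom φ w)
    have hgm : ∀ G, ∀ k < (expan (r 0) G).natTrailingDegree, (g G).coeff k = 0 := by
      intro G k hk
      rw [Polynomial.coeff_map, Polynomial.coeff_eq_zero_of_lt_natTrailingDegree hk, map_zero]
    have hg0 : ∀ G, (g G).coeff (expan (r 0) G).natTrailingDegree =
        eval₂ φ w (trail (r 0) G) := by
      intro G
      rw [Polynomial.coeff_map]
      rfl
    have hev : ∀ (G : MvPolynomial (Fin (n + 1)) R) (e : ℝ), (g G).eval e =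
        eval₂ φ (fun i => φ (r i) + (Fin.cons e e' : Fin (n + 1) → ℝ) i) G := by
      intro G e
      rw [eval_expan]
      congr 1
      funext i
      refine Fin.cases ?_ (fun j => ?_) i
      · simp
      · simp [w, r']
    have hsg : ∀ G ∈ S, (∀ i, i0 = some i → ¬ touched (n + 1) r G i) →
        SignType.sign (eval₂ φ w (trail (r 0) G)) = SignType.sign (φ (lead (n + 1) r G)) := by
      intro G hG ht
      refine he3 _ ⟨G, hG, rfl⟩ fun j hj => ?_
      have h1 := (hj0 j).1 hj.symm
      exact ht j.succ h1.symm
    have hnz : ∀ G ∈ S, (∀ i, i0 = some i → ¬ touched (n + 1) r G i) →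
        eval₂ φ w (trail (r 0) G) ≠ 0 := by
      intro G hG ht h0
      have h1 := hsg G hG ht
      rw [h0, sign_zero] at h1
      exact hne G hG (sign_eq_zero_iff.1 h1.symm)
    by_cases h0 : i0 = some 0
    · refine ⟨Fin.cons 0 e', ?_, ?_, ?_⟩
      · intro i hi
        revert hi
        refine Fin.cases ?_ (fun j => ?_) i
        · intro hi; exact absurd h0.symm hi
        · intro hi
          rw [Fin.cons_succ]
          exact he1 j fun h => hi ((hj0 j).1 h)
      · intro i hi
        revert hi
        refine Fin.cases ?_ (fun j => ?_) i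
        · intro _; rw [Fin.cons_zero]
        · intro hi
          rw [Fin.cons_succ]
          exact he2 j ((hj0 j).2 hi)
      · intro G hG ht
        rw [← hev]
        have h1 := ht 0 h0
        rw [touched_zero] at h1
        have h2 : (expan (r 0) G).coeff 0 ≠ 0 := by
          unfold expan
          rw [Polynomial.taylor_coeff_zero]
          exact h1
        have h3 : (expan (r 0) G).natTrailingDegree = 0 :=
          Polynomial.natTrailingDegree_eq_zero.2 (Or.inr h2)
        have h4 := hg0 G
        rw [h3] at h4
        rw [← Polynomial.coeff_zero_eq_eval_zero, h4]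
        exact hsg G hG ht
    · have hall : ∀ G ∈ S, ∀ᶠ e in 𝓝[>] (0 : ℝ),
          (∀ i, i0 = some i → ¬ touched (n + 1) r G i) →
          SignType.sign ((g G).eval e) = SignType.sign (φ (lead (n + 1) r G)) := by
        intro G hG
        by_cases ht : ∀ i, i0 = some i → ¬ touched (n + 1) r G i
        · have h1 := eventually_sign (g G) _ (hgm G) (by
            rw [hg0]; exact hnz G hG ht)
          filter_upwards [h1] with e he _
          rw [he, hg0]
          exact hsg G hG ht
        · exact Filter.Eventually.of_forall fun e h => absurd h ht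
      have hpos : ∀ᶠ e in 𝓝[>] (0 : ℝ), 0 < e := self_mem_nhdsWithin
      obtain ⟨e, he, hepos⟩ := (((eventually_all_finite hS).2 hall).and hpos).exists
      refine ⟨Fin.cons e e', ?_, ?_, ?_⟩
      · intro i hi
        revert hi
        refine Fin.cases ?_ (fun j => ?_) i
        · intro _; rw [Fin.cons_zero]; exact hepos
        · intro hi
          rw [Fin.cons_succ]
          exact he1 j fun h => hi ((hj0 j).1 h)
      · intro i hi
        revert hi
        refine Fin.cases ?_ (fun j => ?_) i
        · intro hi; exact absurd hi.symm h0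
        · intro hi
          rw [Fin.cons_succ]
          exact he2 j ((hj0 j).2 hi)
      · intro G hG ht
        rw [← hev]
        exact he G hG ht

end Pool.Agent.H29.TS
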