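import Pool.Agent.H29.TS.Far
import Pool.Agent.H29.TS.Count

/-!
# Inputs near the intersection of `n` hyperplanes
-/

set_option autoImplicit false

namespace Pool.Agent.H29.TS

open Finset Pool.Agent.H80.TS MvPolynomial Filter Topology

variable {n : ℕ}

/-- The image of a variable under `tow`. -/
noncomputable def twv : Option (Fin 3 × Fin n) → MvPolynomial (Fin n) (Pol n)
  | none => C (X none)
  | some v => if v.1 = 0 then X v.2 else C (X (some v))

/-- A polynomial as a polynomial in the elements of the first set. -/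
noncomputable def tow : Pol n →ₐ[ℝ] MvPolynomial (Fin n) (Pol n) := aeval twv

/-- The point with given elements of the first set, and the rest taken from `y`. -/
def mrg (a : Fin n → ℝ) (y : Option (Fin 3 × Fin n) → ℝ) : Option (Fin 3 × Fin n) → ℝ :=
  fun o => match o with
    | none => y none
    | some v => if v.1 = 0 then a v.2 else y (some v)

theorem eval_tow (a : Fin n → ℝ) (y : Option (Fin 3 × Fin n) → ℝ) (G : Pol n) :
    eval₂ (eval y) a (tow G) = eval (mrg a y) G := by
  have h : ((eval₂Hom (eval y) a).comp (tow : Pol n →ₐ[ℝ] MvPolynomial (Fin n) (Pol n)).toRingHom) =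
      (eval (mrg a y) : Pol n →+* ℝ) := by
    refine MvPolynomial.ringHom_ext (fun c => ?_) (fun o => ?_)
    · rw [RingHom.comp_apply]
      simp only [AlgHom.toRingHom_eq_coe, RingHom.coe_coe, algHom_C, coe_eval₂Hom]
      rw [IsScalarTower.algebraMap_apply ℝ (Pol n) (MvPolynomial (Fin n) (Pol n)), algebraMap_eq,
        algebraMap_eq, eval₂_C]
      simp
    · rw [RingHom.comp_apply]
      simp only [AlgHom.toRingHom_eq_coe, RingHom.coe_coe, tow, aeval_X, coe_eval₂Hom, eval_X]
      cases o with
      | none => simp [mrg, twv]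
      | some v =>
        simp only [mrg, twv]
        split_ifs <;> simp
  have h2 := congrArg (fun f : Pol n →+* ℝ => f G) h
  simpa using h2

theorem tow_ne_zero {G : Pol n} (hG : G ≠ 0) : tow G ≠ 0 := by
  intro h
  apply hG
  refine MvPolynomial.funext fun z => ?_
  have h1 : mrg (fun i => z (some (0, i))) z = z := by
    funext o
    cases o with
    | none => rfl
    | some v =>
      obtain ⟨d, i⟩ := v
      simp only [mrg]
      split_ifs with hd
      · rw [hd]
      · rfl
  rw [← h1, ← eval_tow, h, eval₂_zero, map_zero]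

theorem degreeOf_tow (G : Pol n) (i : Fin n) : degreeOf i (tow G) ≤ G.totalDegree := by
  classical
  unfold tow
  rw [aeval_def, eval₂_eq]
  refine (degreeOf_sum_le _ _ _).trans (Finset.sup_le fun m hm => ?_)
  refine (degreeOf_mul_le _ _ _).trans ?_
  have h1 : degreeOf i (algebraMap ℝ (MvPolynomial (Fin n) (Pol n)) (coeff m G)) = 0 := by
    rw [IsScalarTower.algebraMap_apply ℝ (Pol n) (MvPolynomial (Fin n) (Pol n)), algebraMap_eq,
      algebraMap_eq]
    exact degreeOf_C _ _
  rw [h1, zero_add]
  refine (degreeOf_prod_le _ _ _).trans ?_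
  refine le_trans (Finset.sum_le_sum (g := fun o => m o) fun o _ => ?_) (le_totalDegree hm)
  refine (degreeOf_pow_le _ _ _).trans ?_
  have h2 : degreeOf i (twv o : MvPolynomial (Fin n) (Pol n)) ≤ 1 := by
    cases o with
    | none =>
      simp only [twv]
      rw [degreeOf_C]
      exact Nat.zero_le _
    | some v =>
      simp only [twv]
      split_ifs
      · rw [degreeOf_X]
        split_ifs <;> simp
      · rw [degreeOf_C]
        exact Nat.zero_le _
  calc m o * _ ≤ m o * 1 := Nat.mul_le_mul le_rfl h2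
    _ = m o := mul_one _

/-- The value of the element of the first set which gives a solution with the elements number
`q.1` and `q.2` of the other two sets. -/
noncomputable def lam (q : Fin n × Fin n) : Pol n :=
  X none - X (some (1, q.1)) - X (some (2, q.2))

theorem lam_injective : Function.Injective (lam : Fin n × Fin n → Pol n) := by
  intro q q' h
  have h1 : ∀ z : Option (Fin 3 × Fin n) → ℝ, z (some (1, q.1)) + z (some (2, q.2)) =
      z (some (1, q'.1)) + z (some (2, q'.2)) := by
    intro z
    have h2 := congrArg (eval z) h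
    simp only [lam, map_sub, eval_X] at h2
    linarith
  have h3 := h1 (fun o => if o = some (1, q.1) then 1 else 0)
  have h4 := h1 (fun o => if o = some (2, q.2) then 1 else 0)
  refine Prod.ext ?_ ?_
  · by_contra hne
    have hne' : q'.1 ≠ q.1 := fun h => hne h.symm
    simp [hne'] at h3
  · by_contra hne
    have hne' : q'.2 ≠ q.2 := fun h => hne h.symm
    simp [hne'] at h4

/-- The label with first coordinate `i` and other coordinates `q`. -/
def lab (i : Fin n) (q : Fin n × Fin n) : Lab n := ![i, q.1, q.2]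

/-- The point `p` chooses the hyperplane of `lab i (p i)` for every `i`. -/
abbrev Pos (n : ℕ) : Type := Fin n → Fin n × Fin n

/-- The last coefficient of the highest homogeneous part of a polynomial. -/
noncomputable def lst (p : Pos n) (G : Pol n) : Pol n :=
  lead n (fun i => lam (p i)) (tow (top G))

/-- The sign of a polynomial at the position `p`. -/
noncomputable def sg (y : Option (Fin 3 × Fin n) → ℝ) (p : Pos n) (G : Pol n) : SignType :=
  SignType.sign (eval y (lst p G))

/-- The polynomial is sensitive to the hyperplane of `lab i (p i)` at the position `p`. -/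
def tch (p : Pos n) (G : Pol n) (i : Fin n) : Prop :=
  touched n (fun i => lam (p i)) (tow (top G)) i

theorem lst_ne_zero (p : Pos n) {G : Pol n} (hG : G ≠ 0) : lst p G ≠ 0 :=
  lead_ne_zero n _ _ (tow_ne_zero (top_ne_zero hG))

/-- A choice of the second and third set and of `x` at which all last coefficients are nonzero. -/
theorem exists_macro (S : Set (Pol n)) (hS : S.Finite) (h0 : ∀ G ∈ S, G ≠ 0) :
    ∃ y : Option (Fin 3 × Fin n) → ℤ, ∀ (p : Pos n), ∀ G ∈ S,
      eval (fun o => (y o : ℝ)) (lst p G) ≠ 0 := by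
  classical
  obtain ⟨u, hu⟩ := exists_int_point
    ((univ : Finset (Pos n)).biUnion fun p => hS.toFinset.image (lst p)) (by
      intro Q hQ
      obtain ⟨p, _, hp⟩ := Finset.mem_biUnion.1 hQ
      obtain ⟨G, hG, rfl⟩ := Finset.mem_image.1 hp
      exact lst_ne_zero p (h0 G (hS.mem_toFinset.1 hG)))
  refine ⟨u, fun p G hG => hu _ ?_⟩
  exact Finset.mem_biUnion.2 ⟨p, Finset.mem_univ _, Finset.mem_image.2
    ⟨G, hS.mem_toFinset.2 hG, rfl⟩⟩

/-- The real point near the flat. -/
theorem exists_real (y : Option (Fin 3 × Fin n) → ℝ) (S : Set (Pol n)) (hS : S.Finite)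
    (hy : ∀ (p : Pos n), ∀ G ∈ S, eval y (lst p G) ≠ 0) (p : Pos n) (i0 : Option (Fin n)) :
    ∃ e : Fin n → ℝ, (∀ i, i0 = some i → e i = 0) ∧
      ∀ G ∈ S, (∀ i, i0 = some i → ¬ tch p G i) →
        SignType.sign (eval (mrg (fun i => eval y (lam (p i)) + e i) y) (top G)) = sg y p G := by
  obtain ⟨e, _, he2, he3⟩ := exists_sign (eval y) n (fun i => lam (p i)) i0
    ((fun G => tow (top G)) '' S) (hS.image _) (by
      rintro _ ⟨G, hG, rfl⟩
      exact hy p G hG)
  refine ⟨e, fun i hi => he2 i hi.symm, ?_⟩
  intro G hG ht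
  have h1 := he3 _ ⟨G, hG, rfl⟩ ht
  rw [eval_tow] at h1
  exact h1

/-! ### Hyperplanes, by changing an element of the first set -/

/-- Substitution of `x - a 1 (t 1) - a 2 (t 2)` for `a 0 (t 0)`. -/
noncomputable def sba (t : Lab n) : Pol n →ₐ[ℝ] Pol n :=
  aeval (fun o => if o = some (0, t 0) then X none - X (some (1, t 1)) - X (some (2, t 2)) else X o)

theorem lf_dvd_sub_sba (t : Lab n) (P : Pol n) : lf t ∣ P - sba t P := by
  rw [← Ideal.mem_span_singleton, ← Ideal.Quotient.eq]
  have h : (Ideal.Quotient.mkₐ ℝ (Ideal.span {lf t})) =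
      (Ideal.Quotient.mkₐ ℝ (Ideal.span {lf t})).comp (sba t) := by
    refine MvPolynomial.algHom_ext fun o => ?_
    rw [AlgHom.comp_apply, sba, aeval_X]
    split_ifs with ho
    · rw [ho, Ideal.Quotient.mkₐ_eq_mk, Ideal.Quotient.eq, Ideal.mem_span_singleton]
      refine ⟨-1, ?_⟩
      rw [lf, Fin.sum_univ_three]
      ring
    · rfl
  exact congrArg (fun f : Pol n →ₐ[ℝ] (Pol n ⧸ Ideal.span {lf t}) => f P) h

theorem sb_of_sba (t : Lab n) {P : Pol n} (h : sba t P = 0) : sb t P = 0 := by
  have h1 := lf_dvd_sub_sba t P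
  rw [h, sub_zero] at h1
  obtain ⟨Q, rfl⟩ := h1
  rw [map_mul, sb_lf, zero_mul]

/-- The identity, or the projection to the hyperplane of a label. -/
def pa {K : Type} [Sub K] (t0 : Option (Lab n)) (z : Option (Fin 3 × Fin n) → K) :
    Option (Fin 3 × Fin n) → K :=
  match t0 with
  | none => z
  | some t => fun o => if o = some (0, t 0) then z none - z (some (1, t 1)) - z (some (2, t 2))
      else z o

/-- The identity, or the restriction to the hyperplane of a label. -/
noncomputable def rsta (t0 : Option (Lab n)) (Q : Pol n) : Pol n :=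
  match t0 with
  | none => Q
  | some t => sba t Q

theorem eval_rsta (t0 : Option (Lab n)) (z : Option (Fin 3 × Fin n) → ℝ) (Q : Pol n) :
    eval z (rsta t0 Q) = eval (pa t0 z) Q := by
  cases t0 with
  | none => rfl
  | some t =>
    have h : ((aeval z : Pol n →ₐ[ℝ] ℝ).comp (sba t)) = aeval (pa (some t) z) := by
      refine MvPolynomial.algHom_ext fun o => ?_
      rw [AlgHom.comp_apply, sba, aeval_X, aeval_X]
      simp only [pa]
      split_ifs <;> simp
    have h2 := congrArg (fun f : Pol n →ₐ[ℝ] ℝ => f Q) h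
    simp only [AlgHom.comp_apply] at h2
    rw [MvPolynomial.aeval_eq_eval, MvPolynomial.aeval_eq_eval] at h2
    exact h2

/-! ### Integer directions -/

/-- The integer direction at the scale `m`. -/
noncomputable def vdir (y : Option (Fin 3 × Fin n) → ℤ) (p : Pos n) (e : Fin n → ℝ) (m : ℕ) :
    Option (Fin 3 × Fin n) → ℤ :=
  fun o => match o with
    | none => m * y none
    | some v => if v.1 = 0 then
        m * (y none - y (some (1, (p v.2).1)) - y (some (2, (p v.2).2))) + ⌊(m : ℝ) * e v.2⌋
      else m * y (some v)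

theorem tendsto_floor (x : ℝ) :
    Tendsto (fun m : ℕ => (⌊(m : ℝ) * x⌋ : ℝ) / (m : ℝ)) atTop (𝓝 x) := by
  have hlo : Tendsto (fun m : ℕ => x - 1 / (m : ℝ)) atTop (𝓝 x) := by
    have := (tendsto_const_nhds (x := x)).sub (tendsto_one_div_atTop_nhds_zero_nat (𝕜 := ℝ))
    simpa using this
  refine tendsto_of_tendsto_of_tendsto_of_le_of_le' hlo tendsto_const_nhds ?_ ?_
  · filter_upwards [eventually_gt_atTop 0] with m hm
    have hm' : (0 : ℝ) < m := by exact_mod_cast hm
    rw [le_div_iff₀ hm', sub_mul, one_div, inv_mul_cancel₀ hm'.ne']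
    have := Int.sub_one_lt_floor ((m : ℝ) * x)
    linarith
  · filter_upwards [eventually_gt_atTop 0] with m hm
    have hm' : (0 : ℝ) < m := by exact_mod_cast hm
    rw [div_le_iff₀ hm']
    have := Int.floor_le ((m : ℝ) * x)
    linarith

theorem eval_lam (z : Option (Fin 3 × Fin n) → ℝ) (q : Fin n × Fin n) :
    eval z (lam q) = z none - z (some (1, q.1)) - z (some (2, q.2)) := by
  rw [lam, map_sub, map_sub, eval_X, eval_X, eval_X]

theorem tendsto_vdir (y : Option (Fin 3 × Fin n) → ℤ) (p : Pos n) (e : Fin n → ℝ) :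
    Tendsto (fun m : ℕ => (fun o => (vdir y p e m o : ℝ) / (m : ℝ))) atTop
      (𝓝 (mrg (fun i => eval (fun o => (y o : ℝ)) (lam (p i)) + e i) (fun o => (y o : ℝ)))) := by
  refine tendsto_pi_nhds.2 fun o => ?_
  have hc : ∀ c : ℝ, Tendsto (fun m : ℕ => (m : ℝ) * c / (m : ℝ)) atTop (𝓝 c) := by
    intro c
    refine Tendsto.congr' ?_ (tendsto_const_nhds (x := c))
    filter_upwards [eventually_gt_atTop 0] with m hm
    have hm' : (m : ℝ) ≠ 0 := by exact_mod_cast hm.ne'
    field_simp
  cases o with
  | none =>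
    simp only [vdir, mrg]
    push_cast
    exact hc _
  | some v =>
    simp only [vdir, mrg]
    split_ifs with hv
    · rw [eval_lam]
      have h1 := (hc ((y none : ℝ) - y (some (1, (p v.2).1)) - y (some (2, (p v.2).2)))).add
        (tendsto_floor (e v.2))
      refine Tendsto.congr (fun m => ?_) h1
      push_cast
      rw [← add_div]
    · push_cast
      exact hc _

theorem eventually_vdir (y : Option (Fin 3 × Fin n) → ℤ) (p : Pos n) (e : Fin n → ℝ) (G : Pol n)
    (h : eval (mrg (fun i => eval (fun o => (y o : ℝ)) (lam (p i)) + e i) (fun o => (y o : ℝ)))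
      (top G) ≠ 0) :
    ∀ᶠ m : ℕ in atTop, eval (fun o => (vdir y p e m o : ℝ)) (top G) ≠ 0 ∧
      SignType.sign (eval (fun o => (vdir y p e m o : ℝ)) (top G)) =
      SignType.sign (eval (mrg (fun i => eval (fun o => (y o : ℝ)) (lam (p i)) + e i)
        (fun o => (y o : ℝ))) (top G)) := by
  have h1 : Tendsto (fun m : ℕ => eval (fun o => (vdir y p e m o : ℝ) / (m : ℝ)) (top G)) atTop
      (𝓝 (eval (mrg (fun i => eval (fun o => (y o : ℝ)) (lam (p i)) + e i)
        (fun o => (y o : ℝ))) (top G))) :=
    ((MvPolynomial.continuous_eval (top G)).tendsto _).comp (tendsto_vdir y p e)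
  have h2 : ∀ m : ℕ, 0 < m → eval (fun o => (vdir y p e m o : ℝ)) (top G) =
      (m : ℝ) ^ G.totalDegree * eval (fun o => (vdir y p e m o : ℝ) / (m : ℝ)) (top G) := by
    intro m hm
    have hm' : (m : ℝ) ≠ 0 := by exact_mod_cast hm.ne'
    rw [← eval_smul_top]
    congr 2
    funext o
    field_simp
  rcases lt_or_gt_of_ne h with hneg | hp
  · filter_upwards [h1.eventually (gt_mem_nhds hneg), eventually_gt_atTop 0] with m hm hm0
    have hm' : (0 : ℝ) < m := by exact_mod_cast hm0
    rw [h2 m hm0]
    have h3 := mul_neg_of_pos_of_neg (pow_pos hm' G.totalDegree) hm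
    exact ⟨h3.ne, by rw [sign_neg h3, sign_neg hneg]⟩
  · filter_upwards [h1.eventually (lt_mem_nhds hp), eventually_gt_atTop 0] with m hm hm0
    have hm' : (0 : ℝ) < m := by exact_mod_cast hm0
    rw [h2 m hm0]
    have h3 := mul_pos (pow_pos hm' G.totalDegree) hm
    exact ⟨h3.ne', by rw [sign_pos h3, sign_pos hp]⟩

theorem pa_vdir (y : Option (Fin 3 × Fin n) → ℤ) (p : Pos n) (e : Fin n → ℝ) (m : ℕ)
    (i0 : Option (Fin n)) (he : ∀ i, i0 = some i → e i = 0) :
    pa (i0.map fun i => lab i (p i)) (vdir y p e m) = vdir y p e m := by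
  cases i0 with
  | none => rfl
  | some i =>
    funext o
    simp only [Option.map_some, pa]
    split_ifs with ho
    · rw [ho]
      simp only [lab, Matrix.cons_val_zero, Matrix.cons_val_one, Matrix.cons_val, vdir]
      rw [if_pos trivial, if_neg (by decide), if_neg (by decide), he i rfl, mul_zero, Int.floor_zero]
      ring
    · rfl

theorem cast_pa (t0 : Option (Lab n)) (z : Option (Fin 3 × Fin n) → ℤ) :
    (fun o => ((pa t0 z o : ℤ) : ℝ)) = pa t0 (fun o => (z o : ℝ)) := by
  cases t0 with
  | none => rfl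
  | some t =>
    funext o
    simp only [pa]
    split_ifs
    · push_cast; rfl
    · rfl

/-- Integer inputs near the flats, all with the same second set, third set and `x`. -/
theorem exists_near (y : Option (Fin 3 × Fin n) → ℤ) (S : Set (Pol n)) (hS : S.Finite)
    (hy : ∀ (p : Pos n), ∀ G ∈ S, eval (fun o => (y o : ℝ)) (lst p G) ≠ 0)
    (Q : Set (Pol n)) (hQ : Q.Finite) :
    ∃ (a : Pos n → Option (Fin n) → Fin 3 → Fin n → ℤ) (x : ℤ),
      (∀ p i0 p' i0', a p i0 1 = a p' i0' 1 ∧ a p i0 2 = a p' i0' 2) ∧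
      (∀ p i0 i, i0 = some i → x = ∑ d, a p i0 d (lab i (p i) d)) ∧
      (∀ p i0, ∀ G ∈ S, (∀ i, i0 = some i → ¬ tch p G i) →
        SignType.sign (eval (inp (a p i0) x) G) = sg (fun o => (y o : ℝ)) p G) ∧
      (∀ p i0, ∀ P ∈ Q, rsta (i0.map fun i => lab i (p i)) P ≠ 0 →
        eval (inp (a p i0) x) P ≠ 0) := by
  classical
  have hr := exists_real (fun o => (y o : ℝ)) S hS hy
  choose e he1 he2 using hr
  -- the scale of the direction
  have hm : ∀ z ∈ (Set.univ : Set (Pos n × Option (Fin n))), ∀ᶠ m : ℕ in atTop,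
      ∀ G ∈ S, (∀ i, z.2 = some i → ¬ tch z.1 G i) →
        eval (fun o => (vdir y z.1 (e z.1 z.2) m o : ℝ)) (top G) ≠ 0 ∧
        SignType.sign (eval (fun o => (vdir y z.1 (e z.1 z.2) m o : ℝ)) (top G)) =
          sg (fun o => (y o : ℝ)) z.1 G := by
    rintro ⟨p, i0⟩ _
    refine (eventually_all_finite hS).2 fun G hG => ?_
    by_cases ht : ∀ i, i0 = some i → ¬ tch p G i
    · have h1 := he2 p i0 G hG ht
      have h2 : eval (mrg (fun i => eval (fun o => (y o : ℝ)) (lam (p i)) + e p i0 i)
          (fun o => (y o : ℝ))) (top G) ≠ 0 := by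
        intro h0
        rw [h0, sign_zero] at h1
        exact hy p G hG (sign_eq_zero_iff.1 h1.symm)
      filter_upwards [eventually_vdir y p (e p i0) G h2] with m hm _
      exact ⟨hm.1, hm.2.trans h1⟩
    · exact Filter.Eventually.of_forall fun m h => absurd h ht
  obtain ⟨m, hm⟩ := ((eventually_all_finite Set.finite_univ).2 hm).exists
  -- the generic shift
  let Φ : Finset (Pol n) := ((univ : Finset (Pos n × Option (Fin n))).biUnion fun z =>
    hQ.toFinset.image (rsta (z.2.map fun i => lab i (z.1 i)))).filter (fun P => P ≠ 0)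
  obtain ⟨u, hu⟩ := exists_int_point Φ (fun P hP => (Finset.mem_filter.1 hP).2)
  have hu' : ∀ (p : Pos n) (i0 : Option (Fin n)), ∀ P ∈ Q, rsta (i0.map fun i => lab i (p i)) P ≠ 0 →
      eval (pa (i0.map fun i => lab i (p i)) (fun o => (u o : ℝ))) P ≠ 0 := by
    intro p i0 P hP hP0
    rw [← eval_rsta]
    refine hu _ (Finset.mem_filter.2 ⟨Finset.mem_biUnion.2 ⟨(p, i0), Finset.mem_univ _,
      Finset.mem_image.2 ⟨P, hQ.mem_toFinset.2 hP, rfl⟩⟩, hP0⟩)
  -- the length
  have hM : ∀ z ∈ (Set.univ : Set (Pos n × Option (Fin n))), ∀ᶠ M : ℕ in atTop,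
      (∀ G ∈ S, (∀ i, z.2 = some i → ¬ tch z.1 G i) →
        SignType.sign (eval (fun o => pa (z.2.map fun i => lab i (z.1 i)) (fun o => (u o : ℝ)) o +
          (vdir y z.1 (e z.1 z.2) m o : ℝ) * (M : ℝ)) G) = sg (fun o => (y o : ℝ)) z.1 G) ∧
      (∀ P ∈ Q, rsta (z.2.map fun i => lab i (z.1 i)) P ≠ 0 →
        eval (fun o => pa (z.2.map fun i => lab i (z.1 i)) (fun o => (u o : ℝ)) o +
          (vdir y z.1 (e z.1 z.2) m o : ℝ) * (M : ℝ)) P ≠ 0) := by
    rintro ⟨p, i0⟩ _
    refine Filter.Eventually.and ((eventually_all_finite hS).2 fun G hG => ?_)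
      ((eventually_all_finite hQ).2 fun P hP => ?_)
    · by_cases ht : ∀ i, i0 = some i → ¬ tch p G i
      · obtain ⟨h1, h2⟩ := hm (p, i0) (Set.mem_univ _) G hG ht
        obtain ⟨k, hk⟩ := sign_far (pa (i0.map fun i => lab i (p i)) (fun o => (u o : ℝ)))
          (fun o => (vdir y p (e p i0) m o : ℝ)) G h1
        filter_upwards [eventually_ge_atTop k] with M hM _
        exact (hk M hM).trans h2
      · exact Filter.Eventually.of_forall fun m h => absurd h ht
    · by_cases hP0 : rsta (i0.map fun i => lab i (p i)) P ≠ 0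
      · obtain ⟨k, hk⟩ := ray_avoid (pa (i0.map fun i => lab i (p i)) (fun o => (u o : ℝ)))
          (fun o => (vdir y p (e p i0) m o : ℝ)) {P} (fun P' hP' => ⟨0, by
            rw [Finset.mem_singleton.1 hP']
            simpa using hu' p i0 P hP hP0⟩)
        filter_upwards [eventually_ge_atTop k] with M hM _
        exact hk M hM P (Finset.mem_singleton_self P)
      · exact Filter.Eventually.of_forall fun m h => absurd h hP0
  obtain ⟨M, hM⟩ := ((eventually_all_finite Set.finite_univ).2 hM).exists
  let a : Pos n → Option (Fin n) → Fin 3 → Fin n → ℤ := fun p i0 d i =>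
    pa (i0.map fun i => lab i (p i)) u (some (d, i)) + vdir y p (e p i0) m (some (d, i)) * M
  let x : ℤ := u none + m * y none * M
  have hx : ∀ (p : Pos n) (i0 : Option (Fin n)), x = pa (i0.map fun i => lab i (p i)) u none +
      vdir y p (e p i0) m none * M := by
    intro p i0
    cases i0 with
    | none => rfl
    | some i => simp only [x, Option.map_some, pa, vdir]; rw [if_neg (by simp)]
  have hin : ∀ (p : Pos n) (i0 : Option (Fin n)), inp (a p i0) x = fun o => pa (i0.map fun i => lab i (p i))
      (fun o => (u o : ℝ)) o + (vdir y p (e p i0) m o : ℝ) * (M : ℝ) := by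
    intro p i0
    rw [← cast_pa]
    funext o
    cases o with
    | none =>
      simp only [inp]
      rw [hx p i0]
      push_cast
      rfl
    | some v =>
      simp only [inp, a]
      push_cast
      rfl
  refine ⟨a, x, ?_, ?_, ?_, ?_⟩
  · intro p i0 p' i0'
    have hgen : ∀ (d : Fin 3) (hd : d ≠ 0) p i0, a p i0 d = fun i =>
        u (some (d, i)) + m * y (some (d, i)) * M := by
      intro d hd p i0
      funext i
      simp only [a, vdir]
      rw [if_neg hd]
      cases i0 with
      | none => rfl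
      | some j =>
        simp only [Option.map_some, pa]
        rw [if_neg]
        intro h
        exact hd (Prod.mk.inj (Option.some_injective _ h)).1
    exact ⟨by rw [hgen 1 (by decide), hgen 1 (by decide)],
      by rw [hgen 2 (by decide), hgen 2 (by decide)]⟩
  · intro p i0 i hi
    have h1 := pa_vdir y p (e p i0) m i0 (he1 p i0)
    have h2 : vdir y p (e p i0) m (some (0, i)) = vdir y p (e p i0) m none -
        vdir y p (e p i0) m (some (1, (p i).1)) - vdir y p (e p i0) m (some (2, (p i).2)) := by
      rw [hi] at h1 ⊢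
      have h3 := congrFun h1 (some (0, i))
      simp only [Option.map_some, pa, lab, Matrix.cons_val_zero, Matrix.cons_val_one,
        Matrix.cons_val] at h3
      rw [if_pos trivial] at h3
      exact h3.symm
    have h4 : pa (i0.map fun i => lab i (p i)) u (some (0, i)) = u none -
        u (some (1, (p i).1)) - u (some (2, (p i).2)) := by
      rw [hi]
      simp only [Option.map_some, pa, lab, Matrix.cons_val_zero, Matrix.cons_val_one,
        Matrix.cons_val]
      rw [if_pos trivial]
    have h5 : ∀ (d : Fin 3) (hd : d ≠ 0) (j : Fin n),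
        pa (i0.map fun i => lab i (p i)) u (some (d, j)) = u (some (d, j)) := by
      intro d hd j
      rw [hi]
      simp only [Option.map_some, pa]
      rw [if_neg]
      intro h
      exact hd (Prod.mk.inj (Option.some_injective _ h)).1
    have l0 : lab i (p i) 0 = i := rfl
    have l1 : lab i (p i) 1 = (p i).1 := rfl
    have l2 : lab i (p i) 2 = (p i).2 := rfl
    rw [Fin.sum_univ_three, l0, l1, l2]
    simp only [a]
    rw [h2, h4, h5 1 (by decide), h5 2 (by decide)]
    have h6 : vdir y p (e p i0) m none = m * y none := rfl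
    simp only [x]
    rw [h6]
    ring
  · intro p i0 G hG ht
    rw [hin]
    exact (hM (p, i0) (Set.mem_univ _)).1 G hG ht
  · intro p i0 P hP hP0
    rw [hin]
    exact (hM (p, i0) (Set.mem_univ _)).2 P hP hP0

end Pool.Agent.H29.TS
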