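import Pool.Agent.H29.TS.TreeRun
import Pool.Agent.H29.TS.Tow

/-!
# The bound for trees with hashing and comparisons
-/

set_option autoImplicit false

namespace Pool.Agent.H29.TS

open Finset Pool.Agent.H80.TS MvPolynomial

variable {n : ℕ}

/-! ### Handled hyperplanes -/

/-- The run with stored values `F` and comparisons `Gs` is sensitive to the hyperplane of
`lab i (p i)` at the position `p`. -/
def hnd (F Gs : List (Pol n)) (p : Pos n) (i : Fin n) : Prop :=
  lab i (p i) ∈ cov F.get ∨ ∃ G ∈ Gs, G ≠ 0 ∧ tch p G i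

theorem lead_zero {R : Type} [CommRing R] : ∀ (n : ℕ) (r : Fin n → R), lead n r 0 = 0
  | 0, _ => by
    change coeff 0 (0 : MvPolynomial (Fin 0) R) = 0
    exact coeff_zero 0
  | n + 1, r => by
    have h : trail (r 0) (0 : MvPolynomial (Fin (n + 1)) R) = 0 := by
      unfold trail expan
      rw [map_zero, map_zero, Polynomial.trailingCoeff_zero]
    change lead n _ (trail (r 0) 0) = 0
    rw [h]
    exact lead_zero n _

theorem sg_zero (y : Option (Fin 3 × Fin n) → ℝ) (p : Pos n) : sg y p 0 = 0 := by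
  unfold sg lst top
  rw [map_zero, map_zero, lead_zero, map_zero, sign_zero]

/-- The run at an input near the flat. -/
theorem run_near {Free : ∀ k : ℕ, ((Fin 3 → Fin n → ℤ) → ℤ → Fin k) → Prop} {D T R : ℕ}
    (a0 : Fin 3 → Fin n → ℤ) (x0 : ℤ) (τ : Tree n) (hB : τ.Bounded Free D T R)
    (y : Option (Fin 3 × Fin n) → ℝ) (p : Pos n) (i0 : Option (Fin n))
    (a : Fin 3 → Fin n → ℤ) (x : ℤ) (hfree : ∀ k f, Free k f → f a x = f a0 x0)
    (hi0 : ∀ i, i0 = some i → ¬ hnd (Tree.ideal a0 x0 (sg y p) τ []).2.1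
      (Tree.ideal a0 x0 (sg y p) τ []).2.2 p i)
    (h1 : ∀ G ∈ Tree.occ τ [], G ≠ 0 → (∀ i, i0 = some i → ¬ tch p G i) →
        SignType.sign (eval (inp a x) G) = sg y p G)
    (h2 : ∀ P ∈ Tree.occ τ [], ∀ P' ∈ Tree.occ τ [],
      rsta (i0.map fun i => lab i (p i)) (P - P') ≠ 0 → eval (inp a x) (P - P') ≠ 0) :
    τ.Accepts a x ↔ (Tree.ideal a0 x0 (sg y p) τ []).1 := by
  refine Tree.answer_iff a0 x0 Free (sg y p) a x hfree τ [] T R hB ?_ ?_
  · intro P hP P' hP' he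
    by_contra hne
    have h3 := h2 P (Tree.values_occ _ _ _ _ _ P hP) P' (Tree.values_occ _ _ _ _ _ P' hP')
    refine h3 ?_ (by rw [map_sub, he, sub_self])
    cases i0 with
    | none => exact sub_ne_zero.2 hne
    | some i =>
      intro h0
      apply hi0 i rfl
      left
      have h0' : sb (lab i (p i)) (P - P') = 0 := sb_of_sba (lab i (p i)) h0
      rw [map_sub, sub_eq_zero] at h0'
      obtain ⟨k, hk, hkP⟩ := List.getElem_of_mem hP
      obtain ⟨k', hk', hkP'⟩ := List.getElem_of_mem hP'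
      simp only [cov, mem_filter, mem_univ, true_and]
      refine ⟨⟨k, hk⟩, ⟨k', hk'⟩, ?_, ?_⟩
      · change (Tree.ideal a0 x0 (sg y p) τ []).2.1[k] ≠ (Tree.ideal a0 x0 (sg y p) τ []).2.1[k']
        rw [hkP, hkP']
        exact hne
      · change sb _ (Tree.ideal a0 x0 (sg y p) τ []).2.1[k] =
          sb _ (Tree.ideal a0 x0 (sg y p) τ []).2.1[k']
        rw [hkP, hkP']
        exact h0'
  · intro G hG
    by_cases hG0 : G = 0
    · rw [hG0, map_zero, sign_zero, sg_zero]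
    · refine h1 G (Tree.tests_occ _ _ _ _ _ G hG) hG0 fun i hi ht => ?_
      exact hi0 i hi (Or.inr ⟨G, hG, hG0, ht⟩)

/-! ### Counting -/

theorem avg_set {P : Type} [Fintype P] (n : ℕ) (hn : 0 < n) (H : P → Finset (Fin n))
    (h : n * Fintype.card P ≤ 3 * ∑ p, (H p).card) :
    Fintype.card P ≤ 5 * (univ.filter (fun p => n ≤ 6 * (H p).card)).card := by
  classical
  set W := univ.filter (fun p => n ≤ 6 * (H p).card) with hW
  have h1 : 6 * ∑ p, (H p).card ≤ ∑ p, (n + if p ∈ W then 5 * n else 0) := by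
    rw [Finset.mul_sum]
    refine Finset.sum_le_sum fun p _ => ?_
    by_cases hp : p ∈ W
    · rw [if_pos hp]
      have h2 : (H p).card ≤ n := by
        have := Finset.card_le_univ (H p)
        rwa [Fintype.card_fin] at this
      omega
    · rw [if_neg hp]
      have h2 : ¬ n ≤ 6 * (H p).card := fun h3 => hp (Finset.mem_filter.2 ⟨Finset.mem_univ _, h3⟩)
      omega
  rw [Finset.sum_add_distrib, Finset.sum_const, Finset.card_univ, smul_eq_mul,
    Finset.sum_ite_mem, Finset.univ_inter, Finset.sum_const, smul_eq_mul] at h1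
  have h2 : n * Fintype.card P ≤ n * (5 * W.card) := by
    have h3 : Fintype.card P * n + W.card * (5 * n) = n * Fintype.card P + n * (5 * W.card) := by
      ring
    rw [h3] at h1
    omega
  exact Nat.le_of_mul_le_mul_left h2 hn

theorem card_rich (n K : ℕ) (f : Fin n → ℕ) (h : 12 * ∑ i, f i ≤ n * K) :
    12 * (univ.filter (fun i => K < f i)).card ≤ n := by
  classical
  set A := univ.filter (fun i => K < f i) with hA
  have h1 : A.card * (K + 1) ≤ ∑ i, f i := by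
    calc A.card * (K + 1) = ∑ i ∈ A, (K + 1) := by rw [Finset.sum_const, smul_eq_mul]
      _ ≤ ∑ i ∈ A, f i := Finset.sum_le_sum fun i hi => (Finset.mem_filter.1 hi).2
      _ ≤ ∑ i, f i := Finset.sum_le_sum_of_subset (Finset.subset_univ _)
  have h2 : (12 * A.card) * (K + 1) ≤ n * (K + 1) := by
    calc (12 * A.card) * (K + 1) = 12 * (A.card * (K + 1)) := by ring
      _ ≤ 12 * ∑ i, f i := Nat.mul_le_mul le_rfl h1
      _ ≤ n * K := h
      _ ≤ n * (K + 1) := Nat.mul_le_mul le_rfl (Nat.le_succ K)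
  exact Nat.le_of_mul_le_mul_right h2 (Nat.succ_pos K)

theorem lab_inj {i i' : Fin n} {q q' : Fin n × Fin n} (h : lab i q = lab i' q') :
    i = i' ∧ q = q' := by
  have h0 := congrFun h 0
  have h1 := congrFun h 1
  have h2 := congrFun h 2
  simp only [lab, Matrix.cons_val_zero, Matrix.cons_val_one, Matrix.cons_val] at h0 h1 h2
  exact ⟨h0, Prod.ext h1 h2⟩

/-- The positions at which many hyperplanes are handled by one run. -/
theorem card_run (F Gs : List (Pol n)) (D T R : ℕ) (hF : F.length ≤ T)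
    (hFD : ∀ P ∈ F, P.totalDegree ≤ D) (hG : Gs.length ≤ R) (hGD : ∀ P ∈ Gs, P.totalDegree ≤ D)
    (W : Finset (Pos n)) (H : Pos n → Finset (Fin n))
    (hH : ∀ p ∈ W, ∀ i ∈ H p, hnd F Gs p i) (hHW : ∀ p ∈ W, n ≤ 6 * (H p).card) :
    W.card ≤ 2 ^ n * ((82944 * D ^ 4 * T + D * R) ^ ((n + 11) / 12) *
      (n * n) ^ (n - (n + 11) / 12)) := by
  classical
  let cv : Fin n → Finset (Fin n × Fin n) := fun i =>
    univ.filter (fun q => lab i q ∈ cov F.get)
  have hcv : ∀ (i : Fin n) (q : Fin n × Fin n), lab i q ∈ cov F.get →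
      q ∈ cv i := fun i q h => Finset.mem_filter.2 ⟨Finset.mem_univ _, h⟩
  have hcov : (cov F.get).card ≤ 6912 * D ^ 4 * n * T := by
    refine (cov_card F.get D fun k => hFD _ (List.get_mem F k)).trans ?_
    rw [Fintype.card_fin]
    exact Nat.mul_le_mul le_rfl hF
  have hsum : ∑ i, (cv i).card ≤ 6912 * D ^ 4 * n * T := by
    refine le_trans ?_ hcov
    rw [← Finset.card_sigma]
    refine Finset.card_le_card_of_injOn (fun z : (_ : Fin n) × (Fin n × Fin n) => lab z.1 z.2) ?_ ?_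
    · intro z hz
      exact (Finset.mem_filter.1 (Finset.mem_sigma.1 hz).2).2
    · rintro ⟨i, q⟩ _ ⟨i', q'⟩ _ h
      obtain ⟨rfl, rfl⟩ := lab_inj h
      rfl
  obtain ⟨K0, hK0⟩ : ∃ K0, K0 = 82944 * D ^ 4 * T := ⟨_, rfl⟩
  rw [← hK0]
  have hrich : 12 * (univ.filter (fun i => K0 < (cv i).card)).card ≤ n := by
    refine card_rich n K0 (fun i => (cv i).card) ?_
    calc 12 * ∑ i, (cv i).card ≤ 12 * (6912 * D ^ 4 * n * T) := Nat.mul_le_mul le_rfl hsum
      _ = n * K0 := by rw [hK0]; ring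
  let N : Finset (Fin n) := univ.filter (fun i => ¬ K0 < (cv i).card)
  let S : Finset (MvPolynomial (Fin n) (Pol n)) :=
    (Gs.toFinset.filter (fun G => G ≠ 0)).image (fun G => tow (top G))
  have hq : Fintype.card (Fin n × Fin n) = n * n := by
    rw [Fintype.card_prod, Fintype.card_fin]
  rw [← hq]
  refine card_many (lam : Fin n × Fin n → Pol n) lam_injective D R (K0 + D * R) n
    ((n + 11) / 12) cv S N ?_ ?_ ?_ W ?_
  · refine Finset.card_image_le.trans ((Finset.card_le_card (Finset.filter_subset _ _)).trans ?_)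
    exact (List.toFinset_card_le Gs).trans hG
  · intro G' hG'
    obtain ⟨G, hG1, rfl⟩ := Finset.mem_image.1 hG'
    obtain ⟨hG2, hG3⟩ := Finset.mem_filter.1 hG1
    refine ⟨tow_ne_zero (top_ne_zero hG3), fun i => ?_⟩
    exact (degreeOf_tow _ i).trans ((totalDegree_top_le G).trans
      (hGD G (List.mem_toFinset.1 hG2)))
  · intro i hi
    have := (Finset.mem_filter.1 hi).2
    exact Nat.add_le_add_right (not_lt.1 this) _
  · intro p hp
    have h1 : (n + 11) / 12 ≤ (H p \ univ.filter (fun i => K0 < (cv i).card)).card := by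
      have h2 := hHW p hp
      have h3 := Finset.le_card_sdiff (univ.filter (fun i => K0 < (cv i).card)) (H p)
      omega
    obtain ⟨I, hI1, hI2⟩ := Finset.exists_subset_card_eq h1
    refine ⟨I, ?_, hI2, ?_⟩
    · intro i hi
      have h4 := (Finset.mem_sdiff.1 (hI1 hi)).2
      refine Finset.mem_filter.2 ⟨Finset.mem_univ _, fun h5 => h4 ?_⟩
      exact Finset.mem_filter.2 ⟨Finset.mem_univ _, h5⟩
    · rw [mem_hdl]
      intro i hi
      have h6 := hH p hp i (Finset.mem_sdiff.1 (hI1 hi)).1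
      rcases h6 with h6 | h6
      · left
        exact hcv i (p i) h6
      · right
        obtain ⟨G, hG1, hG2, hG3⟩ := h6
        exact ⟨tow (top G), Finset.mem_image.2 ⟨G, Finset.mem_filter.2
          ⟨List.mem_toFinset.2 hG1, hG2⟩, rfl⟩, hG3⟩

/-! ### Arithmetic -/

theorem pow_swap (a b c : ℕ) : (a ^ b) ^ c = (a ^ c) ^ b := by
  rw [← pow_mul, ← pow_mul, mul_comm]

theorem final_arith2 (n R q N M e : ℕ) (hn : 0 < n) (hq0 : 0 < q) (hN : N = 82944 * M)
    (he : n ≤ 12 * e) (hNq : N < q) (h2 : q ^ e ≤ 5 * (3 ^ R * (2 ^ n * N ^ e))) :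
    q ^ n ≤ (10 ^ 17) ^ (n + R) * M ^ n := by
  have h4 : q ^ (12 * e) ≤ 5 ^ 12 * ((3 ^ 12) ^ R * ((2 ^ 12) ^ n * N ^ (12 * e))) := by
    calc q ^ (12 * e) = (q ^ e) ^ 12 := by rw [← pow_mul, mul_comm]
      _ ≤ (5 * (3 ^ R * (2 ^ n * N ^ e))) ^ 12 := Nat.pow_le_pow_left h2 12
      _ = 5 ^ 12 * ((3 ^ R) ^ 12 * ((2 ^ n) ^ 12 * (N ^ e) ^ 12)) := by
          rw [mul_pow, mul_pow, mul_pow]
      _ = _ := by
          rw [pow_swap 3 R 12, pow_swap 2 n 12, ← pow_mul N e 12, mul_comm e 12]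
  obtain ⟨r, hr⟩ : ∃ r, 12 * e = n + r := ⟨12 * e - n, by omega⟩
  rw [hr, pow_add, pow_add] at h4
  have h5 : q ^ n ≤ 5 ^ 12 * ((3 ^ 12) ^ R * ((2 ^ 12) ^ n * N ^ n)) := by
    have h6 : q ^ n * q ^ r ≤ (5 ^ 12 * ((3 ^ 12) ^ R * ((2 ^ 12) ^ n * N ^ n))) * q ^ r := by
      calc q ^ n * q ^ r ≤ 5 ^ 12 * ((3 ^ 12) ^ R * ((2 ^ 12) ^ n * (N ^ n * N ^ r))) := h4
        _ = (5 ^ 12 * ((3 ^ 12) ^ R * ((2 ^ 12) ^ n * N ^ n))) * N ^ r := by
            rw [mul_assoc, mul_assoc, mul_assoc]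
        _ ≤ _ := Nat.mul_le_mul le_rfl (Nat.pow_le_pow_left hNq.le r)
    exact Nat.le_of_mul_le_mul_right h6 (by positivity)
  calc q ^ n ≤ 5 ^ 12 * ((3 ^ 12) ^ R * ((2 ^ 12) ^ n * N ^ n)) := h5
    _ ≤ (5 ^ 12) ^ n * ((3 ^ 12) ^ R * ((2 ^ 12) ^ n * N ^ n)) :=
        Nat.mul_le_mul (Nat.le_self_pow hn.ne' _) le_rfl
    _ = ((5 ^ 12 * 2 ^ 12 * 82944) ^ n * (3 ^ 12) ^ R) * M ^ n := by
        rw [hN, mul_pow 82944 M n, mul_pow (5 ^ 12 * 2 ^ 12) 82944 n, mul_pow (5 ^ 12) (2 ^ 12) n]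
        generalize (5 ^ 12) ^ n = A
        generalize (2 ^ 12) ^ n = B
        generalize (3 ^ 12) ^ R = E
        generalize 82944 ^ n = F
        generalize M ^ n = G
        ring
    _ ≤ ((10 ^ 17) ^ n * (10 ^ 17) ^ R) * M ^ n := by
        refine Nat.mul_le_mul (Nat.mul_le_mul ?_ ?_) le_rfl
        · exact Nat.pow_le_pow_left (by norm_num) n
        · exact Nat.pow_le_pow_left (by norm_num) R
    _ = (10 ^ 17) ^ (n + R) * M ^ n := by rw [pow_add]

theorem final_arith (n D T R : ℕ) (hn : 0 < n) (hD : 0 < D)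
    (h : (n * n) ^ n ≤ 5 * (3 ^ R * (2 ^ n * ((82944 * D ^ 4 * T + D * R) ^ ((n + 11) / 12) *
      (n * n) ^ (n - (n + 11) / 12))))) :
    (n ^ 2) ^ n ≤ (10 ^ 17) ^ (n + R) * (D ^ 4 * (T + R)) ^ n := by
  obtain ⟨q, hq⟩ : ∃ q, q = n * n := ⟨_, rfl⟩
  obtain ⟨M, hM⟩ : ∃ M, M = D ^ 4 * (T + R) := ⟨_, rfl⟩
  obtain ⟨N, hN⟩ : ∃ N, N = 82944 * M := ⟨_, rfl⟩
  obtain ⟨e, he⟩ : ∃ e, e = (n + 11) / 12 := ⟨_, rfl⟩
  have hqn : n ^ 2 = q := by rw [hq]; ring
  rw [hqn, ← hM]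
  rw [← hq, ← he] at h
  have hq0 : 0 < q := by rw [hq]; exact Nat.mul_pos hn hn
  have hKN : 82944 * D ^ 4 * T + D * R ≤ N := by
    have h1 : D ≤ D ^ 4 := by
      calc D = D ^ 1 := (pow_one D).symm
        _ ≤ D ^ 4 := Nat.pow_le_pow_right hD (by norm_num)
    have h2 : D * R ≤ 82944 * (D ^ 4 * R) := by
      calc D * R ≤ D ^ 4 * R := Nat.mul_le_mul h1 le_rfl
        _ ≤ 82944 * (D ^ 4 * R) := Nat.le_mul_of_pos_left _ (by norm_num)
    calc 82944 * D ^ 4 * T + D * R ≤ 82944 * D ^ 4 * T + 82944 * (D ^ 4 * R) :=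
          Nat.add_le_add_left h2 _
      _ = N := by rw [hN, hM]; ring
  rcases le_or_gt q N with hqN | hNq
  · calc q ^ n ≤ N ^ n := Nat.pow_le_pow_left hqN n
      _ = 82944 ^ n * M ^ n := by rw [hN, mul_pow]
      _ ≤ (10 ^ 17) ^ (n + R) * M ^ n := by
        refine Nat.mul_le_mul ?_ le_rfl
        calc 82944 ^ n ≤ (10 ^ 17) ^ n := Nat.pow_le_pow_left (by norm_num) n
          _ ≤ (10 ^ 17) ^ (n + R) := Nat.pow_le_pow_right (by norm_num) (Nat.le_add_right _ _)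
  · have hen : e ≤ n := by omega
    have h1 : q ^ n ≤ 5 * (3 ^ R * (2 ^ n * (N ^ e * q ^ (n - e)))) := by
      refine h.trans (Nat.mul_le_mul le_rfl (Nat.mul_le_mul le_rfl (Nat.mul_le_mul le_rfl
        (Nat.mul_le_mul (Nat.pow_le_pow_left hKN e) le_rfl))))
    refine final_arith2 n R q N M e hn hq0 hN (by omega) hNq ?_
    have h3 : q ^ e * q ^ (n - e) ≤ (5 * (3 ^ R * (2 ^ n * N ^ e))) * q ^ (n - e) := by
      calc q ^ e * q ^ (n - e) = q ^ n := by rw [← pow_add]; congr 1; omega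
        _ ≤ _ := h1
        _ = _ := by rw [mul_assoc, mul_assoc, mul_assoc]
    exact Nat.le_of_mul_le_mul_right h3 (by positivity)

end Pool.Agent.H29.TS
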