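import Pool.Agent.H29.TS.TreeLower

/-!
# The trade-off between values and comparisons
-/

set_option autoImplicit false

namespace Pool.Agent.H29.TS

open Finset Pool.Agent.H80.TS MvPolynomial

variable {n : ℕ}

/-- The inputs for the lower bound: an input `N p` without solution and inputs `Y p i` with a
solution such that the run at `Y p i` is the run at `N p`, unless the latter handles the hyperplane
of `lab i (p i)`. All have the same second set, third set and `x`. -/
theorem exists_inputs {Ω : Type} [Finite Ω] (A : Ω → Tree n) {D T R : ℕ}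
    (hB : ∀ ω, (A ω).Bounded (OfTwoSets n) D T R) :
    ∃ (y : Option (Fin 3 × Fin n) → ℝ) (a0 : Fin 3 → Fin n → ℤ) (x0 : ℤ)
      (aN : Pos n → Fin 3 → Fin n → ℤ) (aY : Pos n → Fin n → Fin 3 → Fin n → ℤ),
      (∀ p d, Function.Injective (aN p d)) ∧ (∀ p i d, Function.Injective (aY p i d)) ∧
      (∀ p, ¬ InSumset (aN p) x0) ∧ (∀ p i, InSumset (aY p i) x0) ∧
      (∀ ω p, (A ω).Accepts (aN p) x0 ↔ (Tree.ideal a0 x0 (sg y p) (A ω) []).1) ∧
      (∀ ω p i, ¬ hnd (Tree.ideal a0 x0 (sg y p) (A ω) []).2.1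
          (Tree.ideal a0 x0 (sg y p) (A ω) []).2.2 p i →
        ((A ω).Accepts (aY p i) x0 ↔ (Tree.ideal a0 x0 (sg y p) (A ω) []).1)) := by
  classical
  let O : Set (Pol n) := ⋃ ω, (A ω).occ []
  have hO : O.Finite := Set.finite_iUnion fun ω => Tree.finite_occ _ _
  let S : Set (Pol n) := {G | G ∈ O ∧ G ≠ 0}
  have hS : S.Finite := hO.subset fun G hG => hG.1
  let Q : Set (Pol n) := Set.image2 (fun P P' => P - P') O O ∪
    (Set.range (fun t : Lab n => lf t) ∪
      Set.range (fun v : (Fin 3 × Fin n) × (Fin 3 × Fin n) => X (some v.1) - X (some v.2)))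
  have hQ : Q.Finite := (hO.image2 _ hO).union ((Set.finite_range _).union (Set.finite_range _))
  obtain ⟨y, hy⟩ := exists_macro S hS fun G hG => hG.2
  obtain ⟨aa, x, h0, h1, h2, h3⟩ := exists_near y S hS hy Q hQ
  rcases Nat.eq_zero_or_pos n with hn0 | hn
  · -- no elements
    subst hn0
    refine ⟨fun o => (y o : ℝ), aa (fun i => i.elim0) none, x, fun p => aa p none,
      fun p i => aa p none, fun p d i => i.elim0, fun p i d j => j.elim0, ?_, fun p i => i.elim0,
      ?_, fun ω p i => i.elim0⟩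
    · rintro p ⟨i, _⟩
      exact i.elim0
    · intro ω p
      refine run_near (aa (fun i => i.elim0) none) x (A ω) (hB ω) _ p none (aa p none) x ?_
        (fun i => i.elim0) ?_ ?_
      · intro k f hf
        exact hf _ _ _ (funext fun i => i.elim0) (funext fun i => i.elim0)
      · intro G hG hG0 ht
        exact h2 p none G ⟨Set.mem_iUnion.2 ⟨ω, hG⟩, hG0⟩ ht
      · intro P hP P' hP' hr
        exact h3 p none _ (Or.inl ⟨P, Set.mem_iUnion.2 ⟨ω, hP⟩, P', Set.mem_iUnion.2 ⟨ω, hP'⟩,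
          rfl⟩) hr
  let p0 : Pos n := fun _ => (⟨0, hn⟩, ⟨0, hn⟩)
  have hinj : ∀ (p : Pos n) (i0 : Option (Fin n)) (d : Fin 3), Function.Injective (aa p i0 d) := by
    intro p i0 d i j hij
    by_contra hne
    have h4 : (X (some (d, i)) - X (some (d, j)) : Pol n) ∈ Q :=
      Or.inr (Or.inr ⟨((d, i), (d, j)), rfl⟩)
    refine h3 p i0 _ h4 ?_ ?_
    · have h5 : (X (some (d, i)) - X (some (d, j)) : Pol n) ≠ 0 := by
        intro h0
        have h6 := X_injective (R := ℝ) (sub_eq_zero.1 h0)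
        exact hne (Prod.mk.inj (Option.some_injective _ h6)).2
      cases i0 with
      | none => exact h5
      | some k =>
        intro h6
        have h7 := sb_of_sba (lab k (p k)) h6
        rw [map_sub, sb_some, sb_some] at h7
        exact h5 h7
    · rw [map_sub, eval_X, eval_X]
      change ((aa p i0 d i : ℤ) : ℝ) - ((aa p i0 d j : ℤ) : ℝ) = 0
      rw [hij, sub_self]
  have hrun : ∀ (ω : Ω) (p : Pos n) (i0 : Option (Fin n)),
      (∀ i, i0 = some i → ¬ hnd (Tree.ideal (aa p0 none) x (sg (fun o => (y o : ℝ)) p) (A ω) []).2.1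
        (Tree.ideal (aa p0 none) x (sg (fun o => (y o : ℝ)) p) (A ω) []).2.2 p i) →
      ((A ω).Accepts (aa p i0) x ↔
        (Tree.ideal (aa p0 none) x (sg (fun o => (y o : ℝ)) p) (A ω) []).1) := by
    intro ω p i0 hi0
    refine run_near (aa p0 none) x (A ω) (hB ω) _ p i0 (aa p i0) x ?_ hi0 ?_ ?_
    · intro k f hf
      obtain ⟨h4, h5⟩ := h0 p i0 p0 none
      exact hf _ _ _ h4 h5
    · intro G hG hG0 ht
      exact h2 p i0 G ⟨Set.mem_iUnion.2 ⟨ω, hG⟩, hG0⟩ ht
    · intro P hP P' hP' hr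
      exact h3 p i0 _ (Or.inl ⟨P, Set.mem_iUnion.2 ⟨ω, hP⟩, P', Set.mem_iUnion.2 ⟨ω, hP'⟩, rfl⟩) hr
  refine ⟨fun o => (y o : ℝ), aa p0 none, x, fun p => aa p none, fun p i => aa p (some i),
    fun p => hinj p none, fun p i => hinj p (some i), ?_, ?_, ?_, ?_⟩
  · rintro p ⟨i, j, k, h⟩
    have h4 := h3 p none (lf ![i, j, k]) (Or.inr (Or.inl ⟨_, rfl⟩)) (lf_ne_zero _)
    apply h4
    rw [lf, map_sub, map_sum, eval_X, Fin.sum_univ_three, eval_X, eval_X, eval_X]
    simp only [Matrix.cons_val_zero, Matrix.cons_val_one, Matrix.cons_val, inp]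
    dsimp only at h
    rw [← h]
    push_cast
    ring
  · intro p i
    have h4 := h1 p (some i) i rfl
    refine ⟨lab i (p i) 0, lab i (p i) 1, lab i (p i) 2, ?_⟩
    dsimp only
    rw [h4, Fin.sum_univ_three]
  · intro ω p
    exact hrun ω p none (fun i hi => by cases hi)
  · intro ω p i hi
    refine hrun ω p (some i) ?_
    intro j hj
    cases hj
    exact hi

open Classical in
theorem tree_bound (n D T R : ℕ) (hD : 0 < D) (Ω : Type) [Fintype Ω] (p : Ω → ℝ) (A : Ω → Tree n)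
    (hB : ∀ ω, (A ω).Bounded (OfTwoSets n) D T R) (hp : ∀ ω, 0 ≤ p ω) (hsum : ∑ ω, p ω = 1)
    (hA : ∀ (a : Fin 3 → Fin n → ℤ) (x : ℤ), (∀ d, Function.Injective (a d)) →
      2 / 3 ≤ ∑ ω ∈ Finset.univ.filter (fun ω => ((A ω).Accepts a x ↔ InSumset a x)), p ω) :
    (n ^ 2) ^ n ≤ (10 ^ 17) ^ (n + R) * (D ^ 4 * (T + R)) ^ n := by
  rcases Nat.eq_zero_or_pos n with rfl | hn
  · rw [pow_zero, pow_zero, mul_one]
    exact Nat.one_le_pow _ _ (by norm_num)
  obtain ⟨y, a0, x0, aN, aY, hNi, hYi, hN, hY, hNr, hYr⟩ := exists_inputs A hB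
  let rn : Ω → Pos n → Prop × List (Pol n) × List (Pol n) := fun ω q =>
    Tree.ideal a0 x0 (sg y q) (A ω) []
  let H : Ω → Pos n → Finset (Fin n) := fun ω q =>
    univ.filter (fun i => hnd (rn ω q).2.1 (rn ω q).2.2 q i)
  have hmemH : ∀ ω q i, i ∈ H ω q ↔ hnd (rn ω q).2.1 (rn ω q).2.2 q i := by
    intro ω q i
    simp only [H, Finset.mem_filter, Finset.mem_univ, true_and]
  -- each hyperplane is handled with probability at least 1/3
  have h1 : ∀ (q : Pos n) (i : Fin n), 1 / 3 ≤ ∑ ω, if i ∈ H ω q then p ω else 0 := by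
    intro q i
    have h2 := hA (aN q) x0 (hNi q)
    have h3 := hA (aY q i) x0 (hYi q i)
    have h2' : 2 / 3 ≤ ∑ ω, if ¬ (rn ω q).1 then p ω else 0 := by
      rw [← Finset.sum_filter]
      refine h2.trans (Finset.sum_le_sum_of_subset_of_nonneg ?_ fun ω _ _ => hp ω)
      intro ω hω
      simp only [Finset.mem_filter, Finset.mem_univ, true_and] at hω ⊢
      intro hout
      exact hN q (hω.1 ((hNr ω q).2 hout))
    have h3' : 2 / 3 ≤ ∑ ω, if ((rn ω q).1 ∨ i ∈ H ω q) then p ω else 0 := by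
      rw [← Finset.sum_filter]
      refine h3.trans (Finset.sum_le_sum_of_subset_of_nonneg ?_ fun ω _ _ => hp ω)
      intro ω hω
      simp only [Finset.mem_filter, Finset.mem_univ, true_and] at hω ⊢
      by_cases hi : i ∈ H ω q
      · exact Or.inr hi
      · exact Or.inl ((hYr ω q i fun h => hi ((hmemH ω q i).2 h)).1 (hω.2 (hY q i)))
    have h4 : (∑ ω, if ¬ (rn ω q).1 then p ω else 0) +
        (∑ ω, if ((rn ω q).1 ∨ i ∈ H ω q) then p ω else 0) ≤
        ∑ ω, p ω + ∑ ω, if i ∈ H ω q then p ω else 0 := by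
      rw [← Finset.sum_add_distrib, ← Finset.sum_add_distrib]
      refine Finset.sum_le_sum fun ω _ => ?_
      have := hp ω
      by_cases ho : (rn ω q).1 <;> by_cases ht : i ∈ H ω q <;> simp [ho, ht, this]
    rw [hsum] at h4
    linarith
  -- one tree handles many hyperplanes
  obtain ⟨ω, hω⟩ : ∃ ω, n * Fintype.card (Pos n) ≤ 3 * ∑ q, (H ω q).card := by
    by_contra hc
    push Not at hc
    have h5 : (n : ℝ) * Fintype.card (Pos n) / 3 ≤ ∑ ω, p ω * ∑ q, ((H ω q).card : ℝ) := by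
      have h6 : ∑ q : Pos n, ∑ _i : Fin n, (1 / 3 : ℝ) ≤
          ∑ q : Pos n, ∑ i : Fin n, ∑ ω, if i ∈ H ω q then p ω else 0 :=
        Finset.sum_le_sum fun q _ => Finset.sum_le_sum fun i _ => h1 q i
      have h7 : ∑ q : Pos n, ∑ i : Fin n, ∑ ω, (if i ∈ H ω q then p ω else 0) =
          ∑ ω, p ω * ∑ q, ((H ω q).card : ℝ) := by
        have h8 : ∀ (ω : Ω) (q : Pos n), ∑ i : Fin n, (if i ∈ H ω q then p ω else 0) =
            p ω * ((H ω q).card : ℝ) := by
          intro ω q
          rw [Finset.sum_ite_mem, Finset.univ_inter, Finset.sum_const, nsmul_eq_mul, mul_comm]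
        calc ∑ q : Pos n, ∑ i : Fin n, ∑ ω, (if i ∈ H ω q then p ω else 0)
            = ∑ q : Pos n, ∑ ω, ∑ i : Fin n, (if i ∈ H ω q then p ω else 0) :=
              Finset.sum_congr rfl fun q _ => Finset.sum_comm
          _ = ∑ ω, ∑ q : Pos n, ∑ i : Fin n, (if i ∈ H ω q then p ω else 0) := Finset.sum_comm
          _ = ∑ ω, ∑ q : Pos n, p ω * ((H ω q).card : ℝ) :=
              Finset.sum_congr rfl fun ω _ => Finset.sum_congr rfl fun q _ => h8 ω q
          _ = _ := Finset.sum_congr rfl fun ω _ => (Finset.mul_sum _ _ _).symm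
      rw [h7] at h6
      rw [Finset.sum_const, Finset.sum_const, Finset.card_univ, Finset.card_univ, nsmul_eq_mul,
        nsmul_eq_mul, Fintype.card_fin] at h6
      have h9 : (Fintype.card (Pos n) : ℝ) * (n * (1 / 3)) =
          (n : ℝ) * Fintype.card (Pos n) / 3 := by ring
      rw [h9] at h6
      exact h6
    have hpos : ∃ ω, 0 < p ω := by
      by_contra hc'
      push Not at hc'
      have : ∑ ω, p ω ≤ 0 := Finset.sum_nonpos fun ω _ => hc' ω
      rw [hsum] at this
      linarith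
    obtain ⟨ω0, hω0⟩ := hpos
    have h10 : ∑ ω, p ω * ∑ q, ((H ω q).card : ℝ) <
        ∑ ω, p ω * ((n : ℝ) * Fintype.card (Pos n) / 3) := by
      have h11 : ∀ ω, ∑ q, ((H ω q).card : ℝ) < (n : ℝ) * Fintype.card (Pos n) / 3 := by
        intro ω
        have h12 : (3 * ∑ q, ((H ω q).card : ℝ)) < n * Fintype.card (Pos n) := by
          exact_mod_cast hc ω
        linarith
      refine Finset.sum_lt_sum (fun ω _ => mul_le_mul_of_nonneg_left (h11 ω).le (hp ω))
        ⟨ω0, Finset.mem_univ _, mul_lt_mul_of_pos_left (h11 ω0) hω0⟩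
    rw [← Finset.sum_mul, hsum, one_mul] at h10
    exact absurd h5 (not_le.2 h10)
  -- positions with many handled hyperplanes
  have h13 := avg_set n hn (H ω) hω
  obtain ⟨W', hW1, hW2, hW3⟩ := Tree.exists_same_run a0 x0 (fun q => sg y q) (A ω) [] T R (hB ω)
    (univ.filter (fun q => n ≤ 6 * (H ω q).card))
  have hcardP : Fintype.card (Pos n) = (n * n) ^ n := by
    rw [Fintype.card_fun, Fintype.card_prod, Fintype.card_fin]
  refine final_arith n D T R hn hD ?_
  rw [← hcardP]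
  refine h13.trans (Nat.mul_le_mul le_rfl (hW2.trans (Nat.mul_le_mul le_rfl ?_)))
  rcases W'.eq_empty_or_nonempty with hemp | ⟨q0, hq0⟩
  · rw [hemp]; simp
  · have hrn : ∀ q ∈ W', rn ω q = rn ω q0 := fun q hq => hW3 q hq q0 hq0
    have hv := Tree.bounded_values a0 x0 (sg y q0) (A ω) [] T R (hB ω) (by intro P hP; cases hP)
    have ht := Tree.bounded_tests a0 x0 (sg y q0) (A ω) [] T R (hB ω)
    refine card_run (rn ω q0).2.1 (rn ω q0).2.2 D T R ?_ hv.2 ht.1 ht.2 W' (H ω) ?_ ?_
    · have := hv.1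
      simpa using this
    · intro q hq i hi
      have := (hmemH ω q i).1 hi
      rwa [hrn q hq] at this
    · intro q hq
      exact (Finset.mem_filter.1 (hW1 hq)).2

end Pool.Agent.H29.TS
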