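import Pool.Agent.H29.TS.TreeModel
import Pool.Agent.H29.TS.Core

/-!
# Generic runs of a tree
-/

set_option autoImplicit false

namespace Pool.Agent.H29.TS

open Finset Pool.Agent.H80.TS MvPolynomial

namespace Tree

variable {n : ℕ}

/-- The run in which the free information is that of the input `a0, x0`, equalities hold only
between identical polynomials and the comparisons are answered by `s`: the answer, the polynomials
of the stored values and those of the comparisons. -/
noncomputable def ideal (a0 : Fin 3 → Fin n → ℤ) (x0 : ℤ) (s : Pol n → SignType) :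
    Tree n → List (Pol n) → Prop × List (Pol n) × List (Pol n)
  | leaf ans, F => (ans, F, [])
  | ask _ f next, F => ideal a0 x0 s (next (f a0 x0)) F
  | value P next, F => ideal a0 x0 s (next (fun i => F[i]? = some P)) (F ++ [P])
  | test G next, F => ((ideal a0 x0 s (next (s G)) F).1, (ideal a0 x0 s (next (s G)) F).2.1,
      G :: (ideal a0 x0 s (next (s G)) F).2.2)

variable (a0 : Fin 3 → Fin n → ℤ) (x0 : ℤ)

theorem sub_ideal (s : Pol n → SignType) (τ : Tree n) : ∀ F : List (Pol n),
    ∀ P ∈ F, P ∈ (ideal a0 x0 s τ F).2.1 := by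
  induction τ with
  | leaf ans => intro F P hP; exact hP
  | ask k f next ih => intro F Q hQ; exact ih _ _ Q hQ
  | value P next ih =>
    intro F Q hQ
    exact ih _ _ Q (List.mem_append_left _ hQ)
  | test G next ih =>
    intro F Q hQ
    exact ih _ _ Q hQ

/-- A run is the generic run. -/
theorem answer_iff (Free : ∀ k : ℕ, ((Fin 3 → Fin n → ℤ) → ℤ → Fin k) → Prop) {D : ℕ}
    (s : Pol n → SignType) (a : Fin 3 → Fin n → ℤ) (x : ℤ)
    (hfree : ∀ k f, Free k f → f a x = f a0 x0) (τ : Tree n) :
    ∀ (F : List (Pol n)) (T R : ℕ), τ.Bounded Free D T R →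
    (∀ P ∈ (ideal a0 x0 s τ F).2.1, ∀ P' ∈ (ideal a0 x0 s τ F).2.1,
      eval (inp a x) P = eval (inp a x) P' → P = P') →
    (∀ G ∈ (ideal a0 x0 s τ F).2.2, SignType.sign (eval (inp a x) G) = s G) →
    (answer a x τ (F.map (eval (inp a x))) ↔ (ideal a0 x0 s τ F).1) := by
  induction τ with
  | leaf ans => intro F _ _ _ _ _; exact Iff.rfl
  | ask k f next ih =>
    intro F T R hB h1 h2
    change answer a x (next (f a x)) _ ↔ _
    rw [hfree k f hB.1]
    exact ih (f a0 x0) F T R (hB.2 _) h1 h2
  | value P next ih =>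
    intro F T R hB h1 h2
    have hmem : ∀ Q ∈ F ++ [P], Q ∈ (ideal a0 x0 s (value P next) F).2.1 := fun Q hQ =>
      sub_ideal a0 x0 s (next (fun i => F[i]? = some P)) (F ++ [P]) Q hQ
    have h3 : (fun i : ℕ => (F.map (eval (inp a x)))[i]? = some (eval (inp a x) P)) =
        (fun i : ℕ => F[i]? = some P) := by
      funext i
      rw [List.getElem?_map]
      refine propext ⟨fun h => ?_, fun h => by rw [h]; rfl⟩
      rcases hF : F[i]? with _ | Q
      · rw [hF] at h; simp at h
      · rw [hF, Option.map_some] at h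
        have h4 : eval (inp a x) Q = eval (inp a x) P := Option.some_injective _ h
        have h5 : Q ∈ F := List.mem_of_getElem? hF
        rw [h1 Q (hmem Q (List.mem_append_left _ h5)) P
          (hmem P (List.mem_append_right _ (List.mem_singleton.2 rfl))) h4]
    have h4 := ih (fun i => F[i]? = some P) (F ++ [P]) (T - 1) R (hB.2.2 _) h1 h2
    rw [List.map_append] at h4
    change answer a x (next (fun i => (F.map (eval (inp a x)))[i]? = some (eval (inp a x) P)))
      (F.map (eval (inp a x)) ++ [eval (inp a x) P]) ↔ _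
    rw [h3]
    exact h4
  | test G next ih =>
    intro F T R hB h1 h2
    have h3 : SignType.sign (eval (inp a x) G) = s G := h2 G (List.mem_cons_self ..)
    have h4 := ih (s G) F T (R - 1) (hB.2.2 _) h1 (fun Q hQ => h2 Q (List.mem_cons_of_mem _ hQ))
    change answer a x (next (SignType.sign (eval (inp a x) G))) _ ↔ _
    rw [h3]
    exact h4

/-- All polynomials occurring in generic runs. -/
def occ : Tree n → List (Pol n) → Set (Pol n)
  | leaf _, F => {Q | Q ∈ F}
  | ask k _ next, F => ⋃ j : Fin k, occ (next j) F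
  | value P next, F => occ (next (fun i => F[i]? = some P)) (F ++ [P])
  | test G next, F => {G} ∪ ⋃ s : SignType, occ (next s) F

theorem finite_occ (τ : Tree n) : ∀ F : List (Pol n), (occ τ F).Finite := by
  induction τ with
  | leaf ans => intro F; exact List.finite_toSet F
  | ask k f next ih => intro F; exact Set.finite_iUnion fun j => ih j F
  | value P next ih => intro F; exact ih _ _
  | test G next ih =>
    intro F
    exact (Set.finite_singleton _).union (Set.finite_iUnion fun s => ih s F)

theorem values_occ (s : Pol n → SignType) (τ : Tree n) : ∀ F : List (Pol n),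
    ∀ P ∈ (ideal a0 x0 s τ F).2.1, P ∈ occ τ F := by
  induction τ with
  | leaf ans => intro F P hP; exact hP
  | ask k f next ih => intro F P hP; exact Set.mem_iUnion.2 ⟨f a0 x0, ih _ _ P hP⟩
  | value P next ih => intro F Q hQ; exact ih _ _ Q hQ
  | test G next ih =>
    intro F Q hQ
    exact Or.inr (Set.mem_iUnion.2 ⟨s G, ih _ _ Q hQ⟩)

theorem tests_occ (s : Pol n → SignType) (τ : Tree n) : ∀ F : List (Pol n),
    ∀ P ∈ (ideal a0 x0 s τ F).2.2, P ∈ occ τ F := by
  induction τ with
  | leaf ans => intro F P hP; simp [ideal] at hP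
  | ask k f next ih => intro F P hP; exact Set.mem_iUnion.2 ⟨f a0 x0, ih _ _ P hP⟩
  | value P next ih => intro F Q hQ; exact ih _ _ Q hQ
  | test G next ih =>
    intro F Q hQ
    rcases List.mem_cons.1 hQ with rfl | hQ
    · exact Or.inl rfl
    · exact Or.inr (Set.mem_iUnion.2 ⟨s G, ih _ _ Q hQ⟩)

section bounded

variable {Free : ∀ k : ℕ, ((Fin 3 → Fin n → ℤ) → ℤ → Fin k) → Prop} {D : ℕ}

theorem bounded_values (s : Pol n → SignType) (τ : Tree n) :
    ∀ (F : List (Pol n)) (T R : ℕ), τ.Bounded Free D T R → (∀ P ∈ F, P.totalDegree ≤ D) →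
    (ideal a0 x0 s τ F).2.1.length ≤ F.length + T ∧
      ∀ P ∈ (ideal a0 x0 s τ F).2.1, P.totalDegree ≤ D := by
  induction τ with
  | leaf ans => intro F T R _ hF; exact ⟨Nat.le_add_right _ _, hF⟩
  | ask k f next ih => intro F T R h hF; exact ih _ F T R (h.2 _) hF
  | value P next ih =>
    intro F T R h hF
    obtain ⟨h1, h2, h3⟩ := h
    have h4 := ih (fun i => F[i]? = some P) (F ++ [P]) (T - 1) R (h3 _) (by
      intro Q hQ
      rcases List.mem_append.1 hQ with hQ | hQ
      · exact hF Q hQ
      · rw [List.mem_singleton.1 hQ]; exact h1)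
    refine ⟨?_, h4.2⟩
    have h5 := h4.1
    rw [List.length_append, List.length_singleton] at h5
    change (ideal a0 x0 s (next (fun i => F[i]? = some P)) (F ++ [P])).2.1.length ≤ _
    omega
  | test G next ih =>
    intro F T R h hF
    obtain ⟨_, _, h3⟩ := h
    exact ih (s G) F T (R - 1) (h3 _) hF

theorem bounded_tests (s : Pol n → SignType) (τ : Tree n) :
    ∀ (F : List (Pol n)) (T R : ℕ), τ.Bounded Free D T R →
    (ideal a0 x0 s τ F).2.2.length ≤ R ∧ ∀ P ∈ (ideal a0 x0 s τ F).2.2, P.totalDegree ≤ D := by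
  induction τ with
  | leaf ans =>
    intro F T R _
    exact ⟨Nat.zero_le _, fun P hP => by simp [ideal] at hP⟩
  | ask k f next ih => intro F T R h; exact ih _ F T R (h.2 _)
  | value P next ih =>
    intro F T R h
    obtain ⟨_, _, h3⟩ := h
    exact ih _ _ (T - 1) R (h3 _)
  | test G next ih =>
    intro F T R h
    obtain ⟨h1, h2, h3⟩ := h
    have h4 := ih (s G) F T (R - 1) (h3 _)
    refine ⟨?_, ?_⟩
    · change ((ideal a0 x0 s (next (s G)) F).2.2.length + 1) ≤ R
      have := h4.1
      omega
    · intro Q hQ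
      rcases List.mem_cons.1 hQ with rfl | hQ
      · exact h1
      · exact h4.2 Q hQ

/-- There are at most `3 ^ R` generic runs. -/
theorem exists_runs (τ : Tree n) : ∀ (F : List (Pol n)) (T R : ℕ), τ.Bounded Free D T R →
    ∃ L : List (Prop × List (Pol n) × List (Pol n)), L.length ≤ 3 ^ R ∧
      ∀ s : Pol n → SignType, ideal a0 x0 s τ F ∈ L := by
  induction τ with
  | leaf ans =>
    intro F T R _
    refine ⟨[(ans, F, [])], ?_, fun s => List.mem_singleton.2 rfl⟩
    exact Nat.one_le_pow _ _ (by norm_num)
  | ask k f next ih => intro F T R h; exact ih _ F T R (h.2 _)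
  | value P next ih =>
    intro F T R h
    exact ih _ _ (T - 1) R (h.2.2 _)
  | test G next ih =>
    intro F T R h
    obtain ⟨_, hR, h3⟩ := h
    choose L hL1 hL2 using fun e : SignType => ih e F T (R - 1) (h3 e)
    refine ⟨((L 0 ++ L 1) ++ L (-1)).map (fun r => (r.1, r.2.1, G :: r.2.2)), ?_, fun s => ?_⟩
    · rw [List.length_map, List.length_append, List.length_append]
      have e1 := hL1 0
      have e2 := hL1 1
      have e3 := hL1 (-1)
      calc (L 0).length + (L 1).length + (L (-1)).length ≤ 3 * 3 ^ (R - 1) := by omega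
        _ = 3 ^ (R - 1 + 1) := by ring
        _ = 3 ^ R := by rw [Nat.sub_add_cancel hR]
    · refine List.mem_map.2 ⟨ideal a0 x0 s (next (s G)) F, ?_, rfl⟩
      have h4 := hL2 (s G) s
      rcases h5 : s G with _ | _ | _
      · rw [h5] at h4
        exact List.mem_append_left _ (List.mem_append_left _ h4)
      · rw [h5] at h4
        exact List.mem_append_right _ h4
      · rw [h5] at h4
        exact List.mem_append_left _ (List.mem_append_right _ h4)

/-- A large part of the positions follows the same run. -/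
theorem exists_same_run {ι : Type} [DecidableEq ι] (s : ι → Pol n → SignType)
    (τ : Tree n) : ∀ (F : List (Pol n)) (T R : ℕ), τ.Bounded Free D T R → ∀ W : Finset ι,
    ∃ W' : Finset ι, W' ⊆ W ∧ W.card ≤ 3 ^ R * W'.card ∧
      ∀ p ∈ W', ∀ q ∈ W', ideal a0 x0 (s p) τ F = ideal a0 x0 (s q) τ F := by
  induction τ with
  | leaf ans =>
    intro F T R _ W
    refine ⟨W, Finset.Subset.refl _, ?_, fun _ _ _ _ => rfl⟩
    exact Nat.le_mul_of_pos_left _ (by positivity)
  | ask k f next ih => intro F T R h W; exact ih _ F T R (h.2 _) W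
  | value P next ih =>
    intro F T R h W
    exact ih _ _ (T - 1) R (h.2.2 _) W
  | test G next ih =>
    intro F T R h W
    obtain ⟨_, hR, h3⟩ := h
    have hcard : W.card = ∑ e : SignType, (W.filter (fun p => s p G = e)).card :=
      Finset.card_eq_sum_card_fiberwise fun p _ => Finset.mem_univ _
    obtain ⟨e, he⟩ : ∃ e : SignType, W.card ≤ 3 * (W.filter (fun p => s p G = e)).card := by
      by_contra hc
      push Not at hc
      have h4 : ∑ e : SignType, 3 * (W.filter (fun p => s p G = e)).card <
          ∑ _e : SignType, W.card :=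
        Finset.sum_lt_sum_of_nonempty ⟨0, Finset.mem_univ _⟩ fun e _ => hc e
      rw [← Finset.mul_sum, ← hcard, Finset.sum_const, Finset.card_univ, smul_eq_mul] at h4
      have h5 : Fintype.card SignType = 3 := rfl
      rw [h5] at h4
      exact lt_irrefl _ h4
    obtain ⟨W', h4, h5, h6⟩ := ih e F T (R - 1) (h3 e) (W.filter (fun p => s p G = e))
    refine ⟨W', h4.trans (Finset.filter_subset _ _), ?_, ?_⟩
    · calc W.card ≤ 3 * (W.filter (fun p => s p G = e)).card := he
        _ ≤ 3 * (3 ^ (R - 1) * W'.card) := Nat.mul_le_mul le_rfl h5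
        _ = 3 ^ (R - 1 + 1) * W'.card := by ring
        _ = 3 ^ R * W'.card := by rw [Nat.sub_add_cancel hR]
    · intro p hp q hq
      have hpe : s p G = e := (Finset.mem_filter.1 (h4 hp)).2
      have hqe : s q G = e := (Finset.mem_filter.1 (h4 hq)).2
      have h7 := h6 p hp q hq
      simp only [ideal, hpe, hqe, h7]

end bounded

end Tree

end Pool.Agent.H29.TS
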