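import Pool.Agent.H29.TS.TreeModel

/-!
# The quadratic algorithm as a tree
-/

set_option autoImplicit false

namespace Pool.Agent.H29.TS

open MvPolynomial Pool.Agent.H80.TS

/-- Compute the values `P s, …, P (s + m - 1)` and answer `acc E`, where `E i j` says that the
values number `i` and `j` (`i < j`) are equal. -/
def chain {n : ℕ} (P : ℕ → MvPolynomial (Option (Fin 3 × Fin n)) ℝ)
    (acc : (ℕ → ℕ → Prop) → Prop) : ℕ → ℕ → (ℕ → ℕ → Prop) → Tree n
  | 0, _, E => .leaf (acc E)
  | m + 1, s, E => .value (P s) (fun e => chain P acc m (s + 1)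
      (fun i j => (j = s → e i) ∧ (j ≠ s → E i j)))

theorem chain_bounded {n : ℕ} (P : ℕ → MvPolynomial (Option (Fin 3 × Fin n)) ℝ)
    (acc : (ℕ → ℕ → Prop) → Prop)
    (Free : ∀ k : ℕ, ((Fin 3 → Fin n → ℤ) → ℤ → Fin k) → Prop) (D : ℕ)
    (hP : ∀ t, (P t).totalDegree ≤ D) (m : ℕ) :
    ∀ (s : ℕ) (E : ℕ → ℕ → Prop), (chain P acc m s E).Bounded Free D m 0 := by
  induction m with
  | zero => intro s E; exact trivial
  | succ m ih =>
    intro s E
    refine ⟨hP s, Nat.succ_pos _, fun e => ?_⟩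
    exact ih (s + 1) _

theorem chain_answer {n : ℕ} (P : ℕ → MvPolynomial (Option (Fin 3 × Fin n)) ℝ)
    (acc : (ℕ → ℕ → Prop) → Prop) (a : Fin 3 → Fin n → ℤ) (x : ℤ) (v : ℕ → ℝ)
    (hv : ∀ t, eval (inp a x) (P t) = v t) (Q : Prop) (m : ℕ) :
    ∀ (s : ℕ) (E : ℕ → ℕ → Prop) (vs : List ℝ),
      (∀ E' : ℕ → ℕ → Prop, (∀ i j, i < j → j < s + m → (E' i j ↔ v i = v j)) → (acc E' ↔ Q)) →
      vs.length = s → (∀ i, i < s → vs[i]? = some (v i)) →
      (∀ i j, i < j → j < s → (E i j ↔ v i = v j)) →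
      (Tree.answer a x (chain P acc m s E) vs ↔ Q) := by
  induction m with
  | zero =>
    intro s E vs hQ _ _ hE
    exact hQ E (fun i j hij hj => hE i j hij (by omega))
  | succ m ih =>
    intro s E vs hQ hl hvs hE
    have h := ih (s + 1)
      (fun i j => (j = s → vs[i]? = some (eval (inp a x) (P s))) ∧ (j ≠ s → E i j))
      (vs ++ [eval (inp a x) (P s)])
      (fun E' hE' => hQ E' (fun i j hij hj => hE' i j hij (by omega)))
      (by simp [hl]) ?_ ?_
    · exact h
    · intro i hi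
      rcases Nat.lt_or_ge i s with h1 | h1
      · rw [List.getElem?_append_left (by omega)]
        exact hvs i h1
      · have : i = s := by omega
        subst this
        rw [List.getElem?_append_right (by omega), hl, Nat.sub_self, hv]
        rfl
    · intro i j hij hj
      rcases Nat.lt_or_ge j s with h1 | h1
      · have hne : j ≠ s := by omega
        constructor
        · rintro ⟨_, h2⟩
          exact (hE i j hij h1).1 (h2 hne)
        · intro h2
          exact ⟨fun h3 => absurd h3 hne, fun _ => (hE i j hij h1).2 h2⟩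
      · have : j = s := by omega
        subst this
        have h2 := hvs i hij
        rw [h2, hv]
        constructor
        · rintro ⟨h3, _⟩
          exact Option.some.inj (h3 rfl)
        · intro h3
          exact ⟨fun _ => by rw [h3], fun h4 => absurd rfl h4⟩

theorem div_lt_of_lt_sq {n t : ℕ} (h : t < n ^ 2) : t / n < n :=
  Nat.div_lt_of_lt_mul (by rw [← sq]; exact h)

theorem mod_lt_of_lt_sq {n t : ℕ} (h : t < n ^ 2) : t % n < n := by
  refine Nat.mod_lt _ ?_
  rcases Nat.eq_zero_or_pos n with h0 | h0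
  · subst h0
    simp at h
  · exact h0

/-- The values `x - a 0 (t / n) - a 1 (t % n)` for `t < n ^ 2` and `a 2 (t - n ^ 2)` for
`n ^ 2 ≤ t < n ^ 2 + n`. -/
noncomputable def upPoly (n t : ℕ) : MvPolynomial (Option (Fin 3 × Fin n)) ℝ :=
  if h : t < n ^ 2 then
    X none - X (some (0, ⟨t / n, div_lt_of_lt_sq h⟩)) - X (some (1, ⟨t % n, mod_lt_of_lt_sq h⟩))
  else if h : t - n ^ 2 < n then X (some (2, ⟨t - n ^ 2, h⟩)) else 0

theorem upPoly_degree (n t : ℕ) : (upPoly n t).totalDegree ≤ 1 := by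
  unfold upPoly
  split_ifs with h1 h2
  · refine (totalDegree_sub _ _).trans (max_le ((totalDegree_sub _ _).trans (max_le ?_ ?_)) ?_)
    · exact (totalDegree_X _).le
    · exact (totalDegree_X _).le
    · exact (totalDegree_X _).le
  · exact (totalDegree_X _).le
  · rw [totalDegree_zero]
    exact Nat.zero_le _

theorem tree_upper (n D : ℕ) (hD : 1 ≤ D)
    (Free : ∀ k : ℕ, ((Fin 3 → Fin n → ℤ) → ℤ → Fin k) → Prop) :
    ∃ τ : Tree n, τ.Bounded Free D (n ^ 2 + n) 0 ∧
      ∀ (a : Fin 3 → Fin n → ℤ) (x : ℤ), τ.Accepts a x ↔ InSumset a x := by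
  refine ⟨chain (upPoly n) (fun E => ∃ p q, p < n ^ 2 ∧ q < n ∧ E p (n ^ 2 + q)) (n ^ 2 + n) 0
    (fun _ _ => False), chain_bounded _ _ Free D (fun t => (upPoly_degree n t).trans hD) _ _ _, ?_⟩
  intro a x
  refine chain_answer (upPoly n) _ a x (fun t => eval (inp a x) (upPoly n t)) (fun _ => rfl)
    (InSumset a x) (n ^ 2 + n) 0 _ [] ?_ rfl (fun i hi => absurd hi (Nat.not_lt_zero _))
    (fun i j _ hj => absurd hj (Nat.not_lt_zero _))
  intro E hE
  have key : ∀ (i j k : Fin n), (i.1 * n + j.1 < n ^ 2 ∧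
      (E (i.1 * n + j.1) (n ^ 2 + k.1) ↔ a 0 i + a 1 j + a 2 k = x)) := by
    intro i j k
    have hn : 0 < n := i.pos
    have hp : i.1 * n + j.1 < n ^ 2 := by
      have h1 := i.2
      have h2 := j.2
      have : (i.1 + 1) * n ≤ n * n := Nat.mul_le_mul h1 le_rfl
      rw [sq]
      rw [add_mul, one_mul] at this
      omega
    refine ⟨hp, ?_⟩
    have hk := k.2
    rw [hE _ _ (by omega) (by omega)]
    have hd : (i.1 * n + j.1) / n = i.1 := by
      rw [mul_comm, Nat.mul_add_div hn, Nat.div_eq_of_lt j.2, add_zero]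
    have hm : (i.1 * n + j.1) % n = j.1 := by
      rw [mul_comm, Nat.mul_add_mod, Nat.mod_eq_of_lt j.2]
    have e1 : upPoly n (i.1 * n + j.1) = X none - X (some (0, i)) - X (some (1, j)) := by
      unfold upPoly
      rw [dif_pos hp]
      have f1 : (⟨(i.1 * n + j.1) / n, div_lt_of_lt_sq hp⟩ : Fin n) = i := Fin.ext hd
      have f2 : (⟨(i.1 * n + j.1) % n, mod_lt_of_lt_sq hp⟩ : Fin n) = j := Fin.ext hm
      rw [f1, f2]
    have e2 : upPoly n (n ^ 2 + k.1) = X (some (2, k)) := by
      unfold upPoly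
      rw [dif_neg (by omega), dif_pos (by omega)]
      have f3 : (⟨n ^ 2 + k.1 - n ^ 2, by omega⟩ : Fin n) = k := Fin.ext (by simp)
      rw [f3]
    rw [e1, e2]
    simp only [map_sub, eval_X, inp]
    constructor
    · intro h
      have : ((a 0 i + a 1 j + a 2 k : ℤ) : ℝ) = ((x : ℤ) : ℝ) := by
        push_cast
        linarith
      exact_mod_cast this
    · intro h
      rw [← h]
      push_cast
      ring
  constructor
  · rintro ⟨p, q, hp, hq, h⟩
    have hn : 0 < n := by omega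
    have hpn := div_lt_of_lt_sq hp
    have hpm := mod_lt_of_lt_sq hp
    have h1 := (key ⟨p / n, hpn⟩ ⟨p % n, hpm⟩ ⟨q, hq⟩).2
    have h2 : p / n * n + p % n = p := by
      rw [mul_comm]
      exact Nat.div_add_mod p n
    simp only [h2] at h1
    exact ⟨_, _, _, h1.1 h⟩
  · rintro ⟨i, j, k, h⟩
    obtain ⟨h1, h2⟩ := key i j k
    exact ⟨_, _, h1, k.2, h2.2 h⟩

end Pool.Agent.H29.TS
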